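import Pool.Agent.H8.SYG.GDiG

/-!
# Row GAnn: the annulus

* fM_im: `w = Tm k v`, `w ∉ Tm k '' closedBall (1/2)` (`Dat.not_mem_of_norm`), so `1 < ‖w‖` (`Dat.norm_gt_one`);
  `im v = psE (qf w) w` with `w ∈ Vc` (`Dat.norm_Tm_two`, `Dat.deep`), in `UE`, `wco = w` (`psE_mem`), so
  `fM (im v) = psE (G w) w`.  Let `w' = (‖v‖²)⁻¹ • v`, `‖w'‖ = 1/‖v‖`, so `1/2 < ‖w'‖ < 2`; `p = jm k w' ∈ S3S3` (`jm_mem`:
  `2 k² ‖w'‖² ≤ 8/40000`), `p ∉ jm k '' closedBall (1/2)` (`Xw_jm`: `k • w' = k • w''` implies `w' = w''`), so `sX0 p < 1` and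
  `t² + ‖(sig p).2‖² < s0` for `t = (sig p).1` (`core_of_not_mem`, `sig_norm`); `(sig p).2 = Tm k ((‖w'‖²)⁻¹ • w') =
  Tm k v = w` (`sig_jm_eq`, `(‖w'‖²)⁻¹ • w' = v`); `f1 t w = 0` (`sig_f1`), `Ff m n t w = 0` (`Ff_core`), so `t = G w`
  (`H.G_zero`).  `gm p = psE t w = psE (G w) w`.
* annulus, `⊇`: `z = fM (im v) = gm p` is in `Mfin ∩ Bs` by `(diffeo_g H).2.1`, and `wco z = w ∉ Tm k '' closedBall`, so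
  `z ∉ Kc`.  `⊆`: `z ∈ Mfin ∩ Bs`, `z ∉ Kc`.  `p = sinv (eT z, wco z)` (`gm_sinv`): `gm p = z`,
  `(sig p).2 = wco z` (`sig_sinv`) is not in `Tm k '' closedBall (1/2)` (as `z ∈ UE`, `z ∈ Mfin`, `z ∉ Kc`), so by `sig_mem_Tm`
  `p = jm k w'` with `‖w'‖ < 2`, and `1/2 < ‖w'‖` since `p ∉ jm k '' closedBall (1/2)`.  `v = (‖w'‖²)⁻¹ • w'`,
  `1/2 < ‖v‖ < 2`, `(‖v‖²)⁻¹ • v = w'`, so `z = gm p = fM (im v)`.
-/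

open Set Topology
open scoped ContDiff ComplexConjugate

namespace Pool.Agent.H8.SYG

open Pool.Agent.H34.SY

variable {P : Par} {m n : ℝ → ℝ} {s0 s1 k : ℝ} {G : R6 → ℝ}

theorem GAnn_inv {v : R6} (hv : 0 < ‖v‖) : ‖(‖v‖ ^ 2)⁻¹ • v‖ = ‖v‖⁻¹ ∧
    (‖(‖v‖ ^ 2)⁻¹ • v‖ ^ 2)⁻¹ • ((‖v‖ ^ 2)⁻¹ • v) = v := by
  have h1 : ‖(‖v‖ ^ 2)⁻¹ • v‖ = ‖v‖⁻¹ := by
    rw [norm_smul, Real.norm_eq_abs, abs_of_pos (by positivity)]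
    field_simp
  refine ⟨h1, ?_⟩
  rw [h1, smul_smul, inv_pow, inv_inv, mul_inv_cancel₀ (by positivity), one_smul]

theorem GAnn_bd {v : R6} (h1 : 1 / 2 < ‖v‖) (h2 : ‖v‖ < 2) :
    1 / 2 < ‖(‖v‖ ^ 2)⁻¹ • v‖ ∧ ‖(‖v‖ ^ 2)⁻¹ • v‖ < 2 := by
  have h0 : 0 < ‖v‖ := by linarith
  rw [(GAnn_inv h0).1]
  constructor
  · rw [one_div]
    exact (inv_lt_inv₀ (by norm_num) h0).2 h2
  · rw [inv_lt_comm₀ h0 (by norm_num)]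
    linarith

theorem GAnn_jm (H : Dat P m n s0 s1 k G) {w : R6} (h1 : 1 / 2 < ‖w‖) (h2 : ‖w‖ < 2) :
    jm k w ∈ S3S3 ∧ jm k w ∉ jm k '' Metric.closedBall (0 : R6) (1 / 2) := by
  refine ⟨jm_mem (GJ_pos H.k_pos H.k_le (mem_ball_zero_iff.2 h2)).le, ?_⟩
  rintro ⟨u, hu, huw⟩
  have h3 : k • u = k • w := by rw [← Xw_jm, ← Xw_jm, huw]
  have h4 : u = w := smul_right_injective R6 H.k_pos.ne' h3
  rw [h4, mem_closedBall_zero_iff] at hu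
  linarith

/-- the point `fM (im v)` of the annulus. -/
theorem GAnn_pt (H : Dat P m n s0 s1 k G) {v : R6} (h1 : 1 / 2 < ‖v‖) (h2 : ‖v‖ < 2) :
    Tm k v ∈ Vc P.La ∧ fM P.La G (im P.La k v) = psE P.La (G (Tm k v)) (Tm k v) := by
  have hw := H.norm_Tm_two h2.le
  have hs := H.hp.s1_gt
  have hs0 := H.s0_pos
  have hV := (H.deep (show ‖Tm k v‖ ^ 2 ≤ s1 by linarith) 0).1
  have h3 := H.norm_gt_one (H.not_mem_of_norm h1)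
  obtain ⟨_, hU, hwco, _⟩ := psE_mem H.La_pos (qf (Tm k v)) hV
  refine ⟨hV, ?_⟩
  have h4 : im P.La k v = psE P.La (qf (Tm k v)) (Tm k v) := rfl
  unfold fM
  rw [h4, if_pos ⟨hU, by rw [hwco]; exact h3⟩, hwco]

theorem fM_im (H : Dat P m n s0 s1 k G) : ∀ v : R6, 1 / 2 < ‖v‖ → ‖v‖ < 2 →
    fM P.La G (im P.La k v) = gm P.La (jm k ((‖v‖ ^ 2)⁻¹ • v)) := by
  intro v h1 h2
  have h0 : 0 < ‖v‖ := by linarith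
  obtain ⟨hb1, hb2⟩ := GAnn_bd h1 h2
  obtain ⟨hp, hpn⟩ := GAnn_jm H hb1 hb2
  obtain ⟨hX, hc⟩ := core_of_not_mem H.s0_big H.hk hp hpn
  have hsig : (sig (jm k ((‖v‖ ^ 2)⁻¹ • v))).2 = Tm k v := by
    rw [sig_jm_eq (by linarith) hb2.le, (GAnn_inv h0).2]
  have hn := sig_norm hp hX
  have hf := sig_f1 hp hX
  rw [← hn, hsig] at hc
  rw [hsig] at hf
  have hF : Ff m n (sig (jm k ((‖v‖ ^ 2)⁻¹ • v))).1 (Tm k v) = 0 := by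
    rw [Ff_core H.hp hc.le, hf]
  have hG := (H.G_zero (Tm k v) (H.norm_gt_one (H.not_mem_of_norm h1)) _).1 hF
  rw [(GAnn_pt H h1 h2).2]
  unfold gm
  rw [hsig, hG]

theorem annulus (H : Dat P m n s0 s1 k G) :
    P.Mfin m n ∩ (Kc P m n k)ᶜ ∩ Bs s0 k =
      fM P.La G '' (im P.La k '' {v : R6 | 1 / 2 < ‖v‖ ∧ ‖v‖ < 2}) := by
  ext z
  constructor
  · rintro ⟨⟨hM, hK⟩, hB⟩
    obtain ⟨hp, hpn, hg⟩ := gm_sinv H hM hB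
    have hw : wco z ∉ Tm k '' Metric.closedBall (0 : R6) (1 / 2) := fun h =>
      hK ⟨hM, hB.1, h⟩
    have hj : sinv (eT z, wco z) ∈ jm k '' Metric.ball (0 : R6) 2 := by
      by_contra hn
      have h3 := sig_mem_Tm H.k_pos H.k_le hp (sX0_sinv_lt _) hn
      rw [sig_sinv] at h3
      exact hw h3
    obtain ⟨w', hw', hjw⟩ := hj
    rw [mem_ball_zero_iff] at hw'
    have hw2 : 1 / 2 < ‖w'‖ := by
      by_contra hn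
      exact hpn ⟨w', mem_closedBall_zero_iff.2 (not_lt.1 hn), hjw⟩
    have h0 : 0 < ‖w'‖ := by linarith
    obtain ⟨hb1, hb2⟩ := GAnn_bd hw2 hw'
    refine ⟨im P.La k ((‖w'‖ ^ 2)⁻¹ • w'), ⟨_, ⟨hb1, hb2⟩, rfl⟩, ?_⟩
    rw [fM_im H _ hb1 hb2, (GAnn_inv h0).2, hjw, hg]
  · rintro ⟨_, ⟨v, ⟨h1, h2⟩, rfl⟩, rfl⟩
    obtain ⟨hb1, hb2⟩ := GAnn_bd h1 h2
    obtain ⟨hp, hpn⟩ := GAnn_jm H hb1 hb2
    have h3 := (diffeo_g H).2.1 _ ⟨hp, hpn⟩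
    rw [← fM_im H v h1 h2] at h3
    refine ⟨⟨h3.1, ?_⟩, h3.2⟩
    rintro ⟨_, _, hK⟩
    obtain ⟨hV, hpt⟩ := GAnn_pt H h1 h2
    rw [hpt, (psE_mem H.La_pos _ hV).2.2.1] at hK
    exact H.not_mem_of_norm h1 hK

end Pool.Agent.H8.SYG
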