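import Pool.Agent.H8.SYG.GDat

/-!
# Row GChI: the chart `i` of `M`

`Ri` from `radial_inv` (row GThI) applied to `Th k` (`contDiff_Th`, `Dat.Th_pos`, `Th_radial`): smooth on the open
set `Tm k '' ball 0 2`, `Ri (Tm k v) = v`.  `UM = UE ∩ wco ⁻¹' (Tm k '' ball 0 2)` (open: `wco` is continuous on the open set
`UE`), `ρM z = Ri (wco z)`.  `w = Tm k v`, `v ∈ ball 0 2`: `‖w‖² < s0 < s1`, so `w ∈ Vc` (`Dat.deep`), `im v = psE P.La (qf w) w`
is in `M` (`psE_M`), in `UE`, `wco (im v) = w` (`psE_mem`), `eS (im v) < -1` (`Dat.deep`).  `im` is smooth on the ball: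
`contDiffOn_psE` composed with `v ↦ (qf (Tm k v), Tm k v)`.
left_inv: `z ∈ P.M ∩ UM`: `z ∈ WS`, `z = psE (eT z) (wco z)` (`psE_wco`), `eT z = qf (wco z)` (`psE_M`), `wco z = Tm k v`,
`Ri (wco z) = v`, `im v = psE (qf (wco z)) (wco z) = z`.
-/

open Set Topology
open scoped ContDiff ComplexConjugate

namespace Pool.Agent.H8.SYG

open Pool.Agent.H34.SY

variable {P : Par} {m n : ℝ → ℝ} {s0 s1 k : ℝ} {G : R6 → ℝ}

theorem GChI_qf : ContDiff ℝ ∞ qf := by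
  have h := GCha_crd
  exact ((((h 2).pow 2).add ((h 3).pow 2)).sub ((h 4).pow 2)).sub ((h 5).pow 2)

theorem chart_i (H : Dat P m n s0 s1 k G) :
    ∃ (UM : Set EA) (ρM : EA → R6), IsChart P.M UM (Metric.ball (0 : R6) 2) ρM (im P.La k) ∧
      ∀ v ∈ Metric.ball (0 : R6) 2, eS (im P.La k v) < -1 := by
  obtain ⟨hopen, Ri, hRi, hRiv⟩ := radial_inv (contDiff_Th H.k_pos H.k_le) H.Th_pos
    (Th_radial H.k_pos H.k_le)
  have hdeep : ∀ v ∈ Metric.ball (0 : R6) 2, Tm k v ∈ Vc P.La ∧ eS (im P.La k v) < -1 := by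
    intro v hv
    have h1 := H.norm_Tm_two (mem_ball_zero_iff.1 hv).le
    have h2 := H.hp.s1_gt
    have h3 := H.s0_pos
    exact H.deep (by linarith) _
  refine ⟨UE ∩ wco ⁻¹' ((fun v : R6 => Th k v • v) '' Metric.ball 0 2), fun z => Ri (wco z),
    ⟨contDiffOn_wco.continuousOn.isOpen_inter_preimage isOpen_UE hopen, Metric.isOpen_ball, ?_, ?_,
      ?_, ?_, ?_, ?_⟩, fun v hv => (hdeep v hv).2⟩
  · exact hRi.comp (contDiffOn_wco.mono inter_subset_left) fun z hz => hz.2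
  · have h1 : ContDiffOn ℝ ∞ (fun v : R6 => (qf (Tm k v), Tm k v)) (Metric.ball (0 : R6) 2) :=
      ((GChI_qf.comp H.contDiff_Tm).prodMk H.contDiff_Tm).contDiffOn
    exact (contDiffOn_psE H.La_pos).comp h1 fun v hv => ⟨mem_univ _, (hdeep v hv).1⟩
  · rintro z ⟨-, -, v, hv, hvz⟩
    simp only at hvz ⊢
    rw [← hvz, hRiv v hv]
    exact hv
  · intro v hv
    obtain ⟨h1, h2, h3, -⟩ := psE_mem H.La_pos (qf (Tm k v)) (hdeep v hv).1
    refine ⟨(psE_M H.La_pos _ (hdeep v hv).1).2 rfl, h2, v, hv, ?_⟩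
    exact h3.symm
  · rintro z ⟨hz, hzU, v, hv, hvz⟩
    simp only at hvz ⊢
    obtain ⟨h1, h2⟩ := psE_wco H.La_pos hz.1 hzU
    have h3 : eT z = qf (wco z) := by
      have h4 := (psE_M H.La_pos (eT z) h1).1
      rw [h2] at h4
      exact h4 hz
    rw [← hvz, hRiv v hv]
    unfold im
    have h5 : Tm k v = wco z := hvz
    rw [h5, ← h3, h2]
  · intro v hv
    obtain ⟨h1, h2, h3, -⟩ := psE_mem H.La_pos (qf (Tm k v)) (hdeep v hv).1
    change Ri (wco (psE P.La (qf (Tm k v)) (Tm k v))) = v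
    rw [h3]
    exact hRiv v hv

end Pool.Agent.H8.SYG
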