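import Pool.Agent.H8.SYG.GDat

/-!
# Row GDiF: the diffeomorphism `f`

`t = eT z`, `w = wco z`; common facts in `GDat.lean`.  `f = fM P.La G`, inverse `f' = fM P.La qf` (same definition with
`qf` instead of `G`).  Points of `P.M`, `P.Mfin` lie in `WS P.La`; for `z ∈ UE`: `z = psE P.La t w`, `w ∈ Vc`
(`psE_wco`), and `z ∈ P.M ↔ t = qf w` (`psE_M`), `z ∈ P.Mfin ↔ Ff m n t w = 0` (`psE_Mfin`).
* `C = {z ∈ P.M | z ∈ UE ∧ ‖w‖² ≤ s1}` is compact: image of the closed ball `‖w‖² ≤ s1` under the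
  continuous map `w ↦ psE P.La (qf w) w` (`Dat.deep`: in `Vc`).  For `z ∈ P.M`, `z ∉ C`: `f z = z` (if `z ∈ UE` and
  `1 < ‖w‖` then `s1 < ‖w‖²`, `G w = qf w`, `psE (qf w) w = psE t w = z`).
* `z ∈ P.M ∩ UE`, `z ∉ im '' closedBall (1/2)` => `w ∉ Tm k '' closedBall (1/2)` (if `w = Tm k v` then
  `z = psE (qf w) w = im v`), so `1 < ‖w‖` (`Dat.norm_gt_one`).
* SmoothOn: at `z ∈ C`: on the open set `UE ∩ wco ⁻¹' ({1 < ‖w‖} ∩ Vc P.La)` `f` is the smooth map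
  `z ↦ psE P.La (G (wco z)) (wco z)`.  At `z ∉ C`: on the open set `Cᶜ`, `f = id` on `P.M`.
* maps: `z ∈ UE`: `f z = psE (G w) w ∈ Mfin` by `H.G_zero`, `wco (f z) = w` not in `Tm '' closedBall`, so not in `Kc`.
  `z ∉ UE`: `f z = z ∈ Mfin` by `M_iff_Mfin`, not in `Kc ⊆ UE`.
* `f'`: same with `C' = {z ∈ P.Mfin | z ∈ UE ∧ ‖w‖² ≤ s1}`, compact: image of
  `{(t, w) | |t| ≤ 2 s1, ‖w‖² ≤ s1, Ff m n t w = 0}` (`zero_bdd`).  For `z ∈ P.Mfin ∖ C'`: `f' z = z` (if `z ∈ UE`,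
  `1 < ‖w‖`: `t = G w = qf w`).  `z ∈ P.Mfin ∩ UE ∖ Kc` => `w ∉ Tm '' closedBall`, `1 < ‖w‖`.
  `f' z ∉ im '' closedBall`: if `z ∈ UE`: `wco (f' z) = w`, `wco (im v) = Tm k v` (`‖Tm k v‖² < s0 < s1`, `Dat.deep`,
  `psE_mem`); if `z ∉ UE`: `im v ∈ UE`.
* inverses: on `UE` both maps keep `w` and the value is `psE (qf w) w` resp. `psE (G w) w`.
* last statement: if `z ∈ UE`, `1 < ‖w‖`: `‖w‖² ≤ s1` would give `eS z < -1` (`Dat.deep`); so `G w = qf w` and `f z = z`.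
-/

open Set Topology
open scoped ContDiff ComplexConjugate

namespace Pool.Agent.H8.SYG

open Pool.Agent.H34.SY

variable {P : Par} {m n : ℝ → ℝ} {s0 s1 k : ℝ} {G : R6 → ℝ}

private theorem gdf_M (H : Dat P m n s0 s1 k G) {z : EA} (hz : z ∈ WS P.La) (hu : z ∈ UE) :
    z ∈ P.M ↔ eT z = qf (wco z) := by
  obtain ⟨h1, h2⟩ := psE_wco H.La_pos hz hu
  have h3 := psE_M (P := P) H.La_pos (eT z) h1
  rw [h2] at h3
  exact h3

private theorem gdf_Mf (H : Dat P m n s0 s1 k G) {z : EA} (hz : z ∈ WS P.La) (hu : z ∈ UE) :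
    z ∈ P.Mfin m n ↔ Ff m n (eT z) (wco z) = 0 := by
  obtain ⟨h1, h2⟩ := psE_wco H.La_pos hz hu
  have h3 := psE_Mfin (P := P) H.La_pos m n (eT z) h1
  rw [h2] at h3
  exact h3

private theorem gdf_pos {h : R6 → ℝ} {z : EA} (hu : z ∈ UE) (hw : 1 < ‖wco z‖) :
    fM P.La h z = psE P.La (h (wco z)) (wco z) := by
  classical
  unfold fM
  rw [if_pos ⟨hu, hw⟩]

private theorem gdf_neg {h : R6 → ℝ} {z : EA} (hu : z ∉ UE) : fM P.La h z = z := by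
  classical
  unfold fM
  rw [if_neg (fun hc => hu hc.1)]

private theorem gdf_id (H : Dat P m n s0 s1 k G) {h : R6 → ℝ} {z : EA} (hz : z ∈ WS P.La)
    (hh : z ∈ UE → 1 < ‖wco z‖ → h (wco z) = eT z) : fM P.La h z = z := by
  classical
  unfold fM
  split_ifs with hc
  · rw [hh hc.1 hc.2]
    exact (psE_wco H.La_pos hz hc.1).2
  · rfl

private theorem gdf_open : IsOpen {w : R6 | 1 < ‖w‖} := isOpen_lt continuous_const continuous_norm

private theorem gdf_smooth (H : Dat P m n s0 s1 k G) (X C : Set EA) (h : R6 → ℝ)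
    (hh : ContDiffOn ℝ ∞ h {w | 1 < ‖w‖}) (hX : X ⊆ WS P.La)
    (hX1 : ∀ z ∈ X, z ∈ UE → 1 < ‖wco z‖) (hC : IsClosed C) (hCU : C ⊆ UE)
    (hXC : ∀ z ∈ X, z ∉ C → z ∈ UE → h (wco z) = eT z) : SmoothOn X (fM P.La h) := by
  intro z hz
  by_cases hzC : z ∈ C
  · have hwc : ContinuousOn wco UE := contDiffOn_wco.continuousOn
    have hop : IsOpen (UE ∩ wco ⁻¹' ({w | 1 < ‖w‖} ∩ Vc P.La)) :=
      hwc.isOpen_inter_preimage isOpen_UE (gdf_open.inter (isOpen_Vc P.La))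
    refine ⟨UE ∩ wco ⁻¹' ({w | 1 < ‖w‖} ∩ Vc P.La), hop, ?_, fun z => psE P.La (h (wco z)) (wco z), ?_, ?_⟩
    · exact ⟨hCU hzC, hX1 z hz (hCU hzC), (psE_wco H.La_pos (hX hz) (hCU hzC)).1⟩
    · have h1 : ContDiffOn ℝ ∞ wco (UE ∩ wco ⁻¹' ({w | 1 < ‖w‖} ∩ Vc P.La)) :=
        contDiffOn_wco.mono inter_subset_left
      have h2 : ContDiffOn ℝ ∞ (fun z => h (wco z)) (UE ∩ wco ⁻¹' ({w | 1 < ‖w‖} ∩ Vc P.La)) :=
        hh.comp h1 (fun y hy => hy.2.1)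
      exact (contDiffOn_psE H.La_pos).comp (h2.prodMk h1) (fun y hy => ⟨trivial, hy.2.2⟩)
    · rintro y ⟨hy, hyU, hy1, hy2⟩
      exact (gdf_pos hyU hy1).symm
  · refine ⟨Cᶜ, hC.isOpen_compl, hzC, id, contDiff_id.contDiffOn, ?_⟩
    rintro y ⟨hy, hyC⟩
    exact (gdf_id H (hX hy) (fun hu _ => hXC y hy hyC hu)).symm

private theorem gdf_C1 (H : Dat P m n s0 s1 k G) :
    IsClosed {z | z ∈ P.M ∧ z ∈ UE ∧ ‖wco z‖ ^ 2 ≤ s1} := by
  have hK : IsCompact {w : R6 | ‖w‖ ^ 2 ≤ s1} := by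
    have h1 : IsClosed {w : R6 | ‖w‖ ^ 2 ≤ s1} := isClosed_le (continuous_norm.pow 2) continuous_const
    refine (isCompact_closedBall (0 : R6) (√s1)).of_isClosed_subset h1 ?_
    intro w hw
    rw [mem_closedBall_zero_iff]
    exact Real.le_sqrt_of_sq_le hw
  have hcont : ContinuousOn (fun w : R6 => psE P.La (qf w) w) {w : R6 | ‖w‖ ^ 2 ≤ s1} := by
    have h1 := (contDiffOn_psE H.La_pos).continuousOn
    exact h1.comp (contDiff_qf.continuous.prodMk continuous_id).continuousOn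
      (fun w hw => ⟨trivial, (H.deep hw 0).1⟩)
  have himg : {z | z ∈ P.M ∧ z ∈ UE ∧ ‖wco z‖ ^ 2 ≤ s1} =
      (fun w : R6 => psE P.La (qf w) w) '' {w : R6 | ‖w‖ ^ 2 ≤ s1} := by
    ext z
    constructor
    · rintro ⟨h1, h2, h3⟩
      refine ⟨wco z, h3, ?_⟩
      have h4 := (gdf_M H h1.1 h2).1 h1
      simp only
      rw [← h4]
      exact (psE_wco H.La_pos h1.1 h2).2
    · rintro ⟨w, hw, rfl⟩
      have hV := (H.deep hw 0).1
      obtain ⟨h1, h2, h3, h4⟩ := psE_mem H.La_pos (qf w) hV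
      refine ⟨(psE_M H.La_pos (qf w) hV).2 rfl, h2, ?_⟩
      simp only
      rw [h3]
      exact hw
  rw [himg]
  exact (hK.image_of_continuousOn hcont).isClosed

private theorem gdf_C2 (H : Dat P m n s0 s1 k G) :
    IsClosed {z | z ∈ P.Mfin m n ∧ z ∈ UE ∧ ‖wco z‖ ^ 2 ≤ s1} := by
  have hs1 := H.s1_pos
  have hK : IsCompact {p : ℝ × R6 | ‖p.2‖ ^ 2 ≤ s1 ∧ Ff m n p.1 p.2 = 0} := by
    have h1 : IsClosed {p : ℝ × R6 | ‖p.2‖ ^ 2 ≤ s1} :=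
      isClosed_le ((continuous_norm.comp continuous_snd).pow 2) continuous_const
    have h2 : IsClosed {p : ℝ × R6 | Ff m n p.1 p.2 = 0} :=
      isClosed_eq (contDiff_Ff H.hp).continuous continuous_const
    refine (isCompact_Icc.prod (isCompact_closedBall (0 : R6) (√s1))).of_isClosed_subset
      (s := Icc (-(2 * s1)) (2 * s1) ×ˢ Metric.closedBall (0 : R6) (√s1)) (h1.inter h2) ?_
    rintro ⟨t, w⟩ ⟨hw, hF⟩
    have hw' : ‖w‖ ^ 2 ≤ s1 := hw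
    have hb := zero_bdd H.hp (t := t) (w := w) hF
    have hb2 := abs_le.1 hb
    refine ⟨⟨?_, ?_⟩, ?_⟩
    · change -(2 * s1) ≤ t
      linarith
    · change t ≤ 2 * s1
      linarith
    · rw [mem_closedBall_zero_iff]
      exact Real.le_sqrt_of_sq_le hw'
  have hcont : ContinuousOn (fun p : ℝ × R6 => psE P.La p.1 p.2)
      {p : ℝ × R6 | ‖p.2‖ ^ 2 ≤ s1 ∧ Ff m n p.1 p.2 = 0} :=
    (contDiffOn_psE H.La_pos).continuousOn.mono (fun p hp => ⟨trivial, (H.deep hp.1 0).1⟩)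
  have himg : {z | z ∈ P.Mfin m n ∧ z ∈ UE ∧ ‖wco z‖ ^ 2 ≤ s1} =
      (fun p : ℝ × R6 => psE P.La p.1 p.2) '' {p : ℝ × R6 | ‖p.2‖ ^ 2 ≤ s1 ∧ Ff m n p.1 p.2 = 0} := by
    ext z
    constructor
    · rintro ⟨h1, h2, h3⟩
      exact ⟨(eT z, wco z), ⟨h3, (gdf_Mf H h1.1 h2).1 h1⟩, (psE_wco H.La_pos h1.1 h2).2⟩
    · rintro ⟨⟨t, w⟩, ⟨hw, hF⟩, rfl⟩
      have hV := (H.deep hw 0).1
      obtain ⟨h1, h2, h3, h4⟩ := psE_mem H.La_pos t hV
      refine ⟨(psE_Mfin H.La_pos m n t hV).2 hF, h2, ?_⟩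
      simp only
      rw [h3]
      exact hw
  rw [himg]
  exact (hK.image_of_continuousOn hcont).isClosed

private theorem gdf_notTm (H : Dat P m n s0 s1 k G) {z : EA}
    (hz : z ∈ P.M \ im P.La k '' Metric.closedBall (0 : R6) (1 / 2)) (hu : z ∈ UE) :
    wco z ∉ Tm k '' Metric.closedBall (0 : R6) (1 / 2) := by
  rintro ⟨v, hv, hvw⟩
  apply hz.2
  refine ⟨v, hv, ?_⟩
  unfold im
  rw [hvw, ← (gdf_M H hz.1.1 hu).1 hz.1]
  exact (psE_wco H.La_pos hz.1.1 hu).2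

private theorem gdf_notTm2 {z : EA} (hz : z ∈ P.Mfin m n ∩ (Kc P m n k)ᶜ) (hu : z ∈ UE) :
    wco z ∉ Tm k '' Metric.closedBall (0 : R6) (1 / 2) :=
  fun hc => hz.2 ⟨hz.1, hu, hc⟩

private theorem gdf_im (H : Dat P m n s0 s1 k G) {v : R6}
    (hv : v ∈ Metric.closedBall (0 : R6) (1 / 2)) :
    im P.La k v ∈ UE ∧ wco (im P.La k v) = Tm k v := by
  rw [mem_closedBall_zero_iff] at hv
  have h1 := H.norm_Tm_half hv
  have h2 := H.s0_pos
  have h3 := H.hp.s1_gt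
  have hV := (H.deep (w := Tm k v) (by linarith) 0).1
  obtain ⟨_, h5, h6, _⟩ := psE_mem H.La_pos (qf (Tm k v)) hV
  exact ⟨h5, h6⟩

theorem diffeo_f (H : Dat P m n s0 s1 k G) :
    IsDiffeo (P.M \ im P.La k '' Metric.closedBall (0 : R6) (1 / 2))
      (P.Mfin m n ∩ (Kc P m n k)ᶜ) (fM P.La G) := by
  have hs1 := H.s1_pos
  refine ⟨?_, ?_, fM P.La qf, ?_, ?_, ?_, ?_⟩
  · refine gdf_smooth H _ {z | z ∈ P.M ∧ z ∈ UE ∧ ‖wco z‖ ^ 2 ≤ s1} G H.G_smooth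
      (fun z hz => hz.1.1) (fun z hz hu => H.norm_gt_one (gdf_notTm H hz hu)) (gdf_C1 H)
      (fun z hz => hz.2.1) ?_
    intro z hz hzC hu
    have h1 : s1 < ‖wco z‖ ^ 2 := by
      by_contra hc
      exact hzC ⟨hz.1, hu, not_lt.1 hc⟩
    rw [H.G_far _ h1.le]
    exact ((gdf_M H hz.1.1 hu).1 hz.1).symm
  · intro z hz
    by_cases hu : z ∈ UE
    · have h1 := gdf_notTm H hz hu
      have h2 := H.norm_gt_one h1
      have hV := (psE_wco H.La_pos hz.1.1 hu).1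
      obtain ⟨_, h5, h6, _⟩ := psE_mem H.La_pos (G (wco z)) hV
      rw [gdf_pos hu h2]
      refine ⟨(psE_Mfin H.La_pos m n _ hV).2 ((H.G_zero _ h2 _).2 rfl), ?_⟩
      intro hc
      have h7 := hc.2.2
      rw [h6] at h7
      exact h1 h7
    · rw [gdf_neg hu]
      exact ⟨(M_iff_Mfin P m n hu).1 hz.1, fun hc => hu hc.2.1⟩
  · refine gdf_smooth H _ {z | z ∈ P.Mfin m n ∧ z ∈ UE ∧ ‖wco z‖ ^ 2 ≤ s1} qf contDiff_qf.contDiffOn
      (fun z hz => hz.1.1) (fun z hz hu => H.norm_gt_one (gdf_notTm2 hz hu)) (gdf_C2 H)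
      (fun z hz => hz.2.1) ?_
    intro z hz hzC hu
    have h1 : s1 < ‖wco z‖ ^ 2 := by
      by_contra hc
      exact hzC ⟨hz.1, hu, not_lt.1 hc⟩
    have h2 := (gdf_Mf H hz.1.1 hu).1 hz.1
    rw [← H.G_far _ h1.le]
    exact ((H.G_zero _ (H.norm_gt_one (gdf_notTm2 hz hu)) _).1 h2).symm
  · intro z hz
    by_cases hu : z ∈ UE
    · have h1 := gdf_notTm2 hz hu
      have h2 := H.norm_gt_one h1
      have hV := (psE_wco H.La_pos hz.1.1 hu).1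
      obtain ⟨_, h5, h6, _⟩ := psE_mem H.La_pos (qf (wco z)) hV
      rw [gdf_pos hu h2]
      refine ⟨(psE_M H.La_pos _ hV).2 rfl, ?_⟩
      rintro ⟨v, hv, hvz⟩
      have h7 := (gdf_im H hv).2
      rw [hvz, h6] at h7
      exact h1 ⟨v, hv, h7.symm⟩
    · rw [gdf_neg hu]
      refine ⟨(M_iff_Mfin P m n hu).2 hz.1, ?_⟩
      rintro ⟨v, hv, hvz⟩
      apply hu
      rw [← hvz]
      exact (gdf_im H hv).1
  · intro z hz
    by_cases hu : z ∈ UE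
    · have h1 := gdf_notTm H hz hu
      have h2 := H.norm_gt_one h1
      have hV := (psE_wco H.La_pos hz.1.1 hu).1
      obtain ⟨_, h5, h6, _⟩ := psE_mem H.La_pos (G (wco z)) hV
      rw [gdf_pos hu h2, gdf_pos h5 (by rw [h6]; exact h2), h6, ← (gdf_M H hz.1.1 hu).1 hz.1]
      exact (psE_wco H.La_pos hz.1.1 hu).2
    · rw [gdf_neg hu, gdf_neg hu]
  · intro z hz
    by_cases hu : z ∈ UE
    · have h1 := gdf_notTm2 hz hu
      have h2 := H.norm_gt_one h1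
      have hV := (psE_wco H.La_pos hz.1.1 hu).1
      obtain ⟨_, h5, h6, _⟩ := psE_mem H.La_pos (qf (wco z)) hV
      rw [gdf_pos hu h2, gdf_pos h5 (by rw [h6]; exact h2), h6,
        ← (H.G_zero _ h2 _).1 ((gdf_Mf H hz.1.1 hu).1 hz.1)]
      exact (psE_wco H.La_pos hz.1.1 hu).2
    · rw [gdf_neg hu, gdf_neg hu]

theorem fM_eq (H : Dat P m n s0 s1 k G) : ∀ z ∈ P.M, -1 ≤ eS z → fM P.La G z = z := by
  intro z hz hS
  refine gdf_id H hz.1 (fun hu hw => ?_)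
  have h1 : s1 < ‖wco z‖ ^ 2 := by
    by_contra hc
    have h2 := (H.deep (not_lt.1 hc) (eT z)).2
    rw [(psE_wco H.La_pos hz.1 hu).2] at h2
    linarith
  rw [H.G_far _ h1.le]
  exact ((gdf_M H hz.1 hu).1 hz).symm

end Pool.Agent.H8.SYG
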