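import Pool.Agent.H8.SYG.GKc
import Pool.Agent.H8.SYG.GDiF
import Pool.Agent.H8.SYG.GChI
import Pool.Agent.H8.SYG.GAnn

/-!
# Block G: the final manifold is the connected sum
-/

open Set Topology
open scoped ContDiff ComplexConjugate

namespace Pool.Agent.H8.SYG

open Pool.Agent.H34.SY

theorem gSpec : GSpec := by
  intro hd T m n s0 s1 hp
  refine ⟨10 * (1 + s1), fun La hLa rb P hP => ?_⟩
  obtain ⟨G, hG1, hG2, hG3⟩ := exists_G hp
  have H : Dat P m n s0 s1 (5 / √s0) G := by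
    refine ⟨hp, rfl, ?_, hG1, hG2, hG3⟩
    rw [hP]
    exact hLa
  obtain ⟨UM, ρM, hi, hdeep⟩ := chart_i H
  refine ⟨UM, ρM, im P.La (5 / √s0), _, _, jm (5 / √s0), fM P.La G, gm P.La,
    (Kc P m n (5 / √s0))ᶜ, Bs s0 (5 / √s0), hi, chart_j H.k_pos H.k_le,
    (isCompact_Kc H).isClosed.isOpen_compl, isOpen_Bs H, Mfin_subset H, diffeo_f H, diffeo_g H,
    annulus H, fM_im H, hdeep, fM_eq H⟩

end Pool.Agent.H8.SYG
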