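import Pool.Agent.H8.SYG.Defs

/-!
# Row GProf: the profiles exist

st = `Real.smoothTransition` (0 for `x ≤ 0`, 1 for `1 ≤ x`, monotone, smooth, values in [0,1]).
Choose `C ≥ 0` with `|deriv st x| ≤ C` for all `x` (the derivative is continuous, and 0 outside `[0,1]`:
bound on the compact `Icc 0 1`).  Let `s0 = max a (max (10 ^ 6) ((12 * C + 2) ^ 2))`,
`c = (3 * s0) ^ 2` (any `c` with `c * s ^ (-1/4) ≥ s - 1` for `2 s0 ≤ s ≤ 3 s0` will do: `s^(-1/4) ≥ 1/s`),
`psi1 s = st ((s - 2 * s0) / s0)`, `K = c ^ 4 ` (so `3 s0 ≤ K` and `c * s ^ (-1/4) ≤ 1` for `s ≥ K`),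
`psi2 s = st (s - K)`, `s1 = K + 1`,
`m s = (1 - psi2 s) * ((1 - psi1 s) * (s - 1) + psi1 s * (c * s ^ (-(1/4) : ℝ))) + psi2 s`,
`n s = 1 - st ((s - s0) / s0)`.
Smoothness of `m`: on `s < 2 s0` it is `s - 1`; on `0 < s` all factors are smooth (rpow of a positive
number).  m_core, m_far, n_core, n_far are immediate.

mono, for `s0 ≤ s`, `0 ≤ r ≤ s`:
* `s < 2 s0`: near `s`, `m = (· - 1)`, so `deriv m s = 1`; `|deriv n s| ≤ C / s0`;
  `4 (C/s0) s √s ≤ 4 (C/s0) (2 s0) √(2 s0) ≤ 12 C √s0 < s0 - 1 ≤ s - 1 + 2 r`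
  (`s0 - 1 ≥ (12 C + 2) √s0 - 1 > 12 C √s0`).
* `2 s0 ≤ s`: `n ≥ 0` everywhere and `n s = 0`, so `s` is a local minimum of `n` and `deriv n s = 0`
  (`IsLocalMin.deriv_eq_zero`).  We must show `0 < m s + 2 r * deriv m s` for `0 ≤ r ≤ s`.
  Write `A = s - 1`, `B = c s^(-1/4)`, `p = psi1 s`, `q = psi2 s`, with `p' , q' ≥ 0` (derivatives of
  monotone functions), `A' = 1`, `B' = - c/4 s^(-5/4) = - B/(4 s)`.
  `m' = (1-q)((1-p) A' + p B' + p' (B - A)) + q' (1 - ((1-p) A + p B))`.
  `p' ≠ 0` only for `2 s0 ≤ s ≤ 3 s0` where `B ≥ A`, so `p' (B - A) ≥ 0` (if `s > 3 s0`, `psi1 = 1` near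
  `s`, `p' = 0`; at `s = 3 s0` still `B ≥ A`).  `q' ≠ 0` only for `s ≥ K ≥ 3 s0` where `p = 1`, `B ≤ 1`, so
  `q' (1 - ((1-p)A + p B)) ≥ 0`.  Hence `m' ≥ - (1-q) p B/(4 s)` and
  `m + 2 r m' ≥ (1-q)((1-p) A + p B) + q - 2 s (1-q) p B/(4 s) ≥ (1-q)((1-p) A + p B/2) + q > 0`.
You may choose other functions if you find an easier proof; only the statement matters.
-/

open Set Topology
open scoped ContDiff ComplexConjugate

namespace Pool.Agent.H8.SYG

open Pool.Agent.H34.SY

/-- step from `u` to `u + v`. -/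
noncomputable def gst (u v s : ℝ) : ℝ := Real.smoothTransition ((s - u) / v)

theorem gst_smooth (u v : ℝ) : ContDiff ℝ ∞ (gst u v) :=
  (Real.smoothTransition.contDiff (n := ⊤)).comp ((contDiff_id.sub contDiff_const).div_const v)

theorem gst_zero {u v s : ℝ} (hv : 0 < v) (h : s ≤ u) : gst u v s = 0 :=
  Real.smoothTransition.zero_of_nonpos (div_nonpos_of_nonpos_of_nonneg (by linarith) hv.le)

theorem gst_one {u v s : ℝ} (hv : 0 < v) (h : u + v ≤ s) : gst u v s = 1 :=
  Real.smoothTransition.one_of_one_le ((one_le_div hv).2 (by linarith))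

theorem gst_nonneg (u v s : ℝ) : 0 ≤ gst u v s := Real.smoothTransition.nonneg _

theorem gst_le_one (u v s : ℝ) : gst u v s ≤ 1 := Real.smoothTransition.le_one _

theorem gst_mono {u v : ℝ} (hv : 0 < v) : Monotone (gst u v) := by
  intro x y h
  exact Real.smoothTransition.monotone (div_le_div_of_nonneg_right (by linarith) hv.le)

theorem gst_hasDerivAt (u v s : ℝ) : HasDerivAt (gst u v) (deriv (gst u v) s) s :=
  ((gst_smooth u v).differentiable (by simp)).differentiableAt.hasDerivAt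

theorem gst_deriv_nonneg {u v : ℝ} (hv : 0 < v) (s : ℝ) : 0 ≤ deriv (gst u v) s :=
  (gst_hasDerivAt u v s).nonneg_of_monotone (gst_mono hv)

theorem gst_deriv_left {u v s : ℝ} (hv : 0 < v) (h : s ≤ u) : deriv (gst u v) s = 0 := by
  apply IsLocalMin.deriv_eq_zero
  refine Filter.Eventually.of_forall fun y => ?_
  rw [gst_zero hv h]
  exact gst_nonneg u v y

theorem gst_deriv_right {u v s : ℝ} (hv : 0 < v) (h : u + v ≤ s) : deriv (gst u v) s = 0 := by
  apply IsLocalMax.deriv_eq_zero
  refine Filter.Eventually.of_forall fun y => ?_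
  rw [gst_one hv h]
  exact gst_le_one u v y

theorem gst_deriv_eq (u v s : ℝ) :
    deriv (gst u v) s = deriv Real.smoothTransition ((s - u) / v) / v := by
  have h1 : HasDerivAt (fun s : ℝ => (s - u) / v) (1 / v) s :=
    ((hasDerivAt_id s).sub_const u).div_const v
  have h2 : HasDerivAt Real.smoothTransition (deriv Real.smoothTransition ((s - u) / v))
      ((s - u) / v) :=
    (((Real.smoothTransition.contDiff (n := ⊤)).differentiable (by simp))
      ((s - u) / v)).hasDerivAt
  have h3 := h2.comp s h1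
  have h4 : HasDerivAt (gst u v) (deriv Real.smoothTransition ((s - u) / v) * (1 / v)) s := h3
  rw [h4.deriv]
  ring

/-- the middle profile. -/
noncomputable def gB (c s : ℝ) : ℝ := c / √s + 1 / 2

theorem gB_hasDerivAt (c s : ℝ) (hs : 0 < s) : HasDerivAt (gB c) (-(c / √s) / (2 * s)) s := by
  have h1 : HasDerivAt (fun s : ℝ => √s) (1 / (2 * √s)) s := Real.hasDerivAt_sqrt hs.ne'
  have h2 : √s ≠ 0 := (Real.sqrt_pos.2 hs).ne'
  have h3 := ((hasDerivAt_const s c).div h1 h2).add_const (1 / 2)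
  have h4 : HasDerivAt (gB c) ((0 * √s - c * (1 / (2 * √s))) / (√s) ^ 2) s := h3
  have h5 : (√s) ^ 2 = s := Real.sq_sqrt hs.le
  have h6 : (0 * √s - c * (1 / (2 * √s))) / (√s) ^ 2 = -(c / √s) / (2 * s) := by
    rw [h5]
    field_simp
    ring
  rw [h6] at h4
  exact h4

/-- the profile `m`. -/
noncomputable def gpm (s0 c K s : ℝ) : ℝ :=
  (1 - gst K 1 s) * ((1 - gst (2 * s0) s0 s) * (s - 1) + gst (2 * s0) s0 s * gB c s) + gst K 1 s

theorem gpm_hasDerivAt (s0 c K s : ℝ) (hs : 0 < s) : HasDerivAt (gpm s0 c K)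
    ((1 - gst K 1 s) * ((1 - gst (2 * s0) s0 s) + gst (2 * s0) s0 s * (-(c / √s) / (2 * s)) +
      deriv (gst (2 * s0) s0) s * (gB c s - (s - 1))) +
      deriv (gst K 1) s * (1 - ((1 - gst (2 * s0) s0 s) * (s - 1) + gst (2 * s0) s0 s * gB c s))) s := by
  have hp := gst_hasDerivAt (2 * s0) s0 s
  have hq := gst_hasDerivAt K 1 s
  have hB := gB_hasDerivAt c s hs
  have hA : HasDerivAt (fun s : ℝ => s - 1) 1 s := (hasDerivAt_id s).sub_const 1
  have h1 := ((hp.const_sub 1).mul hA).add (hp.mul hB)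
  have h2 := ((hq.const_sub 1).mul h1).add hq
  refine HasDerivAt.congr_deriv h2 ?_
  simp only [Pi.add_apply, Pi.mul_apply]
  ring

theorem gpm_core {s0 c K s : ℝ} (h0 : 0 < s0) (hK : 2 * s0 ≤ K) (h : s ≤ 2 * s0) :
    gpm s0 c K s = s - 1 := by
  unfold gpm
  rw [gst_zero one_pos (h.trans hK), gst_zero h0 h]
  ring

theorem profSpec : ProfSpec := by
  intro a
  obtain ⟨C0, hC0⟩ := (isCompact_Icc (a := (0 : ℝ)) (b := 1)).exists_bound_of_continuousOn
    (f := deriv Real.smoothTransition)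
    (((Real.smoothTransition.contDiff (n := ⊤)).continuous_deriv (by simp)).continuousOn)
  set C : ℝ := max C0 0 with hC
  have hC00 : 0 ≤ C := le_max_right _ _
  have hCb : ∀ x ∈ Icc (0 : ℝ) 1, |deriv Real.smoothTransition x| ≤ C := fun x hx =>
    (hC0 x hx).trans (le_max_left _ _)
  set s0 : ℝ := max a (max (10 ^ 6) ((12 * C + 2) ^ 2)) with hs0
  have ha : a ≤ s0 := le_max_left _ _
  have h6 : (10 : ℝ) ^ 6 ≤ s0 := (le_max_left _ _).trans (le_max_right _ _)
  have h7 : (12 * C + 2) ^ 2 ≤ s0 := (le_max_right _ _).trans (le_max_right _ _)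
  have h0 : 0 < s0 := lt_of_lt_of_le (by norm_num) h6
  have h02 : 2 ≤ s0 := le_trans (by norm_num) h6
  set c : ℝ := (3 * s0) ^ 2 with hc
  have hc0 : 0 < c := by positivity
  set K : ℝ := 4 * c ^ 2 with hK
  have hc1 : 3 * s0 ≤ c := by rw [hc]; nlinarith
  have hK3 : 3 * s0 ≤ K := by rw [hK]; nlinarith
  have hK2 : 2 * s0 ≤ K := by linarith
  refine ⟨gpm s0 c K, fun s => 1 - gst s0 s0 s, s0, K + 1, ha, h6, by linarith, ?_, ?_, ?_, ?_, ?_,
    ?_, ?_⟩
  · -- smoothness
    rw [contDiff_iff_contDiffAt]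
    intro s
    rcases lt_or_ge s (2 * s0) with h | h
    · have h1 : gpm s0 c K =ᶠ[𝓝 s] fun s => s - 1 := by
        filter_upwards [Iio_mem_nhds h] with y hy
        exact gpm_core h0 hK2 (le_of_lt hy)
      exact (contDiffAt_id.sub contDiffAt_const).congr_of_eventuallyEq h1
    · have hs : s ≠ 0 := by linarith
      have hB : ContDiffAt ℝ ∞ (gB c) s :=
        (contDiffAt_const.div (Real.contDiffAt_sqrt hs)
          (Real.sqrt_ne_zero'.2 (by linarith))).add contDiffAt_const
      have hp := (gst_smooth (2 * s0) s0).contDiffAt (x := s)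
      have hq := (gst_smooth K 1).contDiffAt (x := s)
      exact ((contDiffAt_const.sub hq).mul (((contDiffAt_const.sub hp).mul
        (contDiffAt_id.sub contDiffAt_const)).add (hp.mul hB))).add hq
  · exact contDiff_const.sub (gst_smooth s0 s0)
  · intro s hs
    exact gpm_core h0 hK2 hs
  · intro s hs
    unfold gpm
    rw [gst_one one_pos hs]
    ring
  · intro s hs
    show 1 - gst s0 s0 s = 1
    rw [gst_zero h0 hs, sub_zero]
  · intro s hs
    show 1 - gst s0 s0 s = 0
    rw [gst_one h0 (by linarith), sub_self]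
  · intro s hs r hr hrs
    have hsp : 0 < s := by linarith
    have hdn : deriv (fun s => 1 - gst s0 s0 s) s = -deriv (gst s0 s0) s :=
      ((gst_hasDerivAt s0 s0 s).const_sub 1).deriv
    rcases lt_or_ge s (2 * s0) with h | h
    · -- core
      have h1 : gpm s0 c K =ᶠ[𝓝 s] fun s => s - 1 := by
        filter_upwards [Iio_mem_nhds h] with y hy
        exact gpm_core h0 hK2 (le_of_lt hy)
      have h2 : deriv (gpm s0 c K) s = 1 := by
        rw [h1.deriv_eq]
        exact ((hasDerivAt_id s).sub_const 1).deriv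
      rw [h2, gpm_core h0 hK2 h.le, hdn, abs_neg, gst_deriv_eq, abs_div, abs_of_pos h0]
      have h3 : |deriv Real.smoothTransition ((s - s0) / s0)| ≤ C := by
        refine hCb _ ⟨div_nonneg (by linarith) h0.le, ?_⟩
        rw [div_le_one h0]
        linarith
      set R : ℝ := √s0 with hR
      have hR0 : 0 < R := Real.sqrt_pos.2 h0
      have hR2 : R ^ 2 = s0 := Real.sq_sqrt h0.le
      have hR1 : 12 * C + 2 ≤ R := by
        rw [hR]
        apply Real.le_sqrt_of_sq_le
        exact h7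
      have h4 : √s ≤ 3 / 2 * R := by
        rw [Real.sqrt_le_left (by positivity)]
        rw [mul_pow, hR2]
        linarith
      have h5 : s * √s ≤ 2 * s0 * (3 / 2 * R) :=
        mul_le_mul h.le h4 (Real.sqrt_nonneg _) (by positivity)
      have h8 : 4 * (|deriv Real.smoothTransition ((s - s0) / s0)| / s0) * (s * √s) ≤
          4 * (C / s0) * (2 * s0 * (3 / 2 * R)) := by
        refine mul_le_mul (mul_le_mul_of_nonneg_left (div_le_div_of_nonneg_right h3 h0.le)
          (by norm_num)) h5 (by positivity) (by positivity)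
      have h9 : 4 * (C / s0) * (2 * s0 * (3 / 2 * R)) = 12 * C * R := by
        field_simp
        ring
      rw [h9] at h8
      have h10 : (12 * C + 2) * R ≤ R ^ 2 := by nlinarith
      rw [hR2] at h10
      have h11 : 1 < 2 * R := by nlinarith
      have h12 : 0 ≤ 2 * r * 1 := by linarith
      nlinarith
    · -- outside
      have h1 : deriv (gst s0 s0) s = 0 := gst_deriv_right h0 (by linarith)
      rw [hdn, h1, neg_zero, abs_zero, mul_zero, zero_mul]
      rw [(gpm_hasDerivAt s0 c K s hsp).deriv]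
      unfold gpm
      set p := gst (2 * s0) s0 s with hp
      set q := gst K 1 s with hq
      have hp0 : 0 ≤ p := gst_nonneg _ _ _
      have hp1 : p ≤ 1 := gst_le_one _ _ _
      have hq0 : 0 ≤ q := gst_nonneg _ _ _
      have hq1 : q ≤ 1 := gst_le_one _ _ _
      have hsq : 0 < √s := Real.sqrt_pos.2 hsp
      have hsq1 : √s ≤ s := by
        rw [Real.sqrt_le_left hsp.le]
        nlinarith
      have hD : 0 < c / √s := div_pos hc0 hsq
      -- the two products
      have e1 : 0 ≤ deriv (gst (2 * s0) s0) s * (gB c s - (s - 1)) := by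
        rcases le_or_gt s (3 * s0) with h3 | h3
        · refine mul_nonneg (gst_deriv_nonneg h0 s) ?_
          have h4 : 3 * s0 ≤ c / √s := by
            rw [le_div_iff₀ hsq, hc]
            nlinarith
          unfold gB
          linarith
        · rw [gst_deriv_right h0 (by linarith), zero_mul]
      have e2 : 0 ≤ deriv (gst K 1) s * (1 - ((1 - p) * (s - 1) + p * gB c s)) := by
        rcases le_or_gt s K with h3 | h3
        · rw [gst_deriv_left one_pos h3, zero_mul]
        · refine mul_nonneg (gst_deriv_nonneg one_pos s) ?_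
          have h4 : p = 1 := gst_one h0 (by linarith)
          rw [h4]
          have h5 : c / √s ≤ 1 / 2 := by
            rw [div_le_iff₀ hsq]
            have : 2 * c ≤ √s := by
              apply Real.le_sqrt_of_sq_le
              rw [hK] at h3
              nlinarith
            linarith
          unfold gB
          linarith
      set P := deriv (gst (2 * s0) s0) s with hP
      set Q := deriv (gst K 1) s with hQ
      set D := c / √s with hDdef
      have hBD : gB c s = D + 1 / 2 := rfl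
      rw [hBD] at e1 e2 ⊢
      -- `B + 2 r B' ≥ 1/2`
      have e3 : 1 / 2 ≤ D + 1 / 2 + 2 * r * (-D / (2 * s)) := by
        have : 2 * r * (-D / (2 * s)) = -(D * (r / s)) := by
          field_simp
        rw [this]
        have h3 : r / s ≤ 1 := (div_le_one hsp).2 hrs
        nlinarith
      have e4 : (1 : ℝ) / 2 ≤ (s - 1) + 2 * r := by linarith
      set F := -D / (2 * s) with hF
      have e5 : (1 : ℝ) / 2 ≤ (1 - p) * ((s - 1) + 2 * r) + p * (D + 1 / 2 + 2 * r * F) := by
        nlinarith [mul_le_mul_of_nonneg_left e4 (sub_nonneg.2 hp1), mul_le_mul_of_nonneg_left e3 hp0]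
      have e6 : 0 ≤ (1 - q) * (2 * r * (P * (D + 1 / 2 - (s - 1)))) :=
        mul_nonneg (sub_nonneg.2 hq1) (mul_nonneg (by linarith) e1)
      have e7 : 0 ≤ 2 * r * (Q * (1 - ((1 - p) * (s - 1) + p * (D + 1 / 2)))) :=
        mul_nonneg (by linarith) e2
      have e8 : (1 - q) * (1 / 2) ≤
          (1 - q) * ((1 - p) * ((s - 1) + 2 * r) + p * (D + 1 / 2 + 2 * r * F)) :=
        mul_le_mul_of_nonneg_left e5 (sub_nonneg.2 hq1)
      have e9 : (1 - q) * ((1 - p) * (s - 1) + p * (D + 1 / 2)) + q +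
          2 * r * ((1 - q) * (1 - p + p * F + P * (D + 1 / 2 - (s - 1))) +
            Q * (1 - ((1 - p) * (s - 1) + p * (D + 1 / 2)))) =
          (1 - q) * ((1 - p) * ((s - 1) + 2 * r) + p * (D + 1 / 2 + 2 * r * F)) +
          (1 - q) * (2 * r * (P * (D + 1 / 2 - (s - 1)))) +
          2 * r * (Q * (1 - ((1 - p) * (s - 1) + p * (D + 1 / 2)))) + q := by ring
      rw [e9]
      linarith

end Pool.Agent.H8.SYG
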