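import Pool.Agent.H34.SY.Spec

/-!
# Block G of MP_46177c : definitions (PI helper8)

The final manifold is the connected sum of `M` and `S³ × S³`.  Everything happens in one chart of
`WS La`, with coordinates `t` (real) and `w` in `R6`: `u = w₀ + i w₁`, `b = P + N`, `y = conj (P - N)`
where `P = w₂ + i w₃`, `N = w₄ + i w₅`.
-/

open Set Topology
open scoped ContDiff ComplexConjugate

namespace Pool.Agent.H8.SYG

open Pool.Agent.H34.SY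

noncomputable section

abbrev R4 : Type := EuclideanSpace ℝ (Fin 4)

/-- `|P|² - |N|²`. -/
def qf (w : R6) : ℝ := w 2 ^ 2 + w 3 ^ 2 - w 4 ^ 2 - w 5 ^ 2

/-- The defining function of the final manifold in the chart. -/
def Ff (m n : ℝ → ℝ) (t : ℝ) (w : R6) : ℝ :=
  t * m (t ^ 2 + ‖w‖ ^ 2) + 2 * n (t ^ 2 + ‖w‖ ^ 2) * w 0 * w 1 - qf w

/-- The same in the core. -/
def f1 (t : ℝ) (w : R6) : ℝ := t * (t ^ 2 + ‖w‖ ^ 2 - 1) + 2 * w 0 * w 1 - qf w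

/-! ### Stereographic projection of `S³ × S³` -/

/-- The coordinate `X₀`. -/
def sX0 (p : R4 × R4) : ℝ := (p.1 0 + p.2 0) / 2

/-- The coordinates `X₂, X₃, P, N`. -/
def Xw (p : R4 × R4) : R6 :=
  !₂[(p.1 1 + p.2 1) / 2, (p.1 1 - p.2 1) / 2, p.2 2 / √2, p.2 3 / √2, p.1 2 / √2, p.1 3 / √2]

/-- Stereographic projection. -/
def sig (p : R4 × R4) : ℝ × R6 :=
  ((p.1 0 - p.2 0) / 2 / (1 - sX0 p), (1 - sX0 p)⁻¹ • Xw p)

/-- Inverse stereographic projection. -/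
def sinv (x : ℝ × R6) : R4 × R4 :=
  let D : ℝ := 1 + x.1 ^ 2 + ‖x.2‖ ^ 2
  (!₂[1 - 2 / D + 2 * x.1 / D, 2 * (x.2 0 + x.2 1) / D, √2 * (2 * x.2 4 / D), √2 * (2 * x.2 5 / D)],
    !₂[1 - 2 / D - 2 * x.1 / D, 2 * (x.2 0 - x.2 1) / D, √2 * (2 * x.2 2 / D),
      √2 * (2 * x.2 3 / D)])

/-! ### The chart `j` of `S³ × S³` -/

/-- `2 |a'|²` up to the scale, `a' = (a₁, a₂, a₃)`. -/
def al (w : R6) : ℝ := (w 0 + w 1) ^ 2 + 2 * (w 4 ^ 2 + w 5 ^ 2)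

def be (w : R6) : ℝ := (w 0 - w 1) ^ 2 + 2 * (w 2 ^ 2 + w 3 ^ 2)

/-- `X₀` of the point of `S³ × S³` with `Xw = k w` and `a₀, b₀ ≥ 0`. -/
def x0 (k : ℝ) (w : R6) : ℝ := (√(1 - k ^ 2 * al w) + √(1 - k ^ 2 * be w)) / 2

/-- The chart `j`. -/
def jm (k : ℝ) (w : R6) : R4 × R4 :=
  (!₂[√(1 - k ^ 2 * al w), k * (w 0 + w 1), √2 * (k * w 4), √2 * (k * w 5)],
    !₂[√(1 - k ^ 2 * be w), k * (w 0 - w 1), √2 * (k * w 2), √2 * (k * w 3)])

/-- The `w`-coordinate of the stereographic projection of `j w`. -/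
def tau (k : ℝ) (w : R6) : R6 := (k / (1 - x0 k w)) • w

/-! ### The radial map -/

/-- For `v ≠ 0`, `TT k v • v = tau k (v / |v|²)`. -/
def TT (k : ℝ) (v : R6) : ℝ :=
  2 * k / (‖v‖ ^ 2 * (2 - √(1 - k ^ 2 * al v / ‖v‖ ^ 4) - √(1 - k ^ 2 * be v / ‖v‖ ^ 4)))

def chi (v : R6) : ℝ := Real.smoothTransition ((16 * ‖v‖ ^ 2 - 1) / 3)

/-- The factor of the radial map. -/
def Th (k : ℝ) (v : R6) : ℝ := (1 - chi v) * k⁻¹ + chi v * TT k v

/-- The radial map. -/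
def Tm (k : ℝ) (v : R6) : R6 := Th k v • v

/-! ### The chart of `WS La` -/

/-- Coordinates of the chart (b) from `(t, w)`. -/
def hco (t : ℝ) (w : R6) : H7 := (t, ⟨w 0, w 1⟩, ⟨w 2 + w 4, w 3 + w 5⟩, ⟨w 2 - w 4, -(w 3 - w 5)⟩)

/-- The domain of the chart. -/
def Vc (La : ℝ) : Set R6 := {w |
  ((w 2 - w 4) ^ 2 + (w 3 - w 5) ^ 2) * (1 + ((w 2 + w 4) ^ 2 + (w 3 + w 5) ^ 2)) < La ^ 2}

/-- The chart. -/
def psE (La t : ℝ) (w : R6) : EA := psiN (cB La (-1) (hco t w))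

/-- The ambient open set of the chart. -/
def UE : Set EA := {z | -1 < eW1 z ∧ eH0 z < 1 ∧ eS z < 0}

/-- The coordinate `w`. -/
def wco (z : EA) : R6 :=
  let p := rhoN z
  let b : ℂ := ((1 - fH0 p)⁻¹ : ℝ) * conj (fH p)
  let y : ℂ := fZ p
  !₂[(fU p).re, (fU p).im, (b.re + y.re) / 2, (b.im - y.im) / 2, (b.re - y.re) / 2,
    (b.im + y.im) / 2]

/-! ### The pieces of the connected sum -/

/-- Part of the final manifold outside of the image of `f`. -/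
def Kc (P : Par) (m n : ℝ → ℝ) (k : ℝ) : Set EA :=
  {z | z ∈ P.Mfin m n ∧ z ∈ UE ∧ wco z ∈ Tm k '' Metric.closedBall (0 : R6) (1 / 2)}

/-- Open set: the final manifold meets it in the image of `g`. -/
def Bs (s0 k : ℝ) : Set EA :=
  {z | z ∈ UE ∧ eT z ^ 2 + ‖wco z‖ ^ 2 < s0 ∧
    sinv (eT z, wco z) ∉ jm k '' Metric.closedBall (0 : R6) (1 / 2)}

open Classical in
/-- The map `f` of the connected sum (`G` is the function `G` of the graph of the final manifold). -/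
def fM (La : ℝ) (G : R6 → ℝ) (z : EA) : EA :=
  if z ∈ UE ∧ 1 < ‖wco z‖ then psE La (G (wco z)) (wco z) else z

/-- The chart `i` of `M`. -/
def im (La k : ℝ) (v : R6) : EA := psE La (qf (Tm k v)) (Tm k v)

/-- The map `g` of the connected sum. -/
def gm (La : ℝ) (p : R4 × R4) : EA := psE La (sig p).1 (sig p).2

/-- Standing hypotheses of the last rows. -/
structure Dat (P : Par) (m n : ℝ → ℝ) (s0 s1 k : ℝ) (G : R6 → ℝ) : Prop where
  hp : Prof m n s0 s1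
  hk : k = 5 / √s0
  hLa : 10 * (1 + s1) ≤ P.La
  G_smooth : ContDiffOn ℝ ∞ G {w | 1 < ‖w‖}
  G_zero : ∀ w, 1 < ‖w‖ → ∀ t, Ff m n t w = 0 ↔ t = G w
  G_far : ∀ w, s1 ≤ ‖w‖ ^ 2 → G w = qf w

end

end Pool.Agent.H8.SYG
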