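import Pool.Agent.H8.SYG.Defs
import Pool.Agent.H34.SY.WA1
import Pool.Agent.H34.SY.WB

/-!
# Row GCha: the chart `psE` of `WS La` and the two manifolds in it

`chart_cB La hLa (-1)` (H34 row WA1) and `chart_N` (H34 row WB) give the chart
`v ↦ psiN (cB La (-1) v)` of `WS La` with inverse `z ↦ (t, u, (1-h0)⁻¹ conj h, z)` of `rhoN z`, on
`{z | -1 < eW1 z} ∩ rhoN ⁻¹' {p | fH0 p < 1 ∧ 0 < (-1) * fS p}` which is `UE` (`fH0 (rhoN z) = eH0 z`, `fS (rhoN z) = eS z`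
by `rfl`).  `hco t` is (affine) linear in `w`, with inverse the formula of `wco`:
`b = P + N`, `y = conj (P - N)`, `P = (b + conj y)/2`, `N = (b - conj y)/2`; `(fT (rhoN z)) = eT z` by `rfl`.
`Complex.normSq y = (w2-w4)² + (w3-w5)²`, `Complex.normSq b = (w2+w4)² + (w3+w5)²`, so `Vc La` is the preimage of the
domain of `cB`.
* psE_M: `psE ∈ WS La`, `eT (psE La t w) = t`, `eZe (psE La t w) = b y`, `Re (b y) = (w2+w4)(w2-w4) + (w3+w5)(w3-w5) = qf w`.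
* psE_Mfin: `-1 < eW1` and `rhoN (psiN p) = p` (`rhoN_psiN`), `fS p < 0`, `fH0 p < 1`, so `Par.Fb m n 1 = 0 * (..) +
  1 * Cfin m n (t, Re u, Im u) (Rr h0 y) - Re (b y)`; `(1+h0)/(1-h0) = |b|²`, so `Rr = (|b|²+|y|²)/2 = w2²+w3²+w4²+w5²` and
  `nsq3 x + R = t² + ‖w‖²` (`EuclideanSpace.real_norm_sq_eq`, `Fin.sum_univ_six`).
* M_iff_Mfin: `z ∉ UE`: in the definition of `Par.Fb`, `Par.FbN` the else-branches apply and the value is
  `t - Re ζ` (`eZe z = fZe (rhoN z)`, `eT z = fT (rhoN z)` by `rfl`).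
* psE_deep: `|b|² + |y|² = 2 (w2²+..+w5²) ≤ 2 r`, `|y|² (1+|b|²) ≤ 2r (1+2r) < 100 (1+r)² - 1 ≤ La² - 1`;
  `eS (psE La t w) = - √(La² - |y|²(1+|b|²)) < -1`.
-/

open Set Topology
open scoped ContDiff ComplexConjugate

namespace Pool.Agent.H8.SYG

open Pool.Agent.H34.SY

theorem GCha_crd (i : Fin 6) : ContDiff ℝ ∞ (fun w : R6 => w i) :=
  (contDiff_euclidean (𝕜 := ℝ) (n := ∞) (f := fun w : R6 => w)).mp contDiff_id i

theorem GCha_mk {E : Type} [NormedAddCommGroup E] [NormedSpace ℝ E] {s : Set E} {f g : E → ℝ}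
    (hf : ContDiffOn ℝ ∞ f s) (hg : ContDiffOn ℝ ∞ g s) :
    ContDiffOn ℝ ∞ (fun x => (⟨f x, g x⟩ : ℂ)) s := by
  have h : (fun x => (⟨f x, g x⟩ : ℂ)) = fun x => (f x : ℂ) + (g x : ℂ) * Complex.I := by
    funext x
    exact (Complex.mk_eq_add_mul_I _ _)
  rw [h]
  exact (Complex.ofRealCLM.contDiff.comp_contDiffOn hf).add
    ((Complex.ofRealCLM.contDiff.comp_contDiffOn hg).mul contDiffOn_const)

theorem isOpen_UE : IsOpen UE := by
  have h1 : IsOpen {z : EA | -1 < eW1 z} :=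
    isOpen_lt continuous_const (continuous_fst.comp continuous_snd)
  have h2 : IsOpen {z : EA | eH0 z < 1} :=
    isOpen_lt (continuous_fst.comp (continuous_snd.comp continuous_snd)) continuous_const
  have h3 : IsOpen {z : EA | eS z < 0} :=
    isOpen_lt (continuous_fst.comp (continuous_snd.comp (continuous_snd.comp continuous_snd)))
      continuous_const
  exact h1.inter (h2.inter h3)

theorem isOpen_Vc (La : ℝ) : IsOpen (Vc La) := by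
  have h : ∀ i : Fin 6, Continuous (fun w : R6 => w i) := fun i => (GCha_crd i).continuous
  have h2 := h 2
  have h3 := h 3
  have h4 := h 4
  have h5 := h 5
  exact isOpen_lt ((((h2.sub h4).pow 2).add ((h3.sub h5).pow 2)).mul
    (continuous_const.add (((h2.add h4).pow 2).add ((h3.add h5).pow 2)))) continuous_const

theorem GCha_V {La t : ℝ} {w : R6} : hco t w ∈
    {v : H7 | Complex.normSq v.2.2.2 * (1 + Complex.normSq v.2.2.1) < La ^ 2} ↔ w ∈ Vc La := by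
  simp only [hco, Vc, mem_ofPred_eq, Complex.normSq_mk]
  have h : ((w 2 - w 4) * (w 2 - w 4) + -(w 3 - w 5) * -(w 3 - w 5)) *
      (1 + ((w 2 + w 4) * (w 2 + w 4) + (w 3 + w 5) * (w 3 + w 5))) =
      ((w 2 - w 4) ^ 2 + (w 3 - w 5) ^ 2) * (1 + ((w 2 + w 4) ^ 2 + (w 3 + w 5) ^ 2)) := by ring
  rw [h]

theorem contDiffOn_psE {La : ℝ} (hLa : 0 < La) :
    ContDiffOn ℝ ∞ (fun p : ℝ × R6 => psE La p.1 p.2) (univ ×ˢ Vc La) := by
  have hc := chart_cB La hLa (-1) (Or.inr rfl)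
  have h : ∀ i : Fin 6, ContDiffOn ℝ ∞ (fun p : ℝ × R6 => p.2 i) (univ ×ˢ Vc La) :=
    fun i => ((GCha_crd i).comp contDiff_snd).contDiffOn
  have h1 : ContDiffOn ℝ ∞ (fun p : ℝ × R6 => hco p.1 p.2) (univ ×ˢ Vc La) :=
    contDiff_fst.contDiffOn.prodMk ((GCha_mk (h 0) (h 1)).prodMk
      ((GCha_mk ((h 2).add (h 4)) ((h 3).add (h 5))).prodMk
        (GCha_mk ((h 2).sub (h 4)) ((h 3).sub (h 5)).neg)))
  exact contDiff_psiN.comp_contDiffOn (hc.smooth_ψ.comp h1 fun p hp => GCha_V.mpr hp.2)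

theorem contDiffOn_wco : ContDiffOn ℝ ∞ wco UE := by
  have hr : ContDiffOn ℝ ∞ rhoN UE := contDiffOn_rhoN.mono fun z hz => hz.1
  have c1 : ContDiff ℝ ∞ (fun p : FP => p.2) := contDiff_snd
  have cU : ContDiff ℝ ∞ fU := contDiff_fst.comp c1
  have c2 : ContDiff ℝ ∞ (fun p : FP => p.2.2) := contDiff_snd.comp c1
  have cH0 : ContDiff ℝ ∞ fH0 := contDiff_fst.comp c2
  have c3 : ContDiff ℝ ∞ (fun p : FP => p.2.2.2) := contDiff_snd.comp c2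
  have cH : ContDiff ℝ ∞ fH := contDiff_fst.comp c3
  have c4 : ContDiff ℝ ∞ (fun p : FP => p.2.2.2.2) := contDiff_snd.comp c3
  have c5 : ContDiff ℝ ∞ (fun p : FP => p.2.2.2.2.2) := contDiff_snd.comp c4
  have cZ : ContDiff ℝ ∞ fZ := contDiff_fst.comp c5
  have hU := cU.comp_contDiffOn hr
  have hZ := cZ.comp_contDiffOn hr
  have hH := Complex.conjCLE.contDiff.comp_contDiffOn (cH.comp_contDiffOn hr)
  have hI : ContDiffOn ℝ ∞ (fun z => (1 - fH0 (rhoN z))⁻¹) UE := by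
    apply (contDiffOn_const.sub (cH0.comp_contDiffOn hr)).inv
    intro z hz
    have h1 : fH0 (rhoN z) < 1 := hz.2.1
    change 1 - fH0 (rhoN z) ≠ 0
    linarith
  have hb : ContDiffOn ℝ ∞ (fun z => (((1 - fH0 (rhoN z))⁻¹ : ℝ) : ℂ) * conj (fH (rhoN z))) UE :=
    (Complex.ofRealCLM.contDiff.comp_contDiffOn hI).mul hH
  have hbr := Complex.reCLM.contDiff.comp_contDiffOn hb
  have hbi := Complex.imCLM.contDiff.comp_contDiffOn hb
  have hyr := Complex.reCLM.contDiff.comp_contDiffOn hZ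
  have hyi := Complex.imCLM.contDiff.comp_contDiffOn hZ
  rw [contDiffOn_euclidean]
  intro i
  fin_cases i
  · exact Complex.reCLM.contDiff.comp_contDiffOn hU
  · exact Complex.imCLM.contDiff.comp_contDiffOn hU
  · exact (hbr.add hyr).div_const 2
  · exact (hbi.sub hyi).div_const 2
  · exact (hbr.sub hyr).div_const 2
  · exact (hbi.add hyi).div_const 2

theorem GCha_hco (z : EA) : hco (eT z) (wco z) = (fT (rhoN z), fU (rhoN z),
    ((1 - fH0 (rhoN z))⁻¹ : ℝ) * conj (fH (rhoN z)), fZ (rhoN z)) := by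
  obtain ⟨b, hb⟩ : ∃ b : ℂ, b = (((1 - fH0 (rhoN z))⁻¹ : ℝ) : ℂ) * conj (fH (rhoN z)) := ⟨_, rfl⟩
  obtain ⟨y, hy⟩ : ∃ y : ℂ, y = fZ (rhoN z) := ⟨_, rfl⟩
  rw [← hb, ← hy]
  have h0 : (wco z) 0 = (fU (rhoN z)).re := rfl
  have h1 : (wco z) 1 = (fU (rhoN z)).im := rfl
  have h2 : (wco z) 2 = (b.re + y.re) / 2 := by rw [hb, hy]; rfl
  have h3 : (wco z) 3 = (b.im - y.im) / 2 := by rw [hb, hy]; rfl
  have h4 : (wco z) 4 = (b.re - y.re) / 2 := by rw [hb, hy]; rfl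
  have h5 : (wco z) 5 = (b.im + y.im) / 2 := by rw [hb, hy]; rfl
  unfold hco
  rw [h0, h1, h2, h3, h4, h5]
  refine Prod.ext rfl (Prod.ext (Complex.ext rfl rfl) (Prod.ext (Complex.ext ?_ ?_)
    (Complex.ext ?_ ?_)))
  · change (b.re + y.re) / 2 + (b.re - y.re) / 2 = b.re
    ring
  · change (b.im - y.im) / 2 + (b.im + y.im) / 2 = b.im
    ring
  · change (b.re + y.re) / 2 - (b.re - y.re) / 2 = y.re
    ring
  · change -((b.im - y.im) / 2 - (b.im + y.im) / 2) = y.im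
    ring

theorem psE_wco {La : ℝ} (hLa : 0 < La) {z : EA} (hz : z ∈ WS La) (hu : z ∈ UE) :
    wco z ∈ Vc La ∧ psE La (eT z) (wco z) = z := by
  have hc := chart_cB La hLa (-1) (Or.inr rfl)
  obtain ⟨h1, h2⟩ := rhoN_mem hz hu.1
  have h3 : rhoN z ∈ FPS La ∩ {p | fH0 p < 1 ∧ 0 < -1 * fS p} := by
    refine ⟨h1, hu.2.1, ?_⟩
    have h4 : fS (rhoN z) < 0 := hu.2.2
    linarith
  constructor
  · apply (GCha_V (t := eT z)).mp
    rw [GCha_hco]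
    exact hc.maps_ρ _ h3
  · unfold psE
    rw [GCha_hco, hc.left_inv _ h3, h2]

theorem psE_mem {La : ℝ} (hLa : 0 < La) (t : ℝ) {w : R6} (hw : w ∈ Vc La) :
    psE La t w ∈ WS La ∧ psE La t w ∈ UE ∧ wco (psE La t w) = w ∧ eT (psE La t w) = t := by
  have hc := chart_cB La hLa (-1) (Or.inr rfl)
  have hv := (GCha_V (t := t)).mpr hw
  obtain ⟨h1, h2, h3⟩ := hc.maps_ψ _ hv
  obtain ⟨h4, h5⟩ := psiN_mem h1
  refine ⟨h4, ⟨h5, h2, ?_⟩, ?_, rfl⟩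
  · change fS (cB La (-1) (hco t w)) < 0
    linarith
  · have h6 := hc.right_inv _ hv
    have h7 := GCha_hco (psE La t w)
    have h8 : rhoN (psE La t w) = cB La (-1) (hco t w) := rhoN_psiN _
    rw [h8, h6] at h7
    have h9 : hco t (wco (psE La t w)) = hco t w := h7
    obtain ⟨w', hw'⟩ : ∃ w' : R6, w' = wco (psE La t w) := ⟨_, rfl⟩
    rw [← hw'] at h9 ⊢
    unfold hco at h9
    simp only [Prod.mk.injEq, Complex.mk.injEq, true_and] at h9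
    obtain ⟨⟨a0, a1⟩, ⟨a2, a3⟩, a4, a5⟩ := h9
    ext i
    fin_cases i
    · exact a0
    · exact a1
    · change w' 2 = w 2
      linarith
    · change w' 3 = w 3
      linarith
    · change w' 4 = w 4
      linarith
    · change w' 5 = w 5
      linarith

theorem GCha_ze (La t : ℝ) (w : R6) : (eZe (psE La t w)).re = qf w := by
  change ((⟨w 2 + w 4, w 3 + w 5⟩ : ℂ) * (⟨w 2 - w 4, -(w 3 - w 5)⟩ : ℂ)).re = qf w
  rw [Complex.mul_re]
  unfold qf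
  ring

theorem psE_M {P : Par} (hLa : 0 < P.La) (t : ℝ) {w : R6} (hw : w ∈ Vc P.La) :
    psE P.La t w ∈ P.M ↔ t = qf w := by
  obtain ⟨h1, h2, h3, h4⟩ := psE_mem hLa t hw
  have h5 : psE P.La t w ∈ P.M ↔
      (psE P.La t w ∈ WS P.La ∧ eT (psE P.La t w) = (eZe (psE P.La t w)).re) := Iff.rfl
  rw [h5, h4, GCha_ze]
  exact ⟨fun h => h.2, fun h => ⟨h1, h⟩⟩

theorem GCha_nsq (w : R6) :
    ‖w‖ ^ 2 = w 0 ^ 2 + w 1 ^ 2 + w 2 ^ 2 + w 3 ^ 2 + w 4 ^ 2 + w 5 ^ 2 := by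
  rw [EuclideanSpace.real_norm_sq_eq, Fin.sum_univ_six]

theorem psE_Mfin {P : Par} (hLa : 0 < P.La) (m n : ℝ → ℝ) (t : ℝ) {w : R6} (hw : w ∈ Vc P.La) :
    psE P.La t w ∈ P.Mfin m n ↔ Ff m n t w = 0 := by
  obtain ⟨h1, h2, h3, h4⟩ := psE_mem hLa t hw
  have h5 : psE P.La t w ∈ P.Mfin m n ↔
      (psE P.La t w ∈ WS P.La ∧ P.Fb m n 1 (psE P.La t w) = 0) := Iff.rfl
  have h6 : P.Fb m n 1 (psE P.La t w) = Ff m n t w := by
    unfold Par.Fb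
    rw [if_pos h2.1]
    have h8 : rhoN (psE P.La t w) = cB P.La (-1) (hco t w) := rhoN_psiN _
    rw [h8]
    unfold Par.FbN
    have h9 : fS (cB P.La (-1) (hco t w)) < 0 ∧ fH0 (cB P.La (-1) (hco t w)) < 1 :=
      ⟨h2.2.2, h2.2.1⟩
    rw [if_pos h9]
    have h10 : (fZe (cB P.La (-1) (hco t w))).re = qf w := GCha_ze P.La t w
    have h11 : xpt (fT (cB P.La (-1) (hco t w))) (fU (cB P.La (-1) (hco t w))) =
        (t, w 0, w 1) := rfl
    have h12 : Rr (fH0 (cB P.La (-1) (hco t w))) (fZ (cB P.La (-1) (hco t w))) =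
        w 2 ^ 2 + w 3 ^ 2 + w 4 ^ 2 + w 5 ^ 2 := by
      change ((1 + (Complex.normSq (⟨w 2 + w 4, w 3 + w 5⟩ : ℂ) - 1) /
        (Complex.normSq (⟨w 2 + w 4, w 3 + w 5⟩ : ℂ) + 1)) /
        (1 - (Complex.normSq (⟨w 2 + w 4, w 3 + w 5⟩ : ℂ) - 1) /
        (Complex.normSq (⟨w 2 + w 4, w 3 + w 5⟩ : ℂ) + 1)) +
        Complex.normSq (⟨w 2 - w 4, -(w 3 - w 5)⟩ : ℂ)) / 2 = _
      obtain ⟨β, hβ⟩ : ∃ β : ℝ, β = Complex.normSq (⟨w 2 + w 4, w 3 + w 5⟩ : ℂ) := ⟨_, rfl⟩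
      have hβ0 : 0 ≤ β := by
        rw [hβ]
        exact Complex.normSq_nonneg _
      have hβ1 : β + 1 ≠ 0 := by linarith
      have h13 : (1 + (β - 1) / (β + 1)) / (1 - (β - 1) / (β + 1)) = β := by
        have h14 : 1 - (β - 1) / (β + 1) = 2 / (β + 1) := by
          field_simp
          ring
        rw [h14]
        field_simp
        ring
      rw [← hβ, h13, hβ, Complex.normSq_mk, Complex.normSq_mk]
      ring
    rw [h10, h11, h12]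
    unfold Cfin Ff nsq3
    rw [GCha_nsq]
    have h14 : t ^ 2 + w 0 ^ 2 + w 1 ^ 2 + (w 2 ^ 2 + w 3 ^ 2 + w 4 ^ 2 + w 5 ^ 2) =
        t ^ 2 + (w 0 ^ 2 + w 1 ^ 2 + w 2 ^ 2 + w 3 ^ 2 + w 4 ^ 2 + w 5 ^ 2) := by ring
    simp only [h14]
    ring
  rw [h5, h6]
  exact ⟨fun h => h.2, fun h => ⟨h1, h⟩⟩

theorem M_iff_Mfin (P : Par) (m n : ℝ → ℝ) {z : EA} (hz : z ∉ UE) :
    z ∈ P.M ↔ z ∈ P.Mfin m n := by
  have h1 : z ∈ P.M ↔ (z ∈ WS P.La ∧ eT z = (eZe z).re) := Iff.rfl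
  have h2 : z ∈ P.Mfin m n ↔ (z ∈ WS P.La ∧ P.Fb m n 1 z = 0) := Iff.rfl
  have h3 : P.Fb m n 1 z = eT z - (eZe z).re := by
    unfold Par.Fb
    by_cases h : -1 < eW1 z
    · rw [if_pos h]
      unfold Par.FbN
      rw [if_neg]
      · rfl
      · intro h4
        exact hz ⟨h, h4.2, h4.1⟩
    · rw [if_neg h]
  rw [h1, h2, h3, sub_eq_zero]

theorem psE_deep {La r : ℝ} (hr : 0 ≤ r) (hLa : 10 * (1 + r) ≤ La) (t : ℝ) {w : R6}
    (hw : ‖w‖ ^ 2 ≤ r) : w ∈ Vc La ∧ eS (psE La t w) < -1 := by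
  rw [GCha_nsq] at hw
  have hS : (w 2 - w 4) ^ 2 + (w 3 - w 5) ^ 2 + ((w 2 + w 4) ^ 2 + (w 3 + w 5) ^ 2) ≤ 2 * r := by
    nlinarith [sq_nonneg (w 0), sq_nonneg (w 1)]
  have hA : 0 ≤ (w 2 - w 4) ^ 2 + (w 3 - w 5) ^ 2 := by positivity
  have hB : 0 ≤ (w 2 + w 4) ^ 2 + (w 3 + w 5) ^ 2 := by positivity
  have h1 : ((w 2 - w 4) ^ 2 + (w 3 - w 5) ^ 2) * (1 + ((w 2 + w 4) ^ 2 + (w 3 + w 5) ^ 2)) ≤
      2 * r * (1 + 2 * r) := by
    apply mul_le_mul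
    · linarith
    · linarith
    · linarith
    · linarith
  have h2 : 100 * (1 + r) ^ 2 ≤ La ^ 2 := by
    have h3 : (10 * (1 + r)) ^ 2 ≤ La ^ 2 := by
      apply pow_le_pow_left₀ _ hLa
      positivity
    linarith [h3, mul_pow 10 (1 + r) 2]
  have h4 : ((w 2 - w 4) ^ 2 + (w 3 - w 5) ^ 2) * (1 + ((w 2 + w 4) ^ 2 + (w 3 + w 5) ^ 2)) <
      La ^ 2 - 1 := by nlinarith
  constructor
  · change ((w 2 - w 4) ^ 2 + (w 3 - w 5) ^ 2) * (1 + ((w 2 + w 4) ^ 2 + (w 3 + w 5) ^ 2)) < La ^ 2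
    linarith
  · change -1 * √(La ^ 2 - Complex.normSq (⟨w 2 - w 4, -(w 3 - w 5)⟩ : ℂ) *
      (1 + Complex.normSq (⟨w 2 + w 4, w 3 + w 5⟩ : ℂ))) < -1
    rw [Complex.normSq_mk, Complex.normSq_mk]
    have h5 : 1 < √(La ^ 2 - ((w 2 - w 4) * (w 2 - w 4) + -(w 3 - w 5) * -(w 3 - w 5)) *
        (1 + ((w 2 + w 4) * (w 2 + w 4) + (w 3 + w 5) * (w 3 + w 5)))) := by
      apply Real.lt_sqrt_of_sq_lt
      have h6 : ((w 2 - w 4) * (w 2 - w 4) + -(w 3 - w 5) * -(w 3 - w 5)) *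
          (1 + ((w 2 + w 4) * (w 2 + w 4) + (w 3 + w 5) * (w 3 + w 5))) =
          ((w 2 - w 4) ^ 2 + (w 3 - w 5) ^ 2) *
            (1 + ((w 2 + w 4) ^ 2 + (w 3 + w 5) ^ 2)) := by ring
      rw [h6]
      linarith
    linarith

end Pool.Agent.H8.SYG
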