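import Pool.Agent.H8.SYG.GImp

/-!
# Row GFun: the function `Ff` in the chart and its graph `G`

`s = t ^ 2 + ‖w‖ ^ 2`.  `‖w‖ ^ 2 = ∑ w i ^ 2` (`EuclideanSpace.real_norm_sq_eq`), so `|qf w| ≤ ‖w‖ ^ 2`,
`|w 0 * w 1| ≤ ‖w‖ ^ 2 / 2 ≤ s / 2` and `|2 w 0 w 1 - qf w| ≤ ‖w‖ ^ 2`.
Derivative of `t ↦ Ff m n t w`: `m s + 2 t^2 deriv m s + 4 (deriv n s) t w0 w1`.
* It is `> 0` if `1 < s - 2 * 0`, precisely if `1 < ‖w‖`: for `s < s0`: `m s = s - 1`, `deriv m s = 1`,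
  `deriv n s = 0` (locally constant), value `s - 1 + 2 t^2 > 0`.  For `s0 ≤ s`: `Prof.mono` with
  `r = t ^ 2 ≤ s`, and `|4 (deriv n s) t w0 w1| ≤ 4 |deriv n s| √s (s/2) ≤ 4 |deriv n s| (s √s)`.
* So `t ↦ Ff m n t w` is strictly increasing for `1 < ‖w‖` (`strictMono_of_deriv_pos`).  For `|t| ≥ s1`
  (`s1 ≥ 1`): `s ≥ s1 > 2 s0`, `m s = 1`, `n s = 0`, `Ff = t - qf w`.  So `Ff` is negative at
  `-(s1 + ‖w‖^2 + 1)` and positive at `s1 + ‖w‖^2 + 1`: unique zero `G w` (intermediate value theorem,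
  choice).  If `s1 ≤ ‖w‖^2` then `Ff m n t w = t - qf w` for all `t`, so `G w = qf w`.
* `G` smooth: `implicit_scalar` (row GImp) with `Ω = {(t, w) | 1 < ‖w‖}`; `fderiv F p (1, 0)` is the
  `t`-derivative.
* zero_bdd: if `t^2 < s1` then `|t| ≤ s1` (`s1 ≥ 1`); otherwise `s ≥ s1`, so `t = qf w`, `|t| ≤ ‖w‖^2`.
* zero_small: suppose `2 ≤ |t|`, `‖w‖^2 + 4 ≤ s0`.  By symmetry take `t ≥ 2` (for `t ≤ -2` same with signs).
  The derivative is `> 0` at all `(t', w)` with `t' ≥ 2` (`s ≥ 4 > 1`: same two cases as above), and at `t' = 2`: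
  `s = 4 + ‖w‖^2 ≤ s0`, `Ff = 2 (3 + ‖w‖^2) + 2 w0 w1 - qf w ≥ 6 + ‖w‖^2 > 0`.  So `Ff > 0` for all `t ≥ 2`
  (strictMonoOn on `Ici 2`); contradiction.
-/

open Set Topology
open scoped ContDiff ComplexConjugate

namespace Pool.Agent.H8.SYG

open Pool.Agent.H34.SY

private theorem gf_coord (i : Fin 6) : ContDiff ℝ ∞ (fun w : R6 => w i) :=
  (EuclideanSpace.proj i : R6 →L[ℝ] ℝ).contDiff

private theorem gf_norm (w : R6) : ‖w‖ ^ 2 = w 0 ^ 2 + w 1 ^ 2 + w 2 ^ 2 + w 3 ^ 2 + w 4 ^ 2 + w 5 ^ 2 := by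
  rw [EuclideanSpace.real_norm_sq_eq, Fin.sum_univ_six]

private theorem gf_qf (w : R6) : |qf w| ≤ ‖w‖ ^ 2 := by
  rw [gf_norm, abs_le]
  unfold qf
  constructor <;> nlinarith [sq_nonneg (w 0), sq_nonneg (w 1), sq_nonneg (w 2), sq_nonneg (w 3),
    sq_nonneg (w 4), sq_nonneg (w 5)]

private theorem gf_ww (w : R6) : |w 0 * w 1| ≤ ‖w‖ ^ 2 / 2 := by
  rw [gf_norm, abs_le]
  constructor <;> nlinarith [sq_nonneg (w 0 - w 1), sq_nonneg (w 0 + w 1), sq_nonneg (w 2),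
    sq_nonneg (w 3), sq_nonneg (w 4), sq_nonneg (w 5)]

private theorem gf_wq (w : R6) : |2 * w 0 * w 1 - qf w| ≤ ‖w‖ ^ 2 := by
  rw [gf_norm, abs_le]
  unfold qf
  constructor <;> nlinarith [sq_nonneg (w 0 - w 1), sq_nonneg (w 0 + w 1), sq_nonneg (w 2),
    sq_nonneg (w 3), sq_nonneg (w 4), sq_nonneg (w 5)]

theorem contDiff_qf : ContDiff ℝ ∞ qf := by
  unfold qf
  exact (((gf_coord 2).pow 2 |>.add ((gf_coord 3).pow 2)).sub ((gf_coord 4).pow 2)).sub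
    ((gf_coord 5).pow 2)

theorem contDiff_Ff {m n : ℝ → ℝ} {s0 s1 : ℝ} (hp : Prof m n s0 s1) :
    ContDiff ℝ ∞ (fun p : ℝ × R6 => Ff m n p.1 p.2) := by
  have hs : ContDiff ℝ ∞ (fun p : ℝ × R6 => p.1 ^ 2 + ‖p.2‖ ^ 2) :=
    (contDiff_fst.pow 2).add (contDiff_snd.norm_sq ℝ)
  have hm : ContDiff ℝ ∞ (fun p : ℝ × R6 => m (p.1 ^ 2 + ‖p.2‖ ^ 2)) := hp.m_smooth.comp hs
  have hn : ContDiff ℝ ∞ (fun p : ℝ × R6 => n (p.1 ^ 2 + ‖p.2‖ ^ 2)) := hp.n_smooth.comp hs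
  have h0 : ContDiff ℝ ∞ (fun p : ℝ × R6 => p.2 0) := (gf_coord 0).comp contDiff_snd
  have h1 : ContDiff ℝ ∞ (fun p : ℝ × R6 => p.2 1) := (gf_coord 1).comp contDiff_snd
  have hq : ContDiff ℝ ∞ (fun p : ℝ × R6 => qf p.2) := contDiff_qf.comp contDiff_snd
  unfold Ff
  exact ((contDiff_fst.mul hm).add (((contDiff_const.mul hn).mul h0).mul h1)).sub hq

theorem Ff_core {m n : ℝ → ℝ} {s0 s1 : ℝ} (hp : Prof m n s0 s1) {t : ℝ} {w : R6}
    (h : t ^ 2 + ‖w‖ ^ 2 ≤ s0) : Ff m n t w = f1 t w := by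
  have h0 := hp.s0_large
  unfold Ff f1
  rw [hp.m_core _ (by linarith), hp.n_core _ h]
  ring

private theorem gf_far {m n : ℝ → ℝ} {s0 s1 : ℝ} (hp : Prof m n s0 s1) {t : ℝ} {w : R6}
    (h : s1 ≤ t ^ 2 + ‖w‖ ^ 2) : Ff m n t w = t - qf w := by
  have h1 := hp.s1_gt
  unfold Ff
  rw [hp.m_far _ h, hp.n_far _ (by linarith)]
  ring

private theorem gf_deriv {m n : ℝ → ℝ} {s0 s1 : ℝ} (hp : Prof m n s0 s1) (t : ℝ) (w : R6) :
    HasDerivAt (fun t => Ff m n t w)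
      (m (t ^ 2 + ‖w‖ ^ 2) + 2 * t ^ 2 * deriv m (t ^ 2 + ‖w‖ ^ 2) +
        4 * deriv n (t ^ 2 + ‖w‖ ^ 2) * t * (w 0 * w 1)) t := by
  have hs : HasDerivAt (fun t : ℝ => t ^ 2 + ‖w‖ ^ 2) (2 * t) t := by
    have := (hasDerivAt_pow 2 t).add_const (‖w‖ ^ 2)
    simpa using this
  have hmd : HasDerivAt m (deriv m (t ^ 2 + ‖w‖ ^ 2)) (t ^ 2 + ‖w‖ ^ 2) :=
    ((hp.m_smooth.differentiable (by norm_num)) _).hasDerivAt
  have hnd : HasDerivAt n (deriv n (t ^ 2 + ‖w‖ ^ 2)) (t ^ 2 + ‖w‖ ^ 2) :=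
    ((hp.n_smooth.differentiable (by norm_num)) _).hasDerivAt
  have hm := hmd.comp t hs
  have hn := hnd.comp t hs
  have h := ((((hasDerivAt_id t).mul hm).add (((hn.const_mul 2).mul_const (w 0)).mul_const (w 1))).sub_const
    (qf w))
  refine h.congr_deriv ?_
  simp only [Function.comp, id]
  ring

private theorem gf_pos {m n : ℝ → ℝ} {s0 s1 : ℝ} (hp : Prof m n s0 s1) (t : ℝ) (w : R6)
    (hs : 1 < t ^ 2 + ‖w‖ ^ 2) : 0 < deriv (fun t => Ff m n t w) t := by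
  rw [(gf_deriv hp t w).deriv]
  obtain ⟨s, hsd⟩ : ∃ s, s = t ^ 2 + ‖w‖ ^ 2 := ⟨_, rfl⟩
  rw [← hsd] at hs ⊢
  have h0 := hp.s0_large
  rcases lt_or_ge s s0 with hlt | hge
  · have hm : deriv m s = 1 := by
      have he : m =ᶠ[𝓝 s] fun s => s - 1 := by
        filter_upwards [Iio_mem_nhds hlt] with x hx
        exact hp.m_core x (by
          have : x < s0 := hx
          linarith)
      rw [he.deriv_eq, deriv_sub_const, deriv_id'']
    have hn : deriv n s = 0 := by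
      have he : n =ᶠ[𝓝 s] fun _ => 1 := by
        filter_upwards [Iio_mem_nhds hlt] with x hx
        exact hp.n_core x (le_of_lt hx)
      rw [he.deriv_eq, deriv_const]
    rw [hm, hn, hp.m_core s (by linarith)]
    nlinarith [sq_nonneg t]
  · have hs0 : 0 ≤ s := by linarith
    have hts : t ^ 2 ≤ s := by
      rw [hsd]; nlinarith [sq_nonneg ‖w‖]
    have hws : ‖w‖ ^ 2 ≤ s := by
      rw [hsd]; nlinarith [sq_nonneg t]
    have hmono := hp.mono s hge (t ^ 2) (sq_nonneg t) hts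
    have ht : |t| ≤ √s := Real.abs_le_sqrt hts
    have hww : |w 0 * w 1| ≤ s := by
      have := gf_ww w
      have h2 : 0 ≤ ‖w‖ ^ 2 := sq_nonneg _
      linarith
    have hb : |4 * deriv n s * t * (w 0 * w 1)| ≤ 4 * |deriv n s| * (s * √s) := by
      rw [abs_mul, abs_mul, abs_mul, abs_of_pos (by norm_num : (0 : ℝ) < 4)]
      have h1 : |t| * |w 0 * w 1| ≤ √s * s := mul_le_mul ht hww (abs_nonneg _) (Real.sqrt_nonneg _)
      calc 4 * |deriv n s| * |t| * |w 0 * w 1| = 4 * |deriv n s| * (|t| * |w 0 * w 1|) := by ring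
        _ ≤ 4 * |deriv n s| * (√s * s) := mul_le_mul_of_nonneg_left h1 (by positivity)
        _ = 4 * |deriv n s| * (s * √s) := by ring
    have := (abs_le.1 hb).1
    linarith

private theorem gf_strict {m n : ℝ → ℝ} {s0 s1 : ℝ} (hp : Prof m n s0 s1) (w : R6) (hw : 1 < ‖w‖) :
    StrictMono (fun t => Ff m n t w) := by
  refine strictMono_of_deriv_pos fun t => gf_pos hp t w ?_
  nlinarith [sq_nonneg t]

private theorem gf_cont {m n : ℝ → ℝ} {s0 s1 : ℝ} (hp : Prof m n s0 s1) (w : R6) :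
    Continuous (fun t => Ff m n t w) :=
  continuous_iff_continuousAt.2 fun t => (gf_deriv hp t w).continuousAt

private theorem gf_zero {m n : ℝ → ℝ} {s0 s1 : ℝ} (hp : Prof m n s0 s1) (w : R6) :
    ∃ t, Ff m n t w = 0 := by
  have h0 := hp.s0_large
  have h1 := hp.s1_gt
  obtain ⟨T, hT⟩ : ∃ T, T = s1 + ‖w‖ ^ 2 + 1 := ⟨_, rfl⟩
  have hw : 0 ≤ ‖w‖ ^ 2 := sq_nonneg _
  have hq := abs_le.1 (gf_qf w)
  have hT1 : 1 ≤ T := by rw [hT]; linarith
  have hTs : s1 ≤ T ^ 2 + ‖w‖ ^ 2 := by nlinarith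
  have hp1 : Ff m n T w = T - qf w := gf_far hp hTs
  have hp2 : Ff m n (-T) w = -T - qf w := gf_far hp (by rw [neg_sq]; exact hTs)
  have := mem_range_of_exists_le_of_exists_ge (c := (0 : ℝ)) (gf_cont hp w)
    ⟨-T, by show Ff m n (-T) w ≤ 0; rw [hp2]; linarith⟩
    ⟨T, by show 0 ≤ Ff m n T w; rw [hp1]; linarith⟩
  obtain ⟨t, ht⟩ := this
  exact ⟨t, ht⟩

theorem exists_G {m n : ℝ → ℝ} {s0 s1 : ℝ} (hp : Prof m n s0 s1) :
    ∃ G : R6 → ℝ, ContDiffOn ℝ ∞ G {w | 1 < ‖w‖} ∧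
      (∀ w, 1 < ‖w‖ → ∀ t, Ff m n t w = 0 ↔ t = G w) ∧ ∀ w, s1 ≤ ‖w‖ ^ 2 → G w = qf w := by
  have h0 := hp.s0_large
  have h1 := hp.s1_gt
  choose G hG using fun w => gf_zero hp w
  have hiff : ∀ w, 1 < ‖w‖ → ∀ t, Ff m n t w = 0 ↔ t = G w := by
    intro w hw t
    constructor
    · intro ht
      exact (gf_strict hp w hw).injective (ht.trans (hG w).symm)
    · intro ht
      rw [ht]
      exact hG w
  refine ⟨G, ?_, hiff, ?_⟩
  · have hΩ : IsOpen {p : ℝ × R6 | 1 < ‖p.2‖} :=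
      isOpen_lt continuous_const (continuous_norm.comp continuous_snd)
    have himp := implicit_scalar hΩ (F := fun p : ℝ × R6 => Ff m n p.1 p.2)
      (contDiff_Ff hp).contDiffOn
      (by
        rintro ⟨t, w⟩ hw _
        have hw' : 1 < ‖w‖ := hw
        have hF : HasFDerivAt (fun p : ℝ × R6 => Ff m n p.1 p.2)
            (fderiv ℝ (fun p : ℝ × R6 => Ff m n p.1 p.2) (t, w)) (t, w) :=
          (((contDiff_Ff hp).differentiable (by norm_num)) (t, w)).hasFDerivAt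
        have hc : HasDerivAt (fun t : ℝ => ((t, w) : ℝ × R6)) ((1 : ℝ), (0 : R6)) t :=
          (hasDerivAt_id t).prodMk (hasDerivAt_const t w)
        have hd := hF.comp_hasDerivAt t hc
        have hd' : HasDerivAt (fun t => Ff m n t w)
            (fderiv ℝ (fun p : ℝ × R6 => Ff m n p.1 p.2) (t, w) (1, 0)) t := hd
        rw [← hd'.deriv]
        refine ne_of_gt (gf_pos hp t w ?_)
        nlinarith [sq_nonneg t])
      (by
        intro t t' w hw _ ht ht'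
        have hw' : 1 < ‖w‖ := hw
        exact (gf_strict hp w hw').injective (ht.trans ht'.symm))
    have hset : {w : R6 | ∃ t, (t, w) ∈ {p : ℝ × R6 | 1 < ‖p.2‖} ∧
        (fun p : ℝ × R6 => Ff m n p.1 p.2) (t, w) = 0} = {w | 1 < ‖w‖} := by
      ext w
      constructor
      · rintro ⟨t, ht, -⟩
        exact ht
      · intro hw
        exact ⟨G w, hw, hG w⟩
    have h2 := himp.2 G (by
      rintro w ⟨t, ht, -⟩
      exact ⟨ht, hG w⟩)
    rw [hset] at h2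
    exact h2
  · intro w hw
    have hw1 : 1 < ‖w‖ := by
      by_contra hc
      push Not at hc
      have : ‖w‖ ^ 2 ≤ 1 := by nlinarith [norm_nonneg w]
      linarith
    refine ((hiff w hw1 (qf w)).1 ?_).symm
    rw [gf_far hp (by nlinarith [sq_nonneg (qf w)])]
    ring

theorem zero_small {m n : ℝ → ℝ} {s0 s1 : ℝ} (hp : Prof m n s0 s1) {t : ℝ} {w : R6}
    (h : ‖w‖ ^ 2 + 4 ≤ s0) (h0 : Ff m n t w = 0) : |t| < 2 := by
  have hw : 0 ≤ ‖w‖ ^ 2 := sq_nonneg _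
  have hq := abs_le.1 (gf_wq w)
  by_contra hc
  push Not at hc
  rcases le_abs.1 hc with ht | ht
  · have hmono : StrictMonoOn (fun t => Ff m n t w) (Ici 2) := by
      refine strictMonoOn_of_deriv_pos (convex_Ici 2) (gf_cont hp w).continuousOn ?_
      intro x hx
      rw [interior_Ici] at hx
      have hx' : 2 < x := hx
      exact gf_pos hp x w (by nlinarith)
    have h2 : Ff m n 2 w = f1 2 w := Ff_core hp (by linarith)
    have h3 : 0 < Ff m n 2 w := by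
      rw [h2]
      unfold f1
      linarith
    have h4 : Ff m n 2 w ≤ Ff m n t w := hmono.monotoneOn (mem_Ici.2 le_rfl) (mem_Ici.2 ht) ht
    linarith
  · have ht' : t ≤ -2 := by linarith
    have hmono : StrictMonoOn (fun t => Ff m n t w) (Iic (-2)) := by
      refine strictMonoOn_of_deriv_pos (convex_Iic (-2)) (gf_cont hp w).continuousOn ?_
      intro x hx
      rw [interior_Iic] at hx
      have hx' : x < -2 := hx
      exact gf_pos hp x w (by nlinarith)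
    have h2 : Ff m n (-2) w = f1 (-2) w := Ff_core hp (by linarith)
    have h3 : Ff m n (-2) w < 0 := by
      rw [h2]
      unfold f1
      linarith
    have h4 : Ff m n t w ≤ Ff m n (-2) w := hmono.monotoneOn (mem_Iic.2 ht') (mem_Iic.2 le_rfl) ht'
    linarith

theorem zero_bdd {m n : ℝ → ℝ} {s0 s1 : ℝ} (hp : Prof m n s0 s1) {t : ℝ} {w : R6}
    (h0 : Ff m n t w = 0) : |t| ≤ s1 + ‖w‖ ^ 2 := by
  have hs0 := hp.s0_large
  have h1 := hp.s1_gt
  have hw : 0 ≤ ‖w‖ ^ 2 := sq_nonneg _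
  rcases lt_or_ge (t ^ 2) s1 with hlt | hge
  · have h2 : |t| ≤ s1 := by
      by_contra hc
      push Not at hc
      have h3 : s1 * s1 < |t| * |t| := mul_self_lt_mul_self (by linarith) hc
      rw [abs_mul_abs_self] at h3
      nlinarith
    linarith
  · rw [gf_far hp (by linarith)] at h0
    have h3 : t = qf w := by linarith
    rw [h3]
    have := gf_qf w
    linarith

end Pool.Agent.H8.SYG
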