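import Pool.Agent.H8.SYG.GTau
import Pool.Agent.H8.SYG.GFun
import Pool.Agent.H8.SYG.GCha

/-!
# Block G: common facts from the standing hypotheses `Dat`
-/

open Set Topology
open scoped ContDiff ComplexConjugate

namespace Pool.Agent.H8.SYG

open Pool.Agent.H34.SY

variable {P : Par} {m n : ℝ → ℝ} {s0 s1 k : ℝ} {G : R6 → ℝ}

theorem Dat.s0_big (H : Dat P m n s0 s1 k G) : (10 : ℝ) ^ 6 ≤ s0 := H.hp.s0_large

theorem Dat.s0_pos (H : Dat P m n s0 s1 k G) : 0 < s0 := by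
  have := H.s0_big
  norm_num at this ⊢
  linarith

theorem Dat.s1_pos (H : Dat P m n s0 s1 k G) : 0 < s1 := by
  have h1 := H.s0_pos
  have h2 := H.hp.s1_gt
  linarith

theorem Dat.sqrt_big (H : Dat P m n s0 s1 k G) : (1000 : ℝ) ≤ √s0 := by
  rw [Real.le_sqrt' (by norm_num)]
  have := H.s0_big
  norm_num at this ⊢
  linarith

theorem Dat.k_pos (H : Dat P m n s0 s1 k G) : 0 < k := by
  rw [H.hk]
  have := H.sqrt_big
  positivity

theorem Dat.k_le (H : Dat P m n s0 s1 k G) : k ≤ 1 / 200 := by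
  rw [H.hk, div_le_div_iff₀ (by have := H.sqrt_big; linarith) (by norm_num)]
  have := H.sqrt_big
  linarith

theorem Dat.k_inv (H : Dat P m n s0 s1 k G) : k⁻¹ = √s0 / 5 := by
  rw [H.hk, inv_div]

theorem Dat.La_pos (H : Dat P m n s0 s1 k G) : 0 < P.La := by
  have h1 := H.hLa
  have h2 := H.s1_pos
  linarith

theorem Dat.norm_Tm_le (H : Dat P m n s0 s1 k G) (v : R6) : ‖Tm k v‖ ≤ 2 * (√s0 / 5) * ‖v‖ := by
  unfold Tm
  rw [norm_smul, Real.norm_eq_abs]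
  have hb := Th_bounds H.k_pos H.k_le v
  have hk : 0 < k⁻¹ := inv_pos.mpr H.k_pos
  rw [abs_of_pos (lt_of_lt_of_le hk hb.1), ← H.k_inv]
  exact mul_le_mul_of_nonneg_right hb.2 (norm_nonneg v)

theorem Dat.norm_Tm_half (H : Dat P m n s0 s1 k G) {v : R6} (hv : ‖v‖ ≤ 1 / 2) :
    ‖Tm k v‖ ^ 2 ≤ s0 / 25 := by
  have h1 := H.norm_Tm_le v
  have h2 : ‖Tm k v‖ ≤ √s0 / 5 := by
    have h3 : 0 ≤ 2 * (√s0 / 5) := by positivity
    nlinarith
  have h4 : (√s0 / 5) ^ 2 = s0 / 25 := by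
    rw [div_pow, Real.sq_sqrt H.s0_pos.le]
    norm_num
  rw [← h4]
  exact pow_le_pow_left₀ (norm_nonneg _) h2 2

theorem Dat.norm_Tm_two (H : Dat P m n s0 s1 k G) {v : R6} (hv : ‖v‖ ≤ 2) :
    ‖Tm k v‖ ^ 2 < s0 := by
  have h1 := H.norm_Tm_le v
  have h2 : ‖Tm k v‖ ≤ 4 * (√s0 / 5) := by
    have h3 : 0 ≤ 2 * (√s0 / 5) := by positivity
    nlinarith
  have h4 : (4 * (√s0 / 5)) ^ 2 = 16 * s0 / 25 := by
    rw [mul_pow, div_pow, Real.sq_sqrt H.s0_pos.le]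
    ring
  have h5 : ‖Tm k v‖ ^ 2 ≤ (4 * (√s0 / 5)) ^ 2 := pow_le_pow_left₀ (norm_nonneg _) h2 2
  have := H.s0_pos
  rw [h4] at h5
  linarith

theorem Dat.deep (H : Dat P m n s0 s1 k G) {w : R6} (hw : ‖w‖ ^ 2 ≤ s1) (t : ℝ) :
    w ∈ Vc P.La ∧ eS (psE P.La t w) < -1 :=
  psE_deep H.s1_pos.le H.hLa t hw

theorem Dat.Th_pos (H : Dat P m n s0 s1 k G) (v : R6) : 0 < Th k v :=
  lt_of_lt_of_le (inv_pos.mpr H.k_pos) (Th_bounds H.k_pos H.k_le v).1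

theorem Dat.Tm_inj (H : Dat P m n s0 s1 k G) : Function.Injective (Tm k) :=
  radial_inj (contDiff_Th H.k_pos H.k_le) H.Th_pos (Th_radial H.k_pos H.k_le)

theorem Dat.contDiff_Tm (H : Dat P m n s0 s1 k G) : ContDiff ℝ ∞ (Tm k) :=
  (contDiff_Th H.k_pos H.k_le).smul contDiff_id

theorem Dat.mem_Tm (H : Dat P m n s0 s1 k G) {w : R6} (hw : ‖w‖ ≤ 1) :
    w ∈ Tm k '' Metric.closedBall (0 : R6) (1 / 2) := by
  have hk := H.k_pos
  have hk2 := H.k_le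
  have hn : ‖k • w‖ ≤ 1 / 4 := by
    rw [norm_smul, Real.norm_eq_abs, abs_of_pos hk]
    nlinarith [norm_nonneg w]
  refine ⟨k • w, ?_, ?_⟩
  · rw [mem_closedBall_zero_iff]
    linarith
  · unfold Tm
    rw [Th_small hn, smul_smul, inv_mul_cancel₀ hk.ne', one_smul]

theorem Dat.norm_gt_one (H : Dat P m n s0 s1 k G) {w : R6}
    (hw : w ∉ Tm k '' Metric.closedBall (0 : R6) (1 / 2)) : 1 < ‖w‖ := by
  by_contra h
  exact hw (H.mem_Tm (not_lt.mp h))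

theorem Dat.not_mem_of_norm (H : Dat P m n s0 s1 k G) {v : R6} (hv : 1 / 2 < ‖v‖) :
    Tm k v ∉ Tm k '' Metric.closedBall (0 : R6) (1 / 2) := by
  rintro ⟨u, hu, huv⟩
  rw [H.Tm_inj huv] at hu
  rw [mem_closedBall_zero_iff] at hu
  linarith

theorem isCompact_Tm (H : Dat P m n s0 s1 k G) (r : ℝ) :
    IsCompact (Tm k '' Metric.closedBall (0 : R6) r) :=
  (isCompact_closedBall 0 r).image H.contDiff_Tm.continuous

end Pool.Agent.H8.SYG
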