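import Pool.Agent.H8.SYG.GDat

/-!
# Row GDiG: the diffeomorphism `g`

`g = gm P.La`, `g p = psE P.La t w` with `(t, w) = sig p`; inverse `g' z = sinv (eT z, wco z)`.
* For `p ∈ S3S3`, `p ∉ jm k '' closedBall (1/2)`: `sX0 p < 1` and `t² + ‖w‖² = (1+X0)/(1-X0) < s0`
  (`core_of_not_mem`, `sig_norm`), so `‖w‖² < s0 < s1`, `w ∈ Vc` (`Dat.deep`); `f1 t w = 0` (`sig_f1`), `Ff m n t w = 0`
  (`Ff_core`), so `g p ∈ Mfin` (`psE_Mfin`); `psE_mem`: `g p ∈ UE`, `wco (g p) = w`, `eT (g p) = t`, `sinv (t, w) = p`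
  (`sinv_sig`), so `g p ∈ Bs`.
* SmoothOn g: near such `p` the set `{q | sX0 q < 1 ∧ ‖(sig q).2‖² < s1}` is open (`sig` is continuous on the
  open set `sX0 < 1`), and `gm` is smooth on it (`contDiffOn_sig`, `contDiffOn_psE`).
* `g'` is smooth on the open set `UE` (`contDiff_sinv`, `contDiffOn_wco`).  For `z ∈ Mfin ∩ Bs`: `z = psE t w`
  (`psE_wco`, `Mfin ⊆ WS`), `Ff m n t w = 0`, `t²+‖w‖² < s0`, so `f1 t w = 0`, `g' z ∈ S3S3` (`sinv_mem`), not in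
  `jm '' closedBall` by definition of `Bs`.
* `g' (g p) = sinv (sig p) = p`; `g (g' z) = psE (sig (sinv (t, w))) = psE t w = z` (`sig_sinv`).
-/

open Set Topology
open scoped ContDiff ComplexConjugate

namespace Pool.Agent.H8.SYG

open Pool.Agent.H34.SY

variable {P : Par} {m n : ℝ → ℝ} {s0 s1 k : ℝ} {G : R6 → ℝ}

theorem GDiG_core (H : Dat P m n s0 s1 k G) {p : R4 × R4} (hp : p ∈ S3S3)
    (hn : p ∉ jm k '' Metric.closedBall (0 : R6) (1 / 2)) :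
    sX0 p < 1 ∧ ‖(sig p).2‖ ^ 2 < s1 ∧ gm P.La p ∈ P.Mfin m n ∧ gm P.La p ∈ Bs s0 k ∧
      sinv (eT (gm P.La p), wco (gm P.La p)) = p := by
  obtain ⟨h1, h2⟩ := core_of_not_mem H.s0_big H.hk hp hn
  have hN := sig_norm hp h1
  rw [← hN] at h2
  have hs := H.hp.s1_gt
  have hs0 := H.s0_pos
  have hw : ‖(sig p).2‖ ^ 2 < s1 := by nlinarith [sq_nonneg (sig p).1]
  have hV := (H.deep hw.le (sig p).1).1
  obtain ⟨a1, a2, a3, a4⟩ := psE_mem H.La_pos (sig p).1 hV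
  have hF : Ff m n (sig p).1 (sig p).2 = 0 := by
    rw [Ff_core H.hp h2.le]
    exact sig_f1 hp h1
  have hM : gm P.La p ∈ P.Mfin m n := (psE_Mfin H.La_pos m n (sig p).1 hV).mpr hF
  have e3 : wco (gm P.La p) = (sig p).2 := a3
  have e4 : eT (gm P.La p) = (sig p).1 := a4
  have e5 : sinv (eT (gm P.La p), wco (gm P.La p)) = p := by
    rw [e3, e4]
    exact sinv_sig hp h1
  refine ⟨h1, hw, hM, ⟨a2, ?_, ?_⟩, e5⟩
  · rw [e3, e4]
    exact h2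
  · rw [e5]
    exact hn

theorem GDiG_inv (H : Dat P m n s0 s1 k G) {z : EA} (h1 : z ∈ P.Mfin m n) (h2 : z ∈ Bs s0 k) :
    sinv (eT z, wco z) ∈ S3S3 ∧ sinv (eT z, wco z) ∉ jm k '' Metric.closedBall (0 : R6) (1 / 2) ∧
      gm P.La (sinv (eT z, wco z)) = z := by
  obtain ⟨hu, hs, hj⟩ := h2
  obtain ⟨hV, hz⟩ := psE_wco H.La_pos h1.1 hu
  have hF : Ff m n (eT z) (wco z) = 0 := by
    apply (psE_Mfin H.La_pos m n (eT z) hV).mp
    rw [hz]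
    exact h1
  rw [Ff_core H.hp hs.le] at hF
  refine ⟨sinv_mem hF, hj, ?_⟩
  unfold gm
  rw [sig_sinv]
  exact hz

theorem diffeo_g (H : Dat P m n s0 s1 k G) :
    IsDiffeo (S3S3 \ jm k '' Metric.closedBall (0 : R6) (1 / 2))
      (P.Mfin m n ∩ Bs s0 k) (gm P.La) := by
  have hcd : Continuous (fun p : R4 × R4 => sX0 p) := by
    have c1 : Continuous (fun p : R4 × R4 => p.1 0) := (GJ_co1 0).continuous
    have c2 : Continuous (fun p : R4 × R4 => p.2 0) := (GJ_co2 0).continuous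
    exact (c1.add c2).div_const 2
  have ho : IsOpen {p : R4 × R4 | sX0 p < 1} := isOpen_lt hcd continuous_const
  have hsm : ContDiff ℝ ∞ (fun z : EA => eT z) := contDiff_fst
  refine ⟨?_, ?_, fun z => sinv (eT z, wco z), ?_, ?_, ?_, ?_⟩
  · rintro p ⟨hp, hn⟩
    obtain ⟨h1, h2, _⟩ := GDiG_core H hp hn
    have hcs : ContinuousOn sig {p : R4 × R4 | sX0 p < 1} := contDiffOn_sig.continuousOn
    refine ⟨{p : R4 × R4 | sX0 p < 1} ∩ sig ⁻¹' {x : ℝ × R6 | ‖x.2‖ ^ 2 < s1},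
      hcs.isOpen_inter_preimage ho ?_, ⟨h1, h2⟩, gm P.La, ?_, fun _ _ => rfl⟩
    · exact isOpen_lt (continuous_snd.norm.pow 2) continuous_const
    · have hc := contDiffOn_psE H.La_pos
      refine hc.comp (contDiffOn_sig.mono inter_subset_left) ?_
      rintro q ⟨_, hq⟩
      exact ⟨mem_univ _, (H.deep (le_of_lt hq) 0).1⟩
  · rintro p ⟨hp, hn⟩
    obtain ⟨_, _, h3, h4, _⟩ := GDiG_core H hp hn
    exact ⟨h3, h4⟩
  · rintro z ⟨_, hz⟩
    refine ⟨UE, isOpen_UE, hz.1, _, ?_, fun _ _ => rfl⟩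
    exact contDiff_sinv.comp_contDiffOn (hsm.contDiffOn.prodMk contDiffOn_wco)
  · rintro z ⟨h1, h2⟩
    obtain ⟨a, b, _⟩ := GDiG_inv H h1 h2
    exact ⟨a, b⟩
  · rintro p ⟨hp, hn⟩
    exact (GDiG_core H hp hn).2.2.2.2
  · rintro z ⟨h1, h2⟩
    exact (GDiG_inv H h1 h2).2.2

/-- The inverse of `g`. -/
theorem gm_sinv (H : Dat P m n s0 s1 k G) {z : EA} (h1 : z ∈ P.Mfin m n) (h2 : z ∈ Bs s0 k) :
    sinv (eT z, wco z) ∈ S3S3 ∧ sinv (eT z, wco z) ∉ jm k '' Metric.closedBall (0 : R6) (1 / 2) ∧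
      gm P.La (sinv (eT z, wco z)) = z := by
  exact GDiG_inv H h1 h2

end Pool.Agent.H8.SYG
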