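import Pool.Agent.H8.SYG.Defs

/-!
# Row GImp: implicit function theorem for one real unknown

At a zero `(t0, w0)` of `F` in `Ω` consider `Φ (t, w) = (F (t, w), w)`; it is smooth near `(t0, w0)` and
its derivative `(a, b) ↦ (DF (a, b), b)` is bijective because `DF (1, 0) ≠ 0` (inverse
`(c, b) ↦ ((c - DF (0, b)) / DF (1, 0), b)`).  By the inverse function theorem
(`ContDiffAt.toOpenPartialHomeomorph`, `ContDiffAt.to_localInverse`, or `HasStrictFDerivAt.to_localInverse`)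
there is a smooth local inverse `Ψ`; put `g w = (Ψ (0, w)).1`: `g` is smooth near `w0`, `g w0 = t0`,
and for `w` near `w0`: `(g w, w) ∈ Ω` and `F (g w, w) = 0` (since `Φ (Ψ (0, w)) = (0, w)`).  So the set of
`w` is a neighbourhood of `w0` (openness), and by uniqueness `G = g` near `w0`, so `G` is smooth at
`w0` (`ContDiffAt.congr_of_eventuallyEq`).
-/

open Set Topology
open scoped ContDiff ComplexConjugate

namespace Pool.Agent.H8.SYG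

theorem GImp_local {E : Type} [NormedAddCommGroup E] [NormedSpace ℝ E]
    [FiniteDimensional ℝ E] {Ω : Set (ℝ × E)} (hΩ : IsOpen Ω) {F : ℝ × E → ℝ}
    (hF : ContDiffOn ℝ ∞ F Ω) (t0 : ℝ) (w0 : E) (hp : (t0, w0) ∈ Ω) (h0 : F (t0, w0) = 0)
    (hd : fderiv ℝ F (t0, w0) (1, 0) ≠ 0) :
    ∃ g : E → ℝ, ContDiffAt ℝ ∞ g w0 ∧ ∀ᶠ w in 𝓝 w0, (g w, w) ∈ Ω ∧ F (g w, w) = 0 := by
  have : CompleteSpace E := FiniteDimensional.complete ℝ E
  obtain ⟨L, hL⟩ : ∃ L, L = fderiv ℝ F (t0, w0) := ⟨_, rfl⟩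
  have hFa : ContDiffAt ℝ ∞ F (t0, w0) := hF.contDiffAt (hΩ.mem_nhds hp)
  have hn : (∞ : WithTop ℕ∞) ≠ 0 := by simp
  have hFd : HasFDerivAt F L (t0, w0) := by
    rw [hL]
    exact (hFa.differentiableAt hn).hasFDerivAt
  rw [← hL] at hd
  have hlin : ∀ (a : ℝ) (b : E), L (a, b) = a * L (1, 0) + L (0, b) := by
    intro a b
    have h1 : ((a, b) : ℝ × E) = a • ((1, 0) : ℝ × E) + ((0, b) : ℝ × E) := by
      ext <;> simp
    rw [h1, map_add, map_smul, smul_eq_mul]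
  let A : ℝ × E →L[ℝ] ℝ × E := L.prod (ContinuousLinearMap.snd ℝ ℝ E)
  let B : ℝ × E →L[ℝ] ℝ × E :=
    ((L (1, 0))⁻¹ • (ContinuousLinearMap.fst ℝ ℝ E - L.comp ((0 : ℝ × E →L[ℝ] ℝ).prod
      (ContinuousLinearMap.snd ℝ ℝ E)))).prod (ContinuousLinearMap.snd ℝ ℝ E)
  have hAB : Function.LeftInverse B A := by
    rintro ⟨a, b⟩
    change ((L (1, 0))⁻¹ * (L (a, b) - L (0, b)), b) = (a, b)
    rw [hlin a b]
    congr 1
    field_simp
    ring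
  have hBA : Function.RightInverse B A := by
    rintro ⟨a, b⟩
    change (L ((L (1, 0))⁻¹ * (a - L (0, b)), b), b) = (a, b)
    rw [hlin]
    congr 1
    field_simp
    ring
  let e : (ℝ × E) ≃L[ℝ] (ℝ × E) := ContinuousLinearEquiv.equivOfInverse A B hAB hBA
  have hΦ : ContDiffAt ℝ ∞ (fun p : ℝ × E => (F p, p.2)) (t0, w0) := hFa.prodMk contDiffAt_snd
  have hΦ' : HasFDerivAt (fun p : ℝ × E => (F p, p.2)) (e : ℝ × E →L[ℝ] ℝ × E) (t0, w0) :=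
    hFd.prodMk hasFDerivAt_snd
  have hι : Continuous (fun w : E => ((0 : ℝ), w)) := by fun_prop
  have himg : ((0 : ℝ), w0) = (fun p : ℝ × E => (F p, p.2)) (t0, w0) := by
    change ((0 : ℝ), w0) = (F (t0, w0), w0)
    rw [h0]
  obtain ⟨Ψ, hΨdef⟩ : ∃ Ψ, Ψ = hΦ.localInverse hΦ' hn := ⟨_, rfl⟩
  have hΨ : ContDiffAt ℝ ∞ Ψ ((0 : ℝ), w0) := by
    rw [himg, hΨdef]
    exact hΦ.to_localInverse hΦ' hn
  have hΨ0 : Ψ ((0 : ℝ), w0) = (t0, w0) := by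
    rw [himg, hΨdef]
    exact hΦ.localInverse_apply_image hΦ' hn
  have hright : ∀ᶠ y in 𝓝 ((0 : ℝ), w0), (F (Ψ y), (Ψ y).2) = y := by
    rw [himg, hΨdef]
    exact (hΦ.hasStrictFDerivAt' hΦ' hn).eventually_right_inverse
  have hcont : Filter.Tendsto (fun w : E => ((0 : ℝ), w)) (𝓝 w0) (𝓝 ((0 : ℝ), w0)) :=
    hι.tendsto w0
  refine ⟨fun w => (Ψ ((0 : ℝ), w)).1, ?_, ?_⟩
  · have h1 : ContDiffAt ℝ ∞ (fun w : E => Ψ ((0 : ℝ), w)) w0 :=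
      ContDiffAt.comp w0 (g := Ψ) (f := fun w : E => ((0 : ℝ), w)) hΨ
        (contDiffAt_const.prodMk contDiffAt_id)
    exact h1.fst
  · have hmem : ∀ᶠ y in 𝓝 ((0 : ℝ), w0), Ψ y ∈ Ω := by
      have h1 : Filter.Tendsto Ψ (𝓝 ((0 : ℝ), w0)) (𝓝 (t0, w0)) := by
        have := hΨ.continuousAt.tendsto
        rwa [hΨ0] at this
      exact h1 (hΩ.mem_nhds hp)
    filter_upwards [hcont.eventually hright, hcont.eventually hmem] with w h1 h2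
    have h3 : (Ψ ((0 : ℝ), w)).2 = w := congrArg Prod.snd h1
    have h4 : F (Ψ ((0 : ℝ), w)) = 0 := congrArg Prod.fst h1
    have h5 : ((Ψ ((0 : ℝ), w)).1, w) = Ψ ((0 : ℝ), w) := by
      ext
      · rfl
      · exact h3.symm
    rw [h5]
    exact ⟨h2, h4⟩

theorem implicit_scalar {E : Type} [NormedAddCommGroup E] [NormedSpace ℝ E]
    [FiniteDimensional ℝ E] {Ω : Set (ℝ × E)} (hΩ : IsOpen Ω) {F : ℝ × E → ℝ}
    (hF : ContDiffOn ℝ ∞ F Ω) (hd : ∀ p ∈ Ω, F p = 0 → fderiv ℝ F p (1, 0) ≠ 0)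
    (hu : ∀ t t' w, (t, w) ∈ Ω → (t', w) ∈ Ω → F (t, w) = 0 → F (t', w) = 0 → t = t') :
    IsOpen {w : E | ∃ t, (t, w) ∈ Ω ∧ F (t, w) = 0} ∧
      ∀ G : E → ℝ, (∀ w, (∃ t, (t, w) ∈ Ω ∧ F (t, w) = 0) → (G w, w) ∈ Ω ∧ F (G w, w) = 0) →
        ContDiffOn ℝ ∞ G {w : E | ∃ t, (t, w) ∈ Ω ∧ F (t, w) = 0} := by
  constructor
  · rw [isOpen_iff_mem_nhds]
    rintro w0 ⟨t0, hp, h0⟩
    obtain ⟨g, _, hg⟩ := GImp_local hΩ hF t0 w0 hp h0 (hd _ hp h0)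
    filter_upwards [hg] with w hw
    exact ⟨g w, hw⟩
  · intro G hG w0 hw0
    obtain ⟨t0, hp, h0⟩ := hw0
    obtain ⟨g, hg1, hg2⟩ := GImp_local hΩ hF t0 w0 hp h0 (hd _ hp h0)
    apply ContDiffAt.contDiffWithinAt
    refine hg1.congr_of_eventuallyEq ?_
    filter_upwards [hg2] with w hw
    have h1 := hG w ⟨g w, hw⟩
    exact hu _ _ w h1.1 hw.1 h1.2 hw.2

end Pool.Agent.H8.SYG
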