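import Pool.Agent.H8.SYG.GSte

/-!
# Row GJ: the chart `j` of `S³ × S³`

`al w + be w = 2 ‖w‖²`, both `≥ 0` (expand `‖w‖²` with `EuclideanSpace.real_norm_sq_eq`, `Fin.sum_univ_six`).
* jm_mem: `‖a‖² = (1 - k² al) + k² (w0+w1)² + 2 k² (w4²+w5²) = 1` (`Real.sq_sqrt`, the radicand is `≥ 0`
  because `k² al ≤ 2 k² ‖w‖² ≤ 1`); same for `b`.
* Xw_jm, sX0_jm: by definition.
* jm_of_mem: for `p ∈ S3S3` and `w = k⁻¹ • Xw p`: `k (w0 + w1) = a1`, `√2 (k w4) = a2`, ...,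
  `k² al w = a1² + a2² + a3² = 1 - a0²`, so `√(1 - k² al w) = |a0| = a0`.
* chart_j: `w ∈ ball 0 2`: `2 k² ‖w‖² ≤ 8/40000 < 1`, smooth since the radicands are `> 0`
  (`Real.contDiffAt_sqrt` / `ContDiffOn.sqrt`); `Xw (jm k w) = k • w` has norm `< 2 k`.
* core_of_not_mem: `k² = 25/s0`.  Let `p ∈ S3S3`.  If `0 < a0`, `0 < b0` and `‖Xw p‖ ≤ k/2` then
  `p = jm k (k⁻¹ • Xw p)` is in `jm k '' closedBall 0 (1/2)`.  So one of
  (i) `a0 ≤ 0` or `b0 ≤ 0`: `X0 ≤ 1/2`, `(1+X0)/(1-X0) ≤ 3 < s0`;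
  (ii) `a0, b0 > 0`, `‖Xw p‖² > k²/4 = 25/(4 s0)`, where `‖Xw p‖² = (2 - a0² - b0²)/2` (nsq_Xw) and
  `1 - X0 = (2 - a0 - b0)/2 ≥ (2 - a0² - b0²)/4` (as `(1-a0)(1+a0) ≤ 2 (1-a0)`), so `1 - X0 > 25/(8 s0)` and
  `(1+X0)/(1-X0) ≤ 2/(1-X0) - 1 < 16 s0/25 < s0`.  In both cases `X0 < 1`.
* jm is continuous everywhere (`√` is continuous), closed balls of `R6` are compact.
-/

open Set Topology
open scoped ContDiff ComplexConjugate

namespace Pool.Agent.H8.SYG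

open Pool.Agent.H34.SY

theorem al_nonneg (w : R6) : 0 ≤ al w := by
  unfold al
  positivity

theorem be_nonneg (w : R6) : 0 ≤ be w := by
  unfold be
  positivity

theorem GJ_norm6 (w : R6) :
    ‖w‖ ^ 2 = w 0 ^ 2 + w 1 ^ 2 + w 2 ^ 2 + w 3 ^ 2 + w 4 ^ 2 + w 5 ^ 2 := by
  rw [EuclideanSpace.real_norm_sq_eq, Fin.sum_univ_six]

theorem GJ_norm4 (a : R4) : ‖a‖ ^ 2 = a 0 ^ 2 + a 1 ^ 2 + a 2 ^ 2 + a 3 ^ 2 := by
  rw [EuclideanSpace.real_norm_sq_eq, Fin.sum_univ_four]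

theorem GJ_norm_one (a : R4) : ‖a‖ = 1 ↔ a 0 ^ 2 + a 1 ^ 2 + a 2 ^ 2 + a 3 ^ 2 = 1 := by
  rw [← GJ_norm4]
  constructor
  · intro h
    rw [h, one_pow]
  · intro h
    have h0 := norm_nonneg a
    nlinarith

theorem GJ_mem (p : R4 × R4) : p ∈ S3S3 ↔
    p.1 0 ^ 2 + p.1 1 ^ 2 + p.1 2 ^ 2 + p.1 3 ^ 2 = 1 ∧
      p.2 0 ^ 2 + p.2 1 ^ 2 + p.2 2 ^ 2 + p.2 3 ^ 2 = 1 := by
  show (‖p.1‖ = 1 ∧ ‖p.2‖ = 1) ↔ _
  rw [GJ_norm_one, GJ_norm_one]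

theorem al_add_be (w : R6) : al w + be w = 2 * ‖w‖ ^ 2 := by
  rw [GJ_norm6]
  unfold al be
  ring

theorem GJ_al_le (w : R6) : al w ≤ 2 * ‖w‖ ^ 2 := by
  have h1 := al_add_be w
  have h2 := be_nonneg w
  linarith

theorem GJ_be_le (w : R6) : be w ≤ 2 * ‖w‖ ^ 2 := by
  have h1 := al_add_be w
  have h2 := al_nonneg w
  linarith

theorem GJ_sqrt2 : √(2 : ℝ) ^ 2 = 2 := Real.sq_sqrt zero_le_two

theorem GJ_sqrt2_ne : √(2 : ℝ) ≠ 0 := by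
  intro h
  have h1 := GJ_sqrt2
  rw [h] at h1
  norm_num at h1

theorem jm_mem {k : ℝ} {w : R6} (h : k ^ 2 * (2 * ‖w‖ ^ 2) ≤ 1) : jm k w ∈ S3S3 := by
  rw [GJ_mem]
  have hk := sq_nonneg k
  have h1 : 0 ≤ 1 - k ^ 2 * al w := by
    have := mul_le_mul_of_nonneg_left (GJ_al_le w) hk
    linarith
  have h2 : 0 ≤ 1 - k ^ 2 * be w := by
    have := mul_le_mul_of_nonneg_left (GJ_be_le w) hk
    linarith
  constructor
  · show √(1 - k ^ 2 * al w) ^ 2 + (k * (w 0 + w 1)) ^ 2 + (√2 * (k * w 4)) ^ 2 +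
      (√2 * (k * w 5)) ^ 2 = 1
    rw [Real.sq_sqrt h1, mul_pow √2, mul_pow √2, GJ_sqrt2]
    unfold al
    ring
  · show √(1 - k ^ 2 * be w) ^ 2 + (k * (w 0 - w 1)) ^ 2 + (√2 * (k * w 2)) ^ 2 +
      (√2 * (k * w 3)) ^ 2 = 1
    rw [Real.sq_sqrt h2, mul_pow √2, mul_pow √2, GJ_sqrt2]
    unfold be
    ring

theorem Xw_jm (k : ℝ) (w : R6) : Xw (jm k w) = k • w := by
  ext i
  fin_cases i
  · show (k * (w 0 + w 1) + k * (w 0 - w 1)) / 2 = k * w 0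
    ring
  · show (k * (w 0 + w 1) - k * (w 0 - w 1)) / 2 = k * w 1
    ring
  · show √2 * (k * w 2) / √2 = k * w 2
    rw [mul_div_cancel_left₀ _ GJ_sqrt2_ne]
  · show √2 * (k * w 3) / √2 = k * w 3
    rw [mul_div_cancel_left₀ _ GJ_sqrt2_ne]
  · show √2 * (k * w 4) / √2 = k * w 4
    rw [mul_div_cancel_left₀ _ GJ_sqrt2_ne]
  · show √2 * (k * w 5) / √2 = k * w 5
    rw [mul_div_cancel_left₀ _ GJ_sqrt2_ne]

theorem sX0_jm (k : ℝ) (w : R6) : sX0 (jm k w) = x0 k w := rfl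

theorem al_of_mem {k : ℝ} (hk : 0 < k) {p : R4 × R4} (hp : p ∈ S3S3) :
    k ^ 2 * al (k⁻¹ • Xw p) = 1 - p.1 0 ^ 2 ∧ k ^ 2 * be (k⁻¹ • Xw p) = 1 - p.2 0 ^ 2 := by
  rw [GJ_mem] at hp
  have hk' : k ≠ 0 := hk.ne'
  have h2 := GJ_sqrt2
  have h2' := GJ_sqrt2_ne
  constructor
  · show k ^ 2 * ((k⁻¹ * ((p.1 1 + p.2 1) / 2) + k⁻¹ * ((p.1 1 - p.2 1) / 2)) ^ 2 +
      2 * ((k⁻¹ * (p.1 2 / √2)) ^ 2 + (k⁻¹ * (p.1 3 / √2)) ^ 2)) = 1 - p.1 0 ^ 2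
    have h3 : k ^ 2 * ((k⁻¹ * ((p.1 1 + p.2 1) / 2) + k⁻¹ * ((p.1 1 - p.2 1) / 2)) ^ 2 +
      2 * ((k⁻¹ * (p.1 2 / √2)) ^ 2 + (k⁻¹ * (p.1 3 / √2)) ^ 2)) =
        (k * k⁻¹) ^ 2 * (p.1 1 ^ 2 + 2 * (p.1 2 ^ 2 / √2 ^ 2 + p.1 3 ^ 2 / √2 ^ 2)) := by
      rw [← div_pow, ← div_pow]
      ring
    rw [h3, h2, mul_inv_cancel₀ hk']
    linarith [hp.1]
  · show k ^ 2 * ((k⁻¹ * ((p.1 1 + p.2 1) / 2) - k⁻¹ * ((p.1 1 - p.2 1) / 2)) ^ 2 +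
      2 * ((k⁻¹ * (p.2 2 / √2)) ^ 2 + (k⁻¹ * (p.2 3 / √2)) ^ 2)) = 1 - p.2 0 ^ 2
    have h3 : k ^ 2 * ((k⁻¹ * ((p.1 1 + p.2 1) / 2) - k⁻¹ * ((p.1 1 - p.2 1) / 2)) ^ 2 +
      2 * ((k⁻¹ * (p.2 2 / √2)) ^ 2 + (k⁻¹ * (p.2 3 / √2)) ^ 2)) =
        (k * k⁻¹) ^ 2 * (p.2 1 ^ 2 + 2 * (p.2 2 ^ 2 / √2 ^ 2 + p.2 3 ^ 2 / √2 ^ 2)) := by
      rw [← div_pow, ← div_pow]
      ring
    rw [h3, h2, mul_inv_cancel₀ hk']
    linarith [hp.2]

theorem jm_of_mem {k : ℝ} (hk : 0 < k) {p : R4 × R4} (hp : p ∈ S3S3) (h1 : 0 ≤ p.1 0)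
    (h2 : 0 ≤ p.2 0) : jm k (k⁻¹ • Xw p) = p := by
  obtain ⟨ha, hb⟩ := al_of_mem hk hp
  have hk' : k ≠ 0 := hk.ne'
  have hs : ∀ x : ℝ, √2 * (k * (k⁻¹ * (x / √2))) = x := by
    intro x
    have h2' := GJ_sqrt2_ne
    field_simp
  refine Prod.ext ?_ ?_
  · ext i
    fin_cases i
    · show √(1 - k ^ 2 * al (k⁻¹ • Xw p)) = p.1 0
      rw [ha, sub_sub_cancel, Real.sqrt_sq h1]
    · show k * (k⁻¹ * ((p.1 1 + p.2 1) / 2) + k⁻¹ * ((p.1 1 - p.2 1) / 2)) = p.1 1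
      have h3 : k * (k⁻¹ * ((p.1 1 + p.2 1) / 2) + k⁻¹ * ((p.1 1 - p.2 1) / 2)) =
        (k * k⁻¹) * p.1 1 := by ring
      rw [h3, mul_inv_cancel₀ hk', one_mul]
    · exact hs (p.1 2)
    · exact hs (p.1 3)
  · ext i
    fin_cases i
    · show √(1 - k ^ 2 * be (k⁻¹ • Xw p)) = p.2 0
      rw [hb, sub_sub_cancel, Real.sqrt_sq h2]
    · show k * (k⁻¹ * ((p.1 1 + p.2 1) / 2) - k⁻¹ * ((p.1 1 - p.2 1) / 2)) = p.2 1
      have h3 : k * (k⁻¹ * ((p.1 1 + p.2 1) / 2) - k⁻¹ * ((p.1 1 - p.2 1) / 2)) =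
        (k * k⁻¹) * p.2 1 := by ring
      rw [h3, mul_inv_cancel₀ hk', one_mul]
    · exact hs (p.2 2)
    · exact hs (p.2 3)

theorem GJ_co1 (i : Fin 4) : ContDiff ℝ ∞ (fun p : R4 × R4 => p.1 i) :=
  (contDiff_euclidean.1 contDiff_fst) i

theorem GJ_co2 (i : Fin 4) : ContDiff ℝ ∞ (fun p : R4 × R4 => p.2 i) :=
  (contDiff_euclidean.1 contDiff_snd) i

theorem GJ_co6 (i : Fin 6) : ContDiff ℝ ∞ (fun w : R6 => w i) :=
  (contDiff_euclidean.1 contDiff_id) i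

theorem GJ_Xw : ContDiff ℝ ∞ Xw := by
  rw [contDiff_euclidean]
  intro i
  fin_cases i
  · exact ((GJ_co1 1).add (GJ_co2 1)).div_const 2
  · exact ((GJ_co1 1).sub (GJ_co2 1)).div_const 2
  · exact (GJ_co2 2).div_const √2
  · exact (GJ_co2 3).div_const √2
  · exact (GJ_co1 2).div_const √2
  · exact (GJ_co1 3).div_const √2

theorem GJ_al : ContDiff ℝ ∞ al :=
  ((((GJ_co6 0).add (GJ_co6 1)).pow 2).add
    (contDiff_const.mul (((GJ_co6 4).pow 2).add ((GJ_co6 5).pow 2))))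

theorem GJ_be : ContDiff ℝ ∞ be :=
  ((((GJ_co6 0).sub (GJ_co6 1)).pow 2).add
    (contDiff_const.mul (((GJ_co6 2).pow 2).add ((GJ_co6 3).pow 2))))

theorem GJ_pos {k : ℝ} (hk : 0 < k) (hk2 : k ≤ 1 / 200) {w : R6}
    (hw : w ∈ Metric.ball (0 : R6) 2) : k ^ 2 * (2 * ‖w‖ ^ 2) < 1 := by
  rw [mem_ball_zero_iff] at hw
  have h1 : ‖w‖ ^ 2 ≤ 2 ^ 2 := pow_le_pow_left₀ (norm_nonneg w) hw.le 2
  have h2 : k ^ 2 ≤ (1 / 200) ^ 2 := pow_le_pow_left₀ hk.le hk2 2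
  have h3 : k ^ 2 * (2 * ‖w‖ ^ 2) ≤ (1 / 200) ^ 2 * (2 * 2 ^ 2) :=
    mul_le_mul h2 (by linarith) (by positivity) (by positivity)
  refine lt_of_le_of_lt h3 ?_
  norm_num

theorem GJ_pos_al {k : ℝ} (hk : 0 < k) (hk2 : k ≤ 1 / 200) {w : R6}
    (hw : w ∈ Metric.ball (0 : R6) 2) : 0 < 1 - k ^ 2 * al w := by
  have h1 := GJ_pos hk hk2 hw
  have h2 := mul_le_mul_of_nonneg_left (GJ_al_le w) (sq_nonneg k)
  linarith

theorem GJ_pos_be {k : ℝ} (hk : 0 < k) (hk2 : k ≤ 1 / 200) {w : R6}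
    (hw : w ∈ Metric.ball (0 : R6) 2) : 0 < 1 - k ^ 2 * be w := by
  have h1 := GJ_pos hk hk2 hw
  have h2 := mul_le_mul_of_nonneg_left (GJ_be_le w) (sq_nonneg k)
  linarith

theorem GJ_smooth {k : ℝ} (hk : 0 < k) (hk2 : k ≤ 1 / 200) :
    ContDiffOn ℝ ∞ (jm k) (Metric.ball (0 : R6) 2) := by
  have hA : ContDiff ℝ ∞ (fun w : R6 => 1 - k ^ 2 * al w) :=
    contDiff_const.sub (contDiff_const.mul GJ_al)
  have hB : ContDiff ℝ ∞ (fun w : R6 => 1 - k ^ 2 * be w) :=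
    contDiff_const.sub (contDiff_const.mul GJ_be)
  refine ContDiffOn.prodMk ?_ ?_
  · rw [contDiffOn_euclidean]
    intro i
    fin_cases i
    · exact hA.contDiffOn.sqrt (fun w hw => (GJ_pos_al hk hk2 hw).ne')
    · exact (contDiff_const.mul ((GJ_co6 0).add (GJ_co6 1))).contDiffOn
    · exact (contDiff_const.mul (contDiff_const.mul (GJ_co6 4))).contDiffOn
    · exact (contDiff_const.mul (contDiff_const.mul (GJ_co6 5))).contDiffOn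
  · rw [contDiffOn_euclidean]
    intro i
    fin_cases i
    · exact hB.contDiffOn.sqrt (fun w hw => (GJ_pos_be hk hk2 hw).ne')
    · exact (contDiff_const.mul ((GJ_co6 0).sub (GJ_co6 1))).contDiffOn
    · exact (contDiff_const.mul (contDiff_const.mul (GJ_co6 2))).contDiffOn
    · exact (contDiff_const.mul (contDiff_const.mul (GJ_co6 3))).contDiffOn

theorem chart_j {k : ℝ} (hk : 0 < k) (hk2 : k ≤ 1 / 200) :
    IsChart S3S3 {p : R4 × R4 | 0 < p.1 0 ∧ 0 < p.2 0 ∧ ‖Xw p‖ < 2 * k} (Metric.ball (0 : R6) 2)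
      (fun p => k⁻¹ • Xw p) (jm k) where
  isOpen_U := by
    refine IsOpen.inter ?_ (IsOpen.inter ?_ ?_)
    · exact isOpen_lt continuous_const (GJ_co1 0).continuous
    · exact isOpen_lt continuous_const (GJ_co2 0).continuous
    · exact isOpen_lt GJ_Xw.continuous.norm continuous_const
  isOpen_V := Metric.isOpen_ball
  smooth_ρ := by
    have h : ContDiff ℝ ∞ (fun p : R4 × R4 => k⁻¹ • Xw p) :=
      (contDiff_const_smul k⁻¹).comp GJ_Xw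
    exact h.contDiffOn
  smooth_ψ := GJ_smooth hk hk2
  maps_ρ := by
    rintro z ⟨_, _, _, h⟩
    rw [mem_ball_zero_iff, norm_smul, Real.norm_eq_abs, abs_of_pos (inv_pos.2 hk),
      inv_mul_lt_iff₀ hk]
    linarith
  maps_ψ := by
    intro v hv
    refine ⟨jm_mem (GJ_pos hk hk2 hv).le, Real.sqrt_pos.2 (GJ_pos_al hk hk2 hv),
      Real.sqrt_pos.2 (GJ_pos_be hk hk2 hv), ?_⟩
    rw [Xw_jm, norm_smul, Real.norm_eq_abs, abs_of_pos hk, mul_comm]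
    rw [mem_ball_zero_iff] at hv
    exact mul_lt_mul_of_pos_right hv hk
  left_inv := by
    rintro z ⟨hz, h1, h2, _⟩
    exact jm_of_mem hk hz h1.le h2.le
  right_inv := by
    intro v _
    show k⁻¹ • Xw (jm k v) = v
    rw [Xw_jm, smul_smul, inv_mul_cancel₀ hk.ne', one_smul]

theorem core_of_not_mem {s0 k : ℝ} (hs : 10 ^ 6 ≤ s0) (hk : k = 5 / √s0) {p : R4 × R4}
    (hp : p ∈ S3S3) (hn : p ∉ jm k '' Metric.closedBall (0 : R6) (1 / 2)) :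
    sX0 p < 1 ∧ (1 + sX0 p) / (1 - sX0 p) < s0 := by
  have hs0 : 0 < s0 := by linarith [hs, show (0 : ℝ) < 10 ^ 6 by norm_num]
  have hs1 : (10 : ℝ) ^ 6 = 1000000 := by norm_num
  have hk0 : 0 < k := by
    rw [hk]
    exact div_pos (by norm_num) (Real.sqrt_pos.2 hs0)
  have hksq : k ^ 2 = 25 / s0 := by
    rw [hk, div_pow, Real.sq_sqrt hs0.le]
    norm_num
  obtain ⟨m1, m2⟩ := (GJ_mem p).1 hp
  have ha : p.1 0 ≤ 1 := by nlinarith [sq_nonneg (p.1 1), sq_nonneg (p.1 2), sq_nonneg (p.1 3)]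
  have hb : p.2 0 ≤ 1 := by nlinarith [sq_nonneg (p.2 1), sq_nonneg (p.2 2), sq_nonneg (p.2 3)]
  have hX : sX0 p = (p.1 0 + p.2 0) / 2 := rfl
  by_cases hc : 0 < p.1 0 ∧ 0 < p.2 0
  · obtain ⟨h1, h2⟩ := hc
    have hnot : ¬ ‖k⁻¹ • Xw p‖ ≤ 1 / 2 := by
      intro hle
      exact hn ⟨k⁻¹ • Xw p, mem_closedBall_zero_iff.2 hle, jm_of_mem hk0 hp h1.le h2.le⟩
    rw [not_le, norm_smul, Real.norm_eq_abs, abs_of_pos (inv_pos.2 hk0),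
      lt_inv_mul_iff₀ hk0] at hnot
    have h3 : (k * (1 / 2)) ^ 2 < ‖Xw p‖ ^ 2 := pow_lt_pow_left₀ hnot (by positivity) two_ne_zero
    rw [nsq_Xw hp, mul_pow, hksq] at h3
    have h4 : 1 - (p.1 0 ^ 2 + p.2 0 ^ 2) / 2 ≤ 2 * (1 - sX0 p) := by
      rw [hX]
      nlinarith [sq_nonneg (1 - p.1 0), sq_nonneg (1 - p.2 0)]
    have h5 : 25 / s0 * (1 / 2) ^ 2 < 2 * (1 - sX0 p) := lt_of_lt_of_le h3 h4
    have h6 : 25 / s0 * (1 / 2) ^ 2 * s0 < 2 * (1 - sX0 p) * s0 := mul_lt_mul_of_pos_right h5 hs0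
    have h7 : 25 / s0 * (1 / 2) ^ 2 * s0 = 25 / 4 := by
      field_simp
      norm_num
    rw [h7] at h6
    have h8 : 0 < 25 / s0 * (1 / 2) ^ 2 := by positivity
    have h9 : 0 < 1 - sX0 p := by linarith
    refine ⟨by linarith, ?_⟩
    rw [div_lt_iff₀ h9]
    linarith
  · have h1 : sX0 p ≤ 1 / 2 := by
      rw [hX]
      rcases not_and_or.1 hc with h | h
      · have := not_lt.1 h
        linarith
      · have := not_lt.1 h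
        linarith
    have h9 : 0 < 1 - sX0 p := by linarith
    refine ⟨by linarith, ?_⟩
    rw [div_lt_iff₀ h9]
    nlinarith

theorem GJ_cont (k : ℝ) : Continuous (jm k) := by
  refine Continuous.prodMk ?_ ?_
  · refine (PiLp.continuous_toLp 2 _).comp (continuous_pi (fun i => ?_))
    fin_cases i
    · exact (continuous_const.sub (continuous_const.mul GJ_al.continuous)).sqrt
    · exact continuous_const.mul ((GJ_co6 0).continuous.add (GJ_co6 1).continuous)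
    · exact continuous_const.mul (continuous_const.mul (GJ_co6 4).continuous)
    · exact continuous_const.mul (continuous_const.mul (GJ_co6 5).continuous)
  · refine (PiLp.continuous_toLp 2 _).comp (continuous_pi (fun i => ?_))
    fin_cases i
    · exact (continuous_const.sub (continuous_const.mul GJ_be.continuous)).sqrt
    · exact continuous_const.mul ((GJ_co6 0).continuous.sub (GJ_co6 1).continuous)
    · exact continuous_const.mul (continuous_const.mul (GJ_co6 2).continuous)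
    · exact continuous_const.mul (continuous_const.mul (GJ_co6 3).continuous)

theorem isCompact_jm (k r : ℝ) : IsCompact (jm k '' Metric.closedBall (0 : R6) r) :=
  (isCompact_closedBall 0 r).image (GJ_cont k)

end Pool.Agent.H8.SYG
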