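import Pool.Agent.H8.SYG.GDat

/-!
# Row GKc: the open sets `A = (Kc)ᶜ` and `B = Bs`

`t = eT z`, `w = wco z`.  Common facts: `GDat.lean` (`Dat...`).
* isCompact_Kc: `Kc` is the image under `(t, w) ↦ psE P.La t w` of
  `S = {(t, w) | |t| ≤ s1 + s0, w ∈ Tm k '' closedBall 0 (1/2), Ff m n t w = 0}`: a closed subset of the compact set
  `Icc _ _ ×ˢ (Tm k '' closedBall 0 (1/2))` (`isCompact_Tm`, `contDiff_Ff`).  `psE` is continuous on `S`
  (`contDiffOn_psE`, `‖w‖² ≤ s0/25 ≤ s1` gives `w ∈ Vc` by `Dat.deep`).  Equality of sets: `psE_wco`, `psE_Mfin`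
  (points of `Mfin` are in `WS`), `zero_bdd`, `psE_mem`.
* isOpen_Bs: `UE` open (`isOpen_UE`), `wco` continuous on it (`contDiffOn_wco`), `sinv` continuous
  (`contDiff_sinv`), `jm k '' closedBall` closed (`isCompact_jm`): `ContinuousOn.isOpen_inter_preimage`.
* cover: let `z ∈ Kc`; `z ∈ UE`, `w = Tm k v`, `‖v‖ ≤ 1/2`, `‖w‖² ≤ s0/25` (`Dat.norm_Tm_half`), `Ff m n t w = 0`,
  `|t| < 2` (`zero_small`), `t² + ‖w‖² < 4 + s0/25 < s0`.  If `sinv (t, w) = jm k w'` with `‖w'‖ ≤ 1/2`: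
  `w' = 0` is impossible since `sX0 (jm k 0) = x0 k 0 = 1` but `sX0 (sinv _) < 1` (`sX0_sinv_lt`); if `w' ≠ 0`, then
  `(sig (jm k w')).2 = (sig (sinv (t, w))).2 = w ∈ Tm k '' closedBall 0 (1/2)`, against `sig_jm_not_mem`.
-/

open Set Topology
open scoped ContDiff ComplexConjugate

namespace Pool.Agent.H8.SYG

open Pool.Agent.H34.SY

variable {P : Par} {m n : ℝ → ℝ} {s0 s1 k : ℝ} {G : R6 → ℝ}

theorem GKc_s1 (H : Dat P m n s0 s1 k G) {w : R6} (hw : ‖w‖ ^ 2 ≤ s0 / 25) : ‖w‖ ^ 2 ≤ s1 := by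
  have h1 := H.s0_pos
  have h2 := H.hp.s1_gt
  linarith

theorem GKc_norm (H : Dat P m n s0 s1 k G) {w : R6}
    (hw : w ∈ Tm k '' Metric.closedBall (0 : R6) (1 / 2)) : ‖w‖ ^ 2 ≤ s0 / 25 := by
  obtain ⟨v, hv, rfl⟩ := hw
  exact H.norm_Tm_half (mem_closedBall_zero_iff.1 hv)

theorem isCompact_Kc (H : Dat P m n s0 s1 k G) : IsCompact (Kc P m n k) := by
  set S : Set (ℝ × R6) := (Icc (-(s1 + s0)) (s1 + s0) ×ˢ (Tm k '' Metric.closedBall (0 : R6) (1 / 2))) ∩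
    {p | Ff m n p.1 p.2 = 0} with hS
  have hSc : IsCompact S := (isCompact_Icc.prod (isCompact_Tm H _)).inter_right
    (isClosed_eq (contDiff_Ff H.hp).continuous continuous_const)
  have hV : ∀ p ∈ S, p.2 ∈ Vc P.La := fun p hp =>
    (H.deep (GKc_s1 H (GKc_norm H hp.1.2)) 0).1
  have hcont : ContinuousOn (fun p : ℝ × R6 => psE P.La p.1 p.2) S :=
    (contDiffOn_psE H.La_pos).continuousOn.mono fun p hp => ⟨mem_univ _, hV p hp⟩
  have hEq : Kc P m n k = (fun p : ℝ × R6 => psE P.La p.1 p.2) '' S := by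
    ext z
    constructor
    · rintro ⟨hz, hu, hw⟩
      obtain ⟨h1, h2⟩ := psE_wco H.La_pos hz.1 hu
      have h3 : Ff m n (eT z) (wco z) = 0 := by
        rw [← psE_Mfin H.La_pos m n (eT z) h1, h2]
        exact hz
      refine ⟨(eT z, wco z), ⟨⟨?_, hw⟩, h3⟩, h2⟩
      have h4 := zero_bdd H.hp h3
      have h5 := GKc_norm H hw
      have h6 := H.s0_pos
      rw [mem_Icc, ← abs_le]
      show |eT z| ≤ s1 + s0
      linarith
    · rintro ⟨p, hp, rfl⟩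
      obtain ⟨h1, h2, h3, h4⟩ := psE_mem H.La_pos p.1 (hV p hp)
      refine ⟨(psE_Mfin H.La_pos m n p.1 (hV p hp)).2 hp.2, h2, ?_⟩
      show wco (psE P.La p.1 p.2) ∈ _
      rw [h3]
      exact hp.1.2
  rw [hEq]
  exact hSc.image_of_continuousOn hcont

theorem isOpen_Bs (H : Dat P m n s0 s1 k G) : IsOpen (Bs s0 k) := by
  have hO : IsOpen ({x : ℝ × R6 | x.1 ^ 2 + ‖x.2‖ ^ 2 < s0} ∩
      sinv ⁻¹' (jm k '' Metric.closedBall (0 : R6) (1 / 2))ᶜ) := by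
    refine IsOpen.inter ?_ ?_
    · exact isOpen_lt ((continuous_fst.pow 2).add (continuous_snd.norm.pow 2)) continuous_const
    · exact (isCompact_jm k _).isClosed.isOpen_compl.preimage contDiff_sinv.continuous
  have hc : ContinuousOn (fun z : EA => (eT z, wco z)) UE :=
    (continuous_fst).continuousOn.prodMk contDiffOn_wco.continuousOn
  have := hc.isOpen_inter_preimage isOpen_UE hO
  have hEq : Bs s0 k = UE ∩ (fun z : EA => (eT z, wco z)) ⁻¹'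
      ({x : ℝ × R6 | x.1 ^ 2 + ‖x.2‖ ^ 2 < s0} ∩
      sinv ⁻¹' (jm k '' Metric.closedBall (0 : R6) (1 / 2))ᶜ) := rfl
  rw [hEq]
  exact this

theorem Mfin_subset (H : Dat P m n s0 s1 k G) : P.Mfin m n ⊆ (Kc P m n k)ᶜ ∪ Bs s0 k := by
  intro z hz
  by_cases hK : z ∈ Kc P m n k
  swap
  · exact Or.inl hK
  right
  obtain ⟨_, hu, hw⟩ := hK
  obtain ⟨h1, h2⟩ := psE_wco H.La_pos hz.1 hu
  have h3 : Ff m n (eT z) (wco z) = 0 := by
    rw [← psE_Mfin H.La_pos m n (eT z) h1, h2]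
    exact hz
  have h4 := GKc_norm H hw
  have h5 := H.s0_big
  norm_num at h5
  have h6 : |eT z| < 2 := zero_small H.hp (by linarith) h3
  have h7 : eT z ^ 2 < 4 := by
    have := abs_lt.1 h6
    nlinarith
  refine ⟨hu, by linarith, ?_⟩
  rintro ⟨w', hw', hEq⟩
  by_cases h0 : w' = 0
  · have e1 : sX0 (jm k w') = 1 := by
      rw [sX0_jm, h0]
      simp [x0, al, be]
    have e2 := sX0_sinv_lt (eT z, wco z)
    rw [← hEq, e1] at e2
    exact lt_irrefl _ e2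
  · apply sig_jm_not_mem H.k_pos H.k_le h0 (mem_closedBall_zero_iff.1 hw')
    rw [hEq, sig_sinv]
    exact hw

end Pool.Agent.H8.SYG
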