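import Pool.Agent.H8.SYG.Defs

/-!
# Row GSte: stereographic projection of `S³ × S³`

`p = (a, b)`, `‖a‖ = ‖b‖ = 1` (`S3S3`), i.e. `a0² + a1² + a2² + a3² = 1`, same for `b`
(`EuclideanSpace.norm_eq`, `EuclideanSpace.real_norm_sq_eq`, `Fin.sum_univ_four`).
`X0 = (a0+b0)/2`, `X1 = (a0-b0)/2`, `Xw = ((a1+b1)/2, (a1-b1)/2, b2/√2, b3/√2, a2/√2, a3/√2)`,
`‖Xw‖² = (a1²+b1²)/2 + (b2²+b3²+a2²+a3²)/2 = 1 - (a0²+b0²)/2 = 1 - X0² - X1²`.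
`sig p = (X1/(1-X0), Xw/(1-X0))`, so `t²+‖w‖² = (1-X0²)/(1-X0)² = (1+X0)/(1-X0)`, `t²+‖w‖²-1 = 2 X0/(1-X0)` and
`(1-X0)² f1 = 2 X0 X1 + 2 X2 X3 - |P|² + |N|² = (a0²-b0²)/2 + (a1²-b1²)/2 - (b2²+b3²)/2 + (a2²+a3²)/2 = 0`.
`1 + t² + ‖w‖² = 2/(1-X0)`, so `2/D = 1 - X0`, `2t/D = X1`, `2 w_i/D = (Xw)_i`, `sinv (sig p) = p`
(`X0 + X1 = a0`, `X0 - X1 = b0`, `X2 + X3 = a1`, `X2 - X3 = b1`, `√2 (b2/√2) = b2` ...).
Conversely for `x = (t, w)`, `D = 1 + t² + ‖w‖²`: `X0 (sinv x) = 1 - 2/D`, `1 - X0 = 2/D`, `X1 = 2t/D`,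
`Xw (sinv x) = (2/D) w`, so `sig (sinv x) = x`; with `a, b` the two components of `sinv x`:
`‖a‖² + ‖b‖² = 2 (X0² + X1² + ‖Xw‖²) = 2` and `‖a‖² - ‖b‖² = 2(2 X0 X1 + 2 X2 X3 - |P|² + |N|²) = 2 (2/D)² f1 t w = 0`.
`sX0 p ≤ 1` because `|a0|, |b0| ≤ 1`; if `= 1` then `a0 = b0 = 1` and all other coordinates are 0.
Smoothness: coordinates are smooth, `contDiff_euclidean` / `contDiff_piLp`, `D ≥ 1 > 0`, `‖w‖²` smooth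
(`contDiff_norm_sq ℝ`).  Helper: expand `‖w‖ ^ 2` by `EuclideanSpace.real_norm_sq_eq` and `Fin.sum_univ_six`.
-/

open Set Topology
open scoped ContDiff ComplexConjugate

namespace Pool.Agent.H8.SYG

open Pool.Agent.H34.SY

theorem GSte_n4 (v : R4) : ‖v‖ ^ 2 = v 0 ^ 2 + v 1 ^ 2 + v 2 ^ 2 + v 3 ^ 2 := by
  rw [EuclideanSpace.real_norm_sq_eq, Fin.sum_univ_four]

theorem GSte_n6 (w : R6) :
    ‖w‖ ^ 2 = w 0 ^ 2 + w 1 ^ 2 + w 2 ^ 2 + w 3 ^ 2 + w 4 ^ 2 + w 5 ^ 2 := by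
  rw [EuclideanSpace.real_norm_sq_eq, Fin.sum_univ_six]

theorem GSte_S {p : R4 × R4} (hp : p ∈ S3S3) :
    p.1 0 ^ 2 + p.1 1 ^ 2 + p.1 2 ^ 2 + p.1 3 ^ 2 = 1 ∧
      p.2 0 ^ 2 + p.2 1 ^ 2 + p.2 2 ^ 2 + p.2 3 ^ 2 = 1 := by
  have h1 : ‖p.1‖ = 1 := hp.1
  have h2 : ‖p.2‖ = 1 := hp.2
  constructor
  · rw [← GSte_n4, h1, one_pow]
  · rw [← GSte_n4, h2, one_pow]

theorem GSte_two : (√2 : ℝ) ^ 2 = 2 := Real.sq_sqrt (by norm_num)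

theorem GSte_two_ne : (√2 : ℝ) ≠ 0 := by positivity

theorem GSte_two_div (x : ℝ) : (x / √2) ^ 2 = x ^ 2 / 2 := by
  rw [div_pow, GSte_two]

theorem sX0_le {p : R4 × R4} (hp : p ∈ S3S3) : sX0 p ≤ 1 := by
  obtain ⟨h1, h2⟩ := GSte_S hp
  have h3 : p.1 0 ≤ 1 := by
    nlinarith [sq_nonneg (p.1 1), sq_nonneg (p.1 2), sq_nonneg (p.1 3), sq_nonneg (p.1 0 - 1)]
  have h4 : p.2 0 ≤ 1 := by
    nlinarith [sq_nonneg (p.2 1), sq_nonneg (p.2 2), sq_nonneg (p.2 3), sq_nonneg (p.2 0 - 1)]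
  unfold sX0
  linarith

theorem GSte_one {v : R4} (h : v 0 ^ 2 + v 1 ^ 2 + v 2 ^ 2 + v 3 ^ 2 = 1) (h0 : v 0 = 1) :
    v = !₂[1, 0, 0, 0] := by
  rw [h0] at h
  have h1 : v 1 = 0 := by
    have : v 1 ^ 2 = 0 := by nlinarith [sq_nonneg (v 1), sq_nonneg (v 2), sq_nonneg (v 3)]
    exact pow_eq_zero_iff (two_ne_zero) |>.1 this
  have h2 : v 2 = 0 := by
    have : v 2 ^ 2 = 0 := by nlinarith [sq_nonneg (v 1), sq_nonneg (v 2), sq_nonneg (v 3)]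
    exact pow_eq_zero_iff (two_ne_zero) |>.1 this
  have h3 : v 3 = 0 := by
    have : v 3 ^ 2 = 0 := by nlinarith [sq_nonneg (v 1), sq_nonneg (v 2), sq_nonneg (v 3)]
    exact pow_eq_zero_iff (two_ne_zero) |>.1 this
  ext i
  fin_cases i
  · exact h0
  · exact h1
  · exact h2
  · exact h3

theorem sX0_eq_one {p : R4 × R4} (hp : p ∈ S3S3) (h : sX0 p = 1) :
    p = (!₂[1, 0, 0, 0], !₂[1, 0, 0, 0]) := by
  obtain ⟨h1, h2⟩ := GSte_S hp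
  have h3 : p.1 0 ≤ 1 := by
    nlinarith [sq_nonneg (p.1 1), sq_nonneg (p.1 2), sq_nonneg (p.1 3), sq_nonneg (p.1 0 - 1)]
  have h4 : p.2 0 ≤ 1 := by
    nlinarith [sq_nonneg (p.2 1), sq_nonneg (p.2 2), sq_nonneg (p.2 3), sq_nonneg (p.2 0 - 1)]
  unfold sX0 at h
  have h5 : p.1 0 = 1 := by linarith
  have h6 : p.2 0 = 1 := by linarith
  exact Prod.ext (GSte_one h1 h5) (GSte_one h2 h6)

theorem nsq_Xw {p : R4 × R4} (hp : p ∈ S3S3) : ‖Xw p‖ ^ 2 = 1 - (p.1 0 ^ 2 + p.2 0 ^ 2) / 2 := by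
  obtain ⟨h1, h2⟩ := GSte_S hp
  rw [GSte_n6]
  show ((p.1 1 + p.2 1) / 2) ^ 2 + ((p.1 1 - p.2 1) / 2) ^ 2 + (p.2 2 / √2) ^ 2 +
    (p.2 3 / √2) ^ 2 + (p.1 2 / √2) ^ 2 + (p.1 3 / √2) ^ 2 = _
  rw [GSte_two_div, GSte_two_div, GSte_two_div, GSte_two_div]
  linear_combination (1 / 2) * h1 + (1 / 2) * h2

theorem sig_norm {p : R4 × R4} (hp : p ∈ S3S3) (h : sX0 p < 1) :
    (sig p).1 ^ 2 + ‖(sig p).2‖ ^ 2 = (1 + sX0 p) / (1 - sX0 p) := by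
  have h0 : 1 - sX0 p ≠ 0 := by linarith
  have h1 : ‖(sig p).2‖ ^ 2 = (1 - (p.1 0 ^ 2 + p.2 0 ^ 2) / 2) / (1 - sX0 p) ^ 2 := by
    show ‖(1 - sX0 p)⁻¹ • Xw p‖ ^ 2 = _
    rw [norm_smul, mul_pow, nsq_Xw hp, Real.norm_eq_abs, sq_abs, inv_pow]
    ring
  have h2 : (sig p).1 = (p.1 0 - p.2 0) / 2 / (1 - sX0 p) := rfl
  rw [h1, h2, div_pow, ← add_div, div_eq_div_iff (pow_ne_zero _ h0) h0]
  have h3 : sX0 p = (p.1 0 + p.2 0) / 2 := rfl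
  rw [h3]
  ring

theorem sig_f1 {p : R4 × R4} (hp : p ∈ S3S3) (h : sX0 p < 1) : f1 (sig p).1 (sig p).2 = 0 := by
  have h0 : 1 - sX0 p ≠ 0 := by linarith
  obtain ⟨h1, h2⟩ := GSte_S hp
  have hs := GSte_two
  have hs0 := GSte_two_ne
  have hx : sX0 p = (p.1 0 + p.2 0) / 2 := rfl
  unfold f1 qf
  rw [sig_norm hp h]
  have e1 : (sig p).1 = (p.1 0 - p.2 0) / 2 / (1 - sX0 p) := rfl
  have w0 : (sig p).2 0 = (1 - sX0 p)⁻¹ * ((p.1 1 + p.2 1) / 2) := rfl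
  have w1 : (sig p).2 1 = (1 - sX0 p)⁻¹ * ((p.1 1 - p.2 1) / 2) := rfl
  have w2 : (sig p).2 2 = (1 - sX0 p)⁻¹ * (p.2 2 / √2) := rfl
  have w3 : (sig p).2 3 = (1 - sX0 p)⁻¹ * (p.2 3 / √2) := rfl
  have w4 : (sig p).2 4 = (1 - sX0 p)⁻¹ * (p.1 2 / √2) := rfl
  have w5 : (sig p).2 5 = (1 - sX0 p)⁻¹ * (p.1 3 / √2) := rfl
  rw [e1, w0, w1, w2, w3, w4, w5]
  simp only [mul_pow, GSte_two_div]
  have h3 : (1 + sX0 p) / (1 - sX0 p) - 1 = 2 * sX0 p / (1 - sX0 p) := by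
    field_simp
    ring
  rw [h3]
  field_simp
  rw [hx]
  linear_combination h1 - h2

theorem sinv_sig {p : R4 × R4} (hp : p ∈ S3S3) (h : sX0 p < 1) : sinv (sig p) = p := by
  have h0 : 1 - sX0 p ≠ 0 := by linarith
  have hs := GSte_two
  have hs0 := GSte_two_ne
  have hx : sX0 p = (p.1 0 + p.2 0) / 2 := rfl
  have hD : 1 + (sig p).1 ^ 2 + ‖(sig p).2‖ ^ 2 = 2 / (1 - sX0 p) := by
    rw [add_assoc, sig_norm hp h]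
    field_simp
    ring
  have e1 : (sig p).1 = (p.1 0 - p.2 0) / 2 / (1 - sX0 p) := rfl
  have w0 : (sig p).2 0 = (1 - sX0 p)⁻¹ * ((p.1 1 + p.2 1) / 2) := rfl
  have w1 : (sig p).2 1 = (1 - sX0 p)⁻¹ * ((p.1 1 - p.2 1) / 2) := rfl
  have w2 : (sig p).2 2 = (1 - sX0 p)⁻¹ * (p.2 2 / √2) := rfl
  have w3 : (sig p).2 3 = (1 - sX0 p)⁻¹ * (p.2 3 / √2) := rfl
  have w4 : (sig p).2 4 = (1 - sX0 p)⁻¹ * (p.1 2 / √2) := rfl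
  have w5 : (sig p).2 5 = (1 - sX0 p)⁻¹ * (p.1 3 / √2) := rfl
  unfold sinv
  simp only [hD]
  refine Prod.ext ?_ ?_
  · ext i
    fin_cases i
    · show 1 - 2 / (2 / (1 - sX0 p)) + 2 * (sig p).1 / (2 / (1 - sX0 p)) = p.1 0
      rw [e1]
      field_simp
      rw [hx]
      ring
    · show 2 * ((sig p).2 0 + (sig p).2 1) / (2 / (1 - sX0 p)) = p.1 1
      rw [w0, w1]
      field_simp
      ring
    · show √2 * (2 * (sig p).2 4 / (2 / (1 - sX0 p))) = p.1 2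
      rw [w4]
      field_simp
    · show √2 * (2 * (sig p).2 5 / (2 / (1 - sX0 p))) = p.1 3
      rw [w5]
      field_simp
  · ext i
    fin_cases i
    · show 1 - 2 / (2 / (1 - sX0 p)) - 2 * (sig p).1 / (2 / (1 - sX0 p)) = p.2 0
      rw [e1]
      field_simp
      rw [hx]
      ring
    · show 2 * ((sig p).2 0 - (sig p).2 1) / (2 / (1 - sX0 p)) = p.2 1
      rw [w0, w1]
      field_simp
      ring
    · show √2 * (2 * (sig p).2 2 / (2 / (1 - sX0 p))) = p.2 2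
      rw [w2]
      field_simp
    · show √2 * (2 * (sig p).2 3 / (2 / (1 - sX0 p))) = p.2 3
      rw [w3]
      field_simp

theorem GSte_D (x : ℝ × R6) : 0 < 1 + x.1 ^ 2 + ‖x.2‖ ^ 2 := by positivity

theorem GSte_mul_sq (a x : ℝ) (h : a ^ 2 = 2) : (a * x) ^ 2 = 2 * x ^ 2 := by
  rw [mul_pow, h]

theorem sinv_mem {t : ℝ} {w : R6} (h : f1 t w = 0) : sinv (t, w) ∈ S3S3 := by
  have hD := GSte_D (t, w)
  simp only at hD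
  have hs := GSte_two
  have h6 := GSte_n6 w
  unfold f1 qf at h
  set N := ‖w‖ ^ 2 with hN
  have hD0 : 1 + t ^ 2 + N ≠ 0 := hD.ne'
  have k1 : ‖(sinv (t, w)).1‖ ^ 2 = 1 := by
    rw [GSte_n4]
    show (1 - 2 / (1 + t ^ 2 + N) + 2 * t / (1 + t ^ 2 + N)) ^ 2 +
      (2 * (w 0 + w 1) / (1 + t ^ 2 + N)) ^ 2 + (√2 * (2 * w 4 / (1 + t ^ 2 + N))) ^ 2 +
      (√2 * (2 * w 5 / (1 + t ^ 2 + N))) ^ 2 = 1
    rw [GSte_mul_sq _ _ hs, GSte_mul_sq _ _ hs]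
    field_simp
    linear_combination 4 * h - 4 * h6
  have k2 : ‖(sinv (t, w)).2‖ ^ 2 = 1 := by
    rw [GSte_n4]
    show (1 - 2 / (1 + t ^ 2 + N) - 2 * t / (1 + t ^ 2 + N)) ^ 2 +
      (2 * (w 0 - w 1) / (1 + t ^ 2 + N)) ^ 2 + (√2 * (2 * w 2 / (1 + t ^ 2 + N))) ^ 2 +
      (√2 * (2 * w 3 / (1 + t ^ 2 + N))) ^ 2 = 1
    rw [GSte_mul_sq _ _ hs, GSte_mul_sq _ _ hs]
    field_simp
    linear_combination -4 * h - 4 * h6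
  refine ⟨?_, ?_⟩
  · show ‖(sinv (t, w)).1‖ = 1
    exact (pow_eq_one_iff_of_nonneg (norm_nonneg _) two_ne_zero).1 k1
  · show ‖(sinv (t, w)).2‖ = 1
    exact (pow_eq_one_iff_of_nonneg (norm_nonneg _) two_ne_zero).1 k2

theorem sX0_sinv (x : ℝ × R6) : sX0 (sinv x) = 1 - 2 / (1 + x.1 ^ 2 + ‖x.2‖ ^ 2) := by
  show ((1 - 2 / (1 + x.1 ^ 2 + ‖x.2‖ ^ 2) + 2 * x.1 / (1 + x.1 ^ 2 + ‖x.2‖ ^ 2)) +
    (1 - 2 / (1 + x.1 ^ 2 + ‖x.2‖ ^ 2) - 2 * x.1 / (1 + x.1 ^ 2 + ‖x.2‖ ^ 2))) / 2 = _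
  ring

theorem sX0_sinv_lt (x : ℝ × R6) : sX0 (sinv x) < 1 := by
  rw [sX0_sinv]
  have := div_pos (two_pos (α := ℝ)) (GSte_D x)
  linarith

theorem sig_sinv (x : ℝ × R6) : sig (sinv x) = x := by
  have hD := (GSte_D x).ne'
  have hs := GSte_two
  have hs0 := GSte_two_ne
  have hX := sX0_sinv x
  have h1 : 1 - sX0 (sinv x) = 2 / (1 + x.1 ^ 2 + ‖x.2‖ ^ 2) := by rw [hX]; ring
  unfold sig
  rw [h1]
  refine Prod.ext ?_ ?_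
  · show ((1 - 2 / (1 + x.1 ^ 2 + ‖x.2‖ ^ 2) + 2 * x.1 / (1 + x.1 ^ 2 + ‖x.2‖ ^ 2)) -
      (1 - 2 / (1 + x.1 ^ 2 + ‖x.2‖ ^ 2) - 2 * x.1 / (1 + x.1 ^ 2 + ‖x.2‖ ^ 2))) / 2 /
      (2 / (1 + x.1 ^ 2 + ‖x.2‖ ^ 2)) = x.1
    field_simp
    ring
  · ext i
    fin_cases i
    · show (2 / (1 + x.1 ^ 2 + ‖x.2‖ ^ 2))⁻¹ * ((2 * (x.2 0 + x.2 1) / (1 + x.1 ^ 2 + ‖x.2‖ ^ 2) +
        2 * (x.2 0 - x.2 1) / (1 + x.1 ^ 2 + ‖x.2‖ ^ 2)) / 2) = x.2 0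
      field_simp
      ring
    · show (2 / (1 + x.1 ^ 2 + ‖x.2‖ ^ 2))⁻¹ * ((2 * (x.2 0 + x.2 1) / (1 + x.1 ^ 2 + ‖x.2‖ ^ 2) -
        2 * (x.2 0 - x.2 1) / (1 + x.1 ^ 2 + ‖x.2‖ ^ 2)) / 2) = x.2 1
      field_simp
      ring
    · show (2 / (1 + x.1 ^ 2 + ‖x.2‖ ^ 2))⁻¹ *
        (√2 * (2 * x.2 2 / (1 + x.1 ^ 2 + ‖x.2‖ ^ 2)) / √2) = x.2 2
      field_simp
    · show (2 / (1 + x.1 ^ 2 + ‖x.2‖ ^ 2))⁻¹ *
        (√2 * (2 * x.2 3 / (1 + x.1 ^ 2 + ‖x.2‖ ^ 2)) / √2) = x.2 3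
      field_simp
    · show (2 / (1 + x.1 ^ 2 + ‖x.2‖ ^ 2))⁻¹ *
        (√2 * (2 * x.2 4 / (1 + x.1 ^ 2 + ‖x.2‖ ^ 2)) / √2) = x.2 4
      field_simp
    · show (2 / (1 + x.1 ^ 2 + ‖x.2‖ ^ 2))⁻¹ *
        (√2 * (2 * x.2 5 / (1 + x.1 ^ 2 + ‖x.2‖ ^ 2)) / √2) = x.2 5
      field_simp

theorem GSte_cd (i : Fin 6) : ContDiff ℝ ∞ (fun x : ℝ × R6 => x.2 i) :=
  (contDiff_euclidean.1 contDiff_snd) i

theorem GSte_cdD : ContDiff ℝ ∞ (fun x : ℝ × R6 => 1 + x.1 ^ 2 + ‖x.2‖ ^ 2) :=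
  (contDiff_const.add (contDiff_fst.pow 2)).add (contDiff_snd.norm_sq ℝ)

theorem contDiff_sinv : ContDiff ℝ ∞ sinv := by
  have hD0 : ∀ x : ℝ × R6, 1 + x.1 ^ 2 + ‖x.2‖ ^ 2 ≠ 0 := fun x => (GSte_D x).ne'
  have hD := GSte_cdD
  have hdiv : ∀ f : ℝ × R6 → ℝ, ContDiff ℝ ∞ f →
      ContDiff ℝ ∞ (fun x => f x / (1 + x.1 ^ 2 + ‖x.2‖ ^ 2)) := fun f hf => hf.div hD hD0
  have ht : ContDiff ℝ ∞ (fun x : ℝ × R6 => 2 * x.1 / (1 + x.1 ^ 2 + ‖x.2‖ ^ 2)) :=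
    hdiv _ (contDiff_const.mul contDiff_fst)
  have h2 : ContDiff ℝ ∞ (fun x : ℝ × R6 => 2 / (1 + x.1 ^ 2 + ‖x.2‖ ^ 2)) :=
    hdiv _ contDiff_const
  have hw : ∀ i : Fin 6, ContDiff ℝ ∞ (fun x : ℝ × R6 =>
      √2 * (2 * x.2 i / (1 + x.1 ^ 2 + ‖x.2‖ ^ 2))) := fun i =>
    contDiff_const.mul (hdiv _ (contDiff_const.mul (GSte_cd i)))
  refine ContDiff.prodMk ?_ ?_
  · rw [contDiff_euclidean]
    intro i
    fin_cases i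
    · exact (contDiff_const.sub h2).add ht
    · exact hdiv _ (contDiff_const.mul ((GSte_cd 0).add (GSte_cd 1)))
    · exact hw 4
    · exact hw 5
  · rw [contDiff_euclidean]
    intro i
    fin_cases i
    · exact (contDiff_const.sub h2).sub ht
    · exact hdiv _ (contDiff_const.mul ((GSte_cd 0).sub (GSte_cd 1)))
    · exact hw 2
    · exact hw 3

theorem contDiffOn_sig : ContDiffOn ℝ ∞ sig {p | sX0 p < 1} := by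
  have h1 : ∀ i : Fin 4, ContDiff ℝ ∞ (fun p : R4 × R4 => p.1 i) := fun i =>
    (contDiff_euclidean.1 contDiff_fst) i
  have h2 : ∀ i : Fin 4, ContDiff ℝ ∞ (fun p : R4 × R4 => p.2 i) := fun i =>
    (contDiff_euclidean.1 contDiff_snd) i
  have hX : ContDiff ℝ ∞ sX0 := ((h1 0).add (h2 0)).div_const 2
  have hX1 : ContDiff ℝ ∞ (fun p => 1 - sX0 p) := contDiff_const.sub hX
  have hne : ∀ p ∈ {p | sX0 p < 1}, 1 - sX0 p ≠ 0 := fun p hp => by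
    have : sX0 p < 1 := hp
    linarith
  have hXw : ContDiff ℝ ∞ Xw := by
    rw [contDiff_euclidean]
    intro i
    fin_cases i
    · exact ((h1 1).add (h2 1)).div_const 2
    · exact ((h1 1).sub (h2 1)).div_const 2
    · exact (h2 2).div_const _
    · exact (h2 3).div_const _
    · exact (h1 2).div_const _
    · exact (h1 3).div_const _
  refine ContDiffOn.prodMk ?_ ?_
  · exact (((h1 0).sub (h2 0)).div_const 2).contDiffOn.div hX1.contDiffOn hne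
  · exact (hX1.contDiffOn.inv hne).smul hXw.contDiffOn

end Pool.Agent.H8.SYG
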