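import Pool.Agent.H8.SYG.GImp

/-!
# Row GThI: radial maps (general facts)

`Th : R6 → ℝ` smooth, positive, with `0 < Th v + DTh(v) v`.
* radial_mono: for `v ≠ 0` (even any `v`) the function `h(λ) = λ Th(λ v)` has derivative
  `Th(λ v) + DTh(λ v)(λ v) > 0`, so it is strictly increasing on `ℝ`.
* radial_inj: if `Th v • v = Th v' • v'`: if one of them is 0 so is the other (Th > 0).  Otherwise
  `v' = c v` with `c = Th v / Th v' > 0` and `h(1) = Th v = c Th(c v) = h(c)`, so `c = 1`.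
* radial_inv: `implicit_scalar` (row GImp) with `E = R6`, `Ω = {(ρ, w) | 0 < ρ ∧ ‖ρ • w‖ < 2}`,
  `F(ρ, w) = ρ Th(ρ w) - 1`; `fderiv F (ρ, w) (1, 0) = Th(ρ w) + DTh(ρ w)(ρ w) > 0`; uniqueness: strict monotonicity
  of `h`.  Zeros: `v = ρ w` satisfies `Th v • v = (Th(ρ w) ρ) w = w`; conversely `w = Th v • v`,
  `ρ = 1/Th v`.  So the set in `implicit_scalar` is the image of the ball.  `G w` := the zero (choice),
  `Ri w = G w • w`.  `Ri (Th v • v) = (1/Th v) Th v • v = v`.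
* radial_mem: `r > 0`.  (→) `w = Th v • v`, `v ≠ 0`, `‖v‖ ≤ r`: `(r/‖w‖) • w = (r/‖v‖) • v =: u`, `v = λ u`,
  `λ = ‖v‖/r ≤ 1`: `λ Th(λ u) ≤ Th u`, so `‖w‖ = ‖v‖ Th v = r λ Th(λ u) ≤ r Th u`.  (←) `w ≠ 0`,
  `ω = w/‖w‖`: `ρ ↦ ρ Th(ρ ω)` is continuous on `[0, r]`, `0` at `0` and `≥ ‖w‖` at `r`; some `ρ` has
  `ρ Th(ρ ω) = ‖w‖`; `v = ρ ω`.  `w = 0`: `v = 0`.
-/

open Set Topology
open scoped ContDiff ComplexConjugate

namespace Pool.Agent.H8.SYG

open Pool.Agent.H34.SY

theorem GThI_der {Th : R6 → ℝ} (hs : ContDiff ℝ ∞ Th) (v : R6) (l : ℝ) :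
    HasDerivAt (fun l : ℝ => l * Th (l • v)) (Th (l • v) + fderiv ℝ Th (l • v) (l • v)) l := by
  have hd : Differentiable ℝ Th := hs.differentiable (by simp)
  have h2 : HasDerivAt (fun l : ℝ => l • v) v l := by
    simpa using (hasDerivAt_id l).smul_const v
  have h3 : HasDerivAt (fun l : ℝ => Th (l • v)) (fderiv ℝ Th (l • v) v) l :=
    (hd (l • v)).hasFDerivAt.comp_hasDerivAt l h2
  have h4 : HasDerivAt (fun l : ℝ => l * Th (l • v))
      (1 * Th (l • v) + l * fderiv ℝ Th (l • v) v) l := (hasDerivAt_id l).mul h3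
  have e : fderiv ℝ Th (l • v) (l • v) = l * fderiv ℝ Th (l • v) v := by
    rw [map_smul, smul_eq_mul]
  rw [e]
  rw [one_mul] at h4
  exact h4

theorem radial_mono {Th : R6 → ℝ} (hs : ContDiff ℝ ∞ Th)
    (hr : ∀ v, 0 < Th v + fderiv ℝ Th v v) (v : R6) :
    StrictMono (fun l : ℝ => l * Th (l • v)) := by
  apply strictMono_of_deriv_pos
  intro l
  rw [(GThI_der hs v l).deriv]
  exact hr _

theorem radial_inj {Th : R6 → ℝ} (hs : ContDiff ℝ ∞ Th) (hpos : ∀ v, 0 < Th v)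
    (hr : ∀ v, 0 < Th v + fderiv ℝ Th v v) : Function.Injective (fun v : R6 => Th v • v) := by
  intro v v' h
  have h' : Th v • v = Th v' • v' := h
  have hv' : v' = (Th v / Th v') • v := by
    have h0 := (hpos v').ne'
    rw [div_eq_inv_mul, mul_smul, h', smul_smul, inv_mul_cancel₀ h0, one_smul]
  have h1 : (fun l : ℝ => l * Th (l • v)) 1 = (fun l : ℝ => l * Th (l • v)) (Th v / Th v') := by
    simp only [one_smul, one_mul]
    rw [← hv']
    have h0 := (hpos v').ne'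
    field_simp
  have h2 := (radial_mono hs hr v).injective h1
  rw [← h2, one_smul] at hv'
  exact hv'.symm

theorem radial_inv {Th : R6 → ℝ} (hs : ContDiff ℝ ∞ Th) (hpos : ∀ v, 0 < Th v)
    (hr : ∀ v, 0 < Th v + fderiv ℝ Th v v) :
    IsOpen ((fun v : R6 => Th v • v) '' Metric.ball 0 2) ∧
      ∃ Ri : R6 → R6, ContDiffOn ℝ ∞ Ri ((fun v : R6 => Th v • v) '' Metric.ball 0 2) ∧
        ∀ v ∈ Metric.ball (0 : R6) 2, Ri (Th v • v) = v := by
  classical
  set Ω : Set (ℝ × R6) := {p | 0 < p.1 ∧ ‖p.1 • p.2‖ < 2} with hΩd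
  have hΩ : IsOpen Ω := by
    have h1 : IsOpen {p : ℝ × R6 | 0 < p.1} := isOpen_lt continuous_const continuous_fst
    have h2 : IsOpen {p : ℝ × R6 | ‖p.1 • p.2‖ < 2} :=
      isOpen_lt (continuous_fst.smul continuous_snd).norm continuous_const
    exact h1.inter h2
  set F : ℝ × R6 → ℝ := fun p => p.1 * Th (p.1 • p.2) - 1 with hFd
  have hF : ContDiff ℝ ∞ F :=
    (contDiff_fst.mul (hs.comp (contDiff_fst.smul contDiff_snd))).sub contDiff_const
  have hder : ∀ p : ℝ × R6, 0 < fderiv ℝ F p (1, 0) := by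
    intro p
    have h1 : HasFDerivAt F (fderiv ℝ F p) p :=
      (hF.differentiable (by simp) p).hasFDerivAt
    have h2 : HasDerivAt (fun t : ℝ => ((t, p.2) : ℝ × R6)) ((1 : ℝ), (0 : R6)) p.1 :=
      (hasDerivAt_id p.1).prodMk (hasDerivAt_const _ _)
    have h3 : HasDerivAt (fun t : ℝ => F (t, p.2)) (fderiv ℝ F p (1, 0)) p.1 :=
      HasFDerivAt.comp_hasDerivAt (f := fun t : ℝ => ((t, p.2) : ℝ × R6)) p.1 h1 h2
    have h4 : HasDerivAt (fun t : ℝ => F (t, p.2))
        (Th (p.1 • p.2) + fderiv ℝ Th (p.1 • p.2) (p.1 • p.2)) p.1 :=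
      (GThI_der hs p.2 p.1).sub_const 1
    rw [h3.unique h4]
    exact hr _
  have huniq : ∀ t t' w, F (t, w) = 0 → F (t', w) = 0 → t = t' := by
    intro t t' w h1 h2
    apply (radial_mono hs hr w).injective
    have h1' : t * Th (t • w) - 1 = 0 := h1
    have h2' : t' * Th (t' • w) - 1 = 0 := h2
    simp only
    linarith
  have hset : {w : R6 | ∃ t, (t, w) ∈ Ω ∧ F (t, w) = 0} =
      (fun v : R6 => Th v • v) '' Metric.ball 0 2 := by
    ext w
    constructor
    · rintro ⟨t, ⟨ht, hn⟩, h0⟩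
      refine ⟨t • w, ?_, ?_⟩
      · rw [mem_ball_zero_iff]; exact hn
      · have h0' : t * Th (t • w) - 1 = 0 := h0
        simp only
        rw [smul_smul, mul_comm, show t * Th (t • w) = 1 by linarith, one_smul]
    · rintro ⟨v, hv, rfl⟩
      have hv' := mem_ball_zero_iff.1 hv
      have h0 := (hpos v)
      have e : (Th v)⁻¹ • Th v • v = v := by
        rw [smul_smul, inv_mul_cancel₀ h0.ne', one_smul]
      refine ⟨(Th v)⁻¹, ⟨inv_pos.2 h0, ?_⟩, ?_⟩
      · simp only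
        rw [e]; exact hv'
      · simp only [hFd]
        rw [e, inv_mul_cancel₀ h0.ne', sub_self]
  obtain ⟨ho, hG⟩ := implicit_scalar hΩ hF.contDiffOn (fun p _ _ => (hder p).ne')
    (fun t t' w _ _ h1 h2 => huniq t t' w h1 h2)
  rw [hset] at ho hG
  refine ⟨ho, ?_⟩
  set G : R6 → ℝ := fun w => if h : ∃ t, (t, w) ∈ Ω ∧ F (t, w) = 0 then h.choose else 0 with hGd
  have hGs : ∀ w, (∃ t, (t, w) ∈ Ω ∧ F (t, w) = 0) → (G w, w) ∈ Ω ∧ F (G w, w) = 0 := by
    intro w h
    simp only [hGd]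
    rw [dif_pos h]
    exact h.choose_spec
  have hGc := hG G hGs
  refine ⟨fun w => G w • w, hGc.smul contDiffOn_id, ?_⟩
  intro v hv
  have hv' := mem_ball_zero_iff.1 hv
  have h0 := (hpos v)
  have e : (Th v)⁻¹ • Th v • v = v := by
    rw [smul_smul, inv_mul_cancel₀ h0.ne', one_smul]
  have h1 : ((Th v)⁻¹, Th v • v) ∈ Ω := by
    refine ⟨inv_pos.2 h0, ?_⟩
    simp only
    rw [e]; exact hv'
  have h2 : F ((Th v)⁻¹, Th v • v) = 0 := by
    simp only [hFd]
    rw [e, inv_mul_cancel₀ h0.ne', sub_self]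
  have h3 := hGs (Th v • v) ⟨_, h1, h2⟩
  have h4 := huniq _ _ _ h3.2 h2
  simp only
  rw [h4, e]

theorem radial_mem {Th : R6 → ℝ} (hs : ContDiff ℝ ∞ Th) (hpos : ∀ v, 0 < Th v)
    (hr : ∀ v, 0 < Th v + fderiv ℝ Th v v) {r : ℝ} (hr0 : 0 < r) (w : R6) :
    w ∈ (fun v : R6 => Th v • v) '' Metric.closedBall 0 r ↔
      w = 0 ∨ ‖w‖ ≤ r * Th ((r / ‖w‖) • w) := by
  constructor
  · rintro ⟨v, hv, rfl⟩
    have hv' := mem_closedBall_zero_iff.1 hv
    by_cases h0 : v = 0
    · left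
      simp [h0]
    · right
      have hvn : 0 < ‖v‖ := norm_pos_iff.2 h0
      have hT := hpos v
      have hwn : ‖Th v • v‖ = Th v * ‖v‖ := by
        rw [norm_smul, Real.norm_eq_abs, abs_of_pos hT]
      set u : R6 := (r / ‖v‖) • v with hu
      have e1 : (r / ‖Th v • v‖) • Th v • v = u := by
        rw [hwn, smul_smul, hu]
        congr 1
        field_simp
      have e2 : v = (‖v‖ / r) • u := by
        rw [hu, smul_smul]
        have : ‖v‖ / r * (r / ‖v‖) = 1 := by field_simp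
        rw [this, one_smul]
      have h1 := (radial_mono hs hr u).monotone (show ‖v‖ / r ≤ 1 by
        rw [div_le_one hr0]; exact hv')
      simp only [one_smul, one_mul] at h1
      rw [← e2] at h1
      simp only
      rw [e1, hwn]
      have h2 : r * (‖v‖ / r * Th v) ≤ r * Th u := mul_le_mul_of_nonneg_left h1 hr0.le
      have h3 : r * (‖v‖ / r * Th v) = Th v * ‖v‖ := by field_simp
      linarith
  · intro h
    by_cases h0 : w = 0
    · refine ⟨0, ?_, ?_⟩
      · rw [mem_closedBall_zero_iff, norm_zero]; exact hr0.le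
      · simp [h0]
    · have h1 : ‖w‖ ≤ r * Th ((r / ‖w‖) • w) := h.resolve_left h0
      have hwn : 0 < ‖w‖ := norm_pos_iff.2 h0
      set o : R6 := (‖w‖)⁻¹ • w with ho
      have hon : ‖o‖ = 1 := by
        rw [ho, norm_smul, norm_inv, norm_norm, inv_mul_cancel₀ hwn.ne']
      have hc : ContinuousOn (fun t : ℝ => t * Th (t • o)) (Set.Icc 0 r) :=
        (continuous_id.mul (hs.continuous.comp (continuous_id.smul continuous_const))).continuousOn
      have hivt := intermediate_value_Icc hr0.le hc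
      have hmem : ‖w‖ ∈ Set.Icc ((fun t : ℝ => t * Th (t • o)) 0) ((fun t : ℝ => t * Th (t • o)) r) := by
        constructor
        · simp only [zero_mul]; exact hwn.le
        · simp only
          have : r • o = (r / ‖w‖) • w := by
            rw [ho, smul_smul, div_eq_mul_inv]
          rw [this]; exact h1
      obtain ⟨t, ht, htw⟩ := hivt hmem
      refine ⟨t • o, ?_, ?_⟩
      · rw [mem_closedBall_zero_iff, norm_smul, hon, mul_one, Real.norm_eq_abs, abs_of_nonneg ht.1]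
        exact ht.2
      · simp only at htw ⊢
        rw [smul_smul, mul_comm, htw, ho, smul_smul, mul_inv_cancel₀ hwn.ne', one_smul]

end Pool.Agent.H8.SYG
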