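import Pool.Agent.H8.SYG.GThB
import Pool.Agent.H8.SYG.GThI

/-!
# Row GTau: the image of the stereographic projection, compared with the radial map

Use `radial_mem`, `radial_inj` (row GThI) for `Th k` (hypotheses: `contDiff_Th`, `Th_bounds`, `Th_radial`); `Tm k` is
`fun v => Th k v • v`.
* tau_scale: `g(x) = 1 - √(1-x)` satisfies `g(λ² x) ≤ λ² g(x)` for `0 ≤ λ, x ≤ 1`:
  equivalent to `1 - λ² + λ² √(1-x) ≤ √(1 - λ² x)`, square (`(1-λ²+λ² r)² ≤ 1 - λ²(1-r²)` with `r = √(1-x)`, i.e.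
  `(1-λ²)(1-r)² λ² ≥ 0` up to rearrangement: RHS - LHS `= λ²(1-λ²)(1-r)²`).  Apply to `x = k² al w` and `k² be w`
  (`al (λ w) = λ² al w`), average.
* x0_lt: `k² (al w + be w) > 0` and one of the two square roots is `< 1`.
* sig_jm: `sig (jm k w) = (_, (1 - x0 k w)⁻¹ • (k • w))` by `Xw_jm`, `sX0_jm`.
* U1.  Let `X = Xw p`, `w' = k⁻¹ • X`; if `X = 0`, `(sig p).2 = 0 = Tm k 0`.  Otherwise `ω = w'/‖w'‖`, and
  `x0 k w' = (|a0| + |b0|)/2 ≥ sX0 p` (`al_of_mem`, `√(a0²) = |a0|`).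
  Case `2 ≤ ‖w'‖`: `λ = 2/‖w'‖`, `λ w' = 2ω`: `1 - x0 k (2ω) ≤ λ² (1 - x0 k w') ≤ λ² (1 - sX0 p)`, so
  `‖(sig p).2‖ = k ‖w'‖/(1 - sX0 p) ≤ k ‖w'‖ λ²/(1 - x0 k (2ω)) ≤ 2k/(1 - x0 k (2ω)) = ‖tau k (2ω)‖ = ‖Tm k (ω/2)‖ =
  (1/2) Th k (ω/2)` (`Tm_eq` at `v = ω/2`, `‖v‖ = 1/2`, `(‖v‖²)⁻¹ v = 2ω`), and `radial_mem` with `r = 1/2`
  (`(r/‖w‖) • w = ω/2` for `w = (sig p).2`, a positive multiple of `ω`).
  Case `‖w'‖ < 2`: not both `0 < a0`, `0 < b0` (else `p = jm k w'` by `jm_of_mem`); so `sX0 p ≤ 1/2`,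
  `‖(sig p).2‖ = k‖w'‖/(1 - sX0 p) ≤ 4k ≤ (1/2) k⁻¹ ≤ (1/2) Th k (..)`.
* U2: `v = (‖w‖²)⁻¹ • w`, `‖v‖ = 1/‖w‖ ≥ 1/2`, `(‖v‖²)⁻¹ • v = w`, `Tm_eq`.
* U3: `ω = w/‖w‖`, `λ = ‖w‖/2 ≤ 1/4`, `w = λ (2ω)`: `1 - x0 k w ≤ λ² (1 - x0 k (2ω))`, so
  `‖tau k w‖ = k‖w‖/(1 - x0 k w) ≥ 2kλ/(λ²(1 - x0 k (2ω))) = ‖tau k (2ω)‖/λ ≥ 4 ‖tau k (2ω)‖ > ‖tau k (2ω)‖ = (1/2) Th k (ω/2)`;
  by `radial_mem` it is not in the image.
-/

open Set Topology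
open scoped ContDiff ComplexConjugate

namespace Pool.Agent.H8.SYG

open Pool.Agent.H34.SY

theorem GTau_g {x l : ℝ} (hx0 : 0 ≤ x) (hx : x ≤ 1) (hl : 0 ≤ l) (hl1 : l ≤ 1) :
    1 - √(1 - l ^ 2 * x) ≤ l ^ 2 * (1 - √(1 - x)) := by
  have hr0 : 0 ≤ √(1 - x) := Real.sqrt_nonneg _
  have hr2 : √(1 - x) ^ 2 = 1 - x := Real.sq_sqrt (by linarith)
  have hr1 : √(1 - x) ≤ 1 := Real.sqrt_le_one.2 (by linarith)
  have hl2 : l ^ 2 ≤ 1 := by nlinarith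
  have h1 : 1 - l ^ 2 + l ^ 2 * √(1 - x) ≤ √(1 - l ^ 2 * x) := by
    apply Real.le_sqrt_of_sq_le
    have h2 : x = 1 - √(1 - x) ^ 2 := by rw [hr2]; ring
    have h3 : 1 - l ^ 2 * x = 1 - l ^ 2 * (1 - √(1 - x) ^ 2) := by rw [← h2]
    rw [h3]
    have h4 : 0 ≤ l ^ 2 * (1 - l ^ 2) * (1 - √(1 - x)) ^ 2 :=
      mul_nonneg (mul_nonneg (sq_nonneg _) (by linarith)) (sq_nonneg _)
    nlinarith
  nlinarith

theorem GTau_al (l : ℝ) (w : R6) : al (l • w) = l ^ 2 * al w := by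
  simp only [al, PiLp.smul_apply, smul_eq_mul]
  ring

theorem GTau_be (l : ℝ) (w : R6) : be (l • w) = l ^ 2 * be w := by
  simp only [be, PiLp.smul_apply, smul_eq_mul]
  ring

theorem tau_scale {k l : ℝ} {w : R6} (h1 : k ^ 2 * al w ≤ 1) (h2 : k ^ 2 * be w ≤ 1) (hl : 0 ≤ l)
    (hl1 : l ≤ 1) : 1 - x0 k (l • w) ≤ l ^ 2 * (1 - x0 k w) := by
  unfold x0
  rw [GTau_al, GTau_be]
  have e1 : k ^ 2 * (l ^ 2 * al w) = l ^ 2 * (k ^ 2 * al w) := by ring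
  have e2 : k ^ 2 * (l ^ 2 * be w) = l ^ 2 * (k ^ 2 * be w) := by ring
  rw [e1, e2]
  have h3 := GTau_g (mul_nonneg (sq_nonneg k) (al_nonneg w)) h1 hl hl1
  have h4 := GTau_g (mul_nonneg (sq_nonneg k) (be_nonneg w)) h2 hl hl1
  linarith

theorem x0_lt {k : ℝ} (hk : 0 < k) {w : R6} (hw : w ≠ 0) : x0 k w < 1 := by
  have h1 := al_nonneg w
  have h2 := be_nonneg w
  have h3 := al_add_be w
  have h4 : 0 < ‖w‖ := norm_pos_iff.2 hw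
  have hk2 : 0 < k ^ 2 := by positivity
  have s1 : √(1 - k ^ 2 * al w) ≤ 1 := Real.sqrt_le_one.2 (by nlinarith)
  have s2 : √(1 - k ^ 2 * be w) ≤ 1 := Real.sqrt_le_one.2 (by nlinarith)
  have h5 : 0 < ‖w‖ ^ 2 := by positivity
  unfold x0
  rcases lt_or_ge 0 (al w) with h | h
  · have : √(1 - k ^ 2 * al w) < 1 := by
      rw [Real.sqrt_lt' one_pos]
      nlinarith [mul_pos hk2 h]
    linarith
  · have hb : 0 < be w := by linarith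
    have : √(1 - k ^ 2 * be w) < 1 := by
      rw [Real.sqrt_lt' one_pos]
      nlinarith [mul_pos hk2 hb]
    linarith

theorem sig_jm (k : ℝ) (w : R6) : (sig (jm k w)).2 = tau k w := by
  change (1 - sX0 (jm k w))⁻¹ • Xw (jm k w) = _
  rw [Xw_jm, sX0_jm, smul_smul, tau]
  congr 1
  rw [div_eq_mul_inv, mul_comm]

/-- the boundary sphere -/
theorem GTau_bd {k : ℝ} (hk : 0 < k) (hk2 : k ≤ 1 / 200) {w : R6} (hw : w ≠ 0) :
    1 / 2 * Th k ((1 / 2 / ‖w‖) • w) = 2 * k / (1 - x0 k ((2 / ‖w‖) • w)) := by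
  have hn : 0 < ‖w‖ := norm_pos_iff.2 hw
  have hu : ‖(1 / 2 / ‖w‖) • w‖ = 1 / 2 := by
    rw [norm_smul, Real.norm_eq_abs, abs_of_pos (by positivity)]
    field_simp
  have h1 := Tm_eq (k := k) (v := (1 / 2 / ‖w‖) • w) (by rw [hu])
  rw [hu, smul_smul] at h1
  have h2 : ((1 / 2 : ℝ) ^ 2)⁻¹ * (1 / 2 / ‖w‖) = 2 / ‖w‖ := by
    field_simp
  rw [h2] at h1
  have hW : (2 / ‖w‖) • w ≠ 0 := smul_ne_zero (by positivity) hw
  have hx := x0_lt hk hW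
  have hTh := Th_bounds hk hk2 ((1 / 2 / ‖w‖) • w)
  have hki : 0 < k⁻¹ := inv_pos.2 hk
  have h3 := congrArg norm h1
  unfold Tm tau at h3
  rw [norm_smul, hu, Real.norm_eq_abs, abs_of_pos (by linarith), norm_smul, norm_smul,
    Real.norm_eq_abs, Real.norm_eq_abs, abs_of_pos (div_pos hk (by linarith)),
    abs_of_pos (by positivity : 0 < 2 / ‖w‖), div_mul_cancel₀ _ hn.ne'] at h3
  rw [mul_comm, h3]
  ring

theorem GTau_mem {k : ℝ} (hk : 0 < k) (hk2 : k ≤ 1 / 200) {w : R6} (hw : w ≠ 0) {c : ℝ}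
    (hc : 0 < c) : c • w ∈ Tm k '' Metric.closedBall (0 : R6) (1 / 2) ↔
      c * ‖w‖ ≤ 2 * k / (1 - x0 k ((2 / ‖w‖) • w)) := by
  have hn : 0 < ‖w‖ := norm_pos_iff.2 hw
  have hki : 0 < k⁻¹ := inv_pos.2 hk
  have h := radial_mem (contDiff_Th hk hk2) (fun v => lt_of_lt_of_le hki (Th_bounds hk hk2 v).1)
    (Th_radial hk hk2) (by norm_num : (0 : ℝ) < 1 / 2) (c • w)
  have hT : (fun v : R6 => Th k v • v) = Tm k := rfl
  rw [hT] at h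
  rw [h]
  have h1 : ‖c • w‖ = c * ‖w‖ := by
    rw [norm_smul, Real.norm_eq_abs, abs_of_pos hc]
  have h2 : (1 / 2 / (c * ‖w‖)) • (c • w) = (1 / 2 / ‖w‖) • w := by
    rw [smul_smul]
    congr 1
    field_simp
  rw [h1, h2, GTau_bd hk hk2 hw]
  constructor
  · rintro (h3 | h3)
    · exact absurd h3 (smul_ne_zero hc.ne' hw)
    · exact h3
  · exact fun h3 => Or.inr h3

theorem GTau_lo {k : ℝ} (hk : 0 < k) (hk2 : k ≤ 1 / 200) {w : R6} (hw : w ≠ 0) :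
    k⁻¹ / 2 ≤ 2 * k / (1 - x0 k ((2 / ‖w‖) • w)) := by
  rw [← GTau_bd hk hk2 hw]
  have := (Th_bounds hk hk2 ((1 / 2 / ‖w‖) • w)).1
  linarith

/-- U1 -/
theorem sig_mem_Tm {k : ℝ} (hk : 0 < k) (hk2 : k ≤ 1 / 200) {p : R4 × R4} (hp : p ∈ S3S3)
    (h1 : sX0 p < 1) (hn : p ∉ jm k '' Metric.ball (0 : R6) 2) :
    (sig p).2 ∈ Tm k '' Metric.closedBall (0 : R6) (1 / 2) := by
  have hs : (sig p).2 = (k / (1 - sX0 p)) • (k⁻¹ • Xw p) := by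
    change (1 - sX0 p)⁻¹ • Xw p = _
    rw [smul_smul]
    congr 1
    field_simp
  obtain ⟨ha, hb⟩ := al_of_mem hk hp
  have hsX : sX0 p = (p.1 0 + p.2 0) / 2 := rfl
  by_cases hw : k⁻¹ • Xw p = 0
  · rw [hs, hw, smul_zero]
    exact ⟨0, by simp, by simp [Tm]⟩
  have hc : 0 < k / (1 - sX0 p) := div_pos hk (by linarith)
  rw [hs, GTau_mem hk hk2 hw hc]
  have hlo := GTau_lo hk hk2 hw
  have hn0 : 0 < ‖k⁻¹ • Xw p‖ := norm_pos_iff.2 hw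
  have hmem : k⁻¹ • Xw p ∈ Metric.ball (0 : R6) 2 ↔ ‖k⁻¹ • Xw p‖ < 2 := mem_ball_zero_iff
  have hjm := jm_of_mem hk hp
  generalize k⁻¹ • Xw p = w at *
  have h0 : 0 ≤ al w := al_nonneg w
  have h0' : 0 ≤ be w := be_nonneg w
  have hkk : 0 < k ^ 2 := by positivity
  have ha1 : p.1 0 ^ 2 ≤ 1 := by nlinarith
  have hb1 : p.2 0 ^ 2 ≤ 1 := by nlinarith
  rcases le_or_gt 2 ‖w‖ with h2 | h2
  · have hl0 : 0 ≤ 2 / ‖w‖ := by positivity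
    have hl1 : 2 / ‖w‖ ≤ 1 := by rwa [div_le_one hn0]
    have h3 := tau_scale (k := k) (w := w) (by rw [ha]; nlinarith [sq_nonneg (p.1 0)])
      (by rw [hb]; nlinarith [sq_nonneg (p.2 0)]) hl0 hl1
    have h4 : sX0 p ≤ x0 k w := by
      unfold x0
      rw [ha, hb, hsX, show 1 - (1 - p.1 0 ^ 2) = p.1 0 ^ 2 by ring,
        show 1 - (1 - p.2 0 ^ 2) = p.2 0 ^ 2 by ring, Real.sqrt_sq_eq_abs, Real.sqrt_sq_eq_abs]
      linarith [le_abs_self (p.1 0), le_abs_self (p.2 0)]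
    have hx := x0_lt hk (smul_ne_zero (div_pos two_pos hn0).ne' hw : (2 / ‖w‖) • w ≠ 0)
    have h5 : 1 - x0 k ((2 / ‖w‖) • w) ≤ (2 / ‖w‖) ^ 2 * (1 - sX0 p) := by
      refine h3.trans ?_
      apply mul_le_mul_of_nonneg_left _ (by positivity)
      linarith
    have h6 : 0 < 1 - sX0 p := by linarith
    rw [div_mul_eq_mul_div, div_le_div_iff₀ h6 (by linarith)]
    have h7 : k * ‖w‖ * (1 - x0 k ((2 / ‖w‖) • w)) ≤ k * ‖w‖ * ((2 / ‖w‖) ^ 2 * (1 - sX0 p)) :=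
      mul_le_mul_of_nonneg_left h5 (by positivity)
    refine h7.trans ?_
    have h8 : k * ‖w‖ * ((2 / ‖w‖) ^ 2 * (1 - sX0 p)) = 2 * k * (1 - sX0 p) * (2 / ‖w‖) := by
      field_simp
    rw [h8]
    have h9 : 0 ≤ 2 * k * (1 - sX0 p) := by positivity
    nlinarith
  · have h3 : ¬ (0 ≤ p.1 0 ∧ 0 ≤ p.2 0) := by
      rintro ⟨h3, h4⟩
      exact hn ⟨w, hmem.2 h2, hjm h3 h4⟩
    have h4 : sX0 p ≤ 1 / 2 := by
      rw [hsX]
      by_contra h5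
      push Not at h5
      apply h3
      have h6 : p.1 0 ≤ 1 := by nlinarith
      have h7 : p.2 0 ≤ 1 := by nlinarith
      constructor <;> linarith
    refine le_trans ?_ hlo
    have h6 : 0 < 1 - sX0 p := by linarith
    rw [div_mul_eq_mul_div, div_le_iff₀ h6]
    have h7 : k * ‖w‖ ≤ 2 * k := by nlinarith
    have h8 : 2 * k ≤ k⁻¹ / 2 * (1 / 2) := by
      rw [← one_div, div_div, div_mul_div_comm, le_div_iff₀ (by positivity)]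
      nlinarith
    have h9 : k⁻¹ / 2 * (1 / 2) ≤ k⁻¹ / 2 * (1 - sX0 p) := by
      apply mul_le_mul_of_nonneg_left _ (by positivity)
      linarith
    linarith

/-- U2 -/
theorem sig_jm_eq {k : ℝ} {w : R6} (h1 : 0 < ‖w‖) (h2 : ‖w‖ ≤ 2) :
    (sig (jm k w)).2 = Tm k ((‖w‖ ^ 2)⁻¹ • w) := by
  have hv : ‖(‖w‖ ^ 2)⁻¹ • w‖ = ‖w‖⁻¹ := by
    rw [norm_smul, Real.norm_eq_abs, abs_of_pos (by positivity)]
    field_simp
  rw [sig_jm, Tm_eq, hv, smul_smul]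
  · congr 1
    have : (‖w‖⁻¹ ^ 2)⁻¹ * (‖w‖ ^ 2)⁻¹ = 1 := by
      field_simp
    rw [this, one_smul]
  · rw [hv]
    rw [one_div]
    exact inv_anti₀ h1 h2

/-- U3 -/
theorem sig_jm_not_mem {k : ℝ} (hk : 0 < k) (hk2 : k ≤ 1 / 200) {w : R6} (h1 : w ≠ 0)
    (h2 : ‖w‖ ≤ 1 / 2) : (sig (jm k w)).2 ∉ Tm k '' Metric.closedBall (0 : R6) (1 / 2) := by
  have hx := x0_lt hk h1
  have hn0 : 0 < ‖w‖ := norm_pos_iff.2 h1
  rw [sig_jm, tau, GTau_mem hk hk2 h1 (div_pos hk (by linarith)), not_le]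
  have hW : (2 / ‖w‖) • w ≠ 0 := smul_ne_zero (by positivity) h1
  have hx2 := x0_lt hk hW
  have hWn : ‖(2 / ‖w‖) • w‖ = 2 := by
    rw [norm_smul, Real.norm_eq_abs, abs_of_pos (by positivity)]
    field_simp
  have h3 := al_add_be ((2 / ‖w‖) • w)
  have h4 := al_nonneg ((2 / ‖w‖) • w)
  have h5 := be_nonneg ((2 / ‖w‖) • w)
  rw [hWn] at h3
  have hkk : k ^ 2 ≤ 1 / 40000 := by nlinarith
  have hkk0 : 0 ≤ k ^ 2 := sq_nonneg _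
  have h6 := tau_scale (k := k) (l := ‖w‖ / 2) (w := (2 / ‖w‖) • w) (by nlinarith) (by nlinarith)
    (by positivity) (by linarith)
  have h7 : (‖w‖ / 2) • (2 / ‖w‖) • w = w := by
    rw [smul_smul]
    have : ‖w‖ / 2 * (2 / ‖w‖) = 1 := by field_simp
    rw [this, one_smul]
  rw [h7] at h6
  generalize x0 k ((2 / ‖w‖) • w) = X at *
  generalize x0 k w = Y at *
  rw [div_mul_eq_mul_div, div_lt_div_iff₀ (by linarith) (by linarith)]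
  have h8 : 2 * k * (1 - Y) ≤ 2 * k * ((‖w‖ / 2) ^ 2 * (1 - X)) :=
    mul_le_mul_of_nonneg_left h6 (by positivity)
  refine lt_of_le_of_lt h8 ?_
  have h9 : 2 * k * ((‖w‖ / 2) ^ 2 * (1 - X)) = (k * ‖w‖ * (1 - X)) * (‖w‖ / 2) := by ring
  rw [h9]
  have h10 : 0 < k * ‖w‖ * (1 - X) := mul_pos (mul_pos hk hn0) (by linarith)
  nlinarith

end Pool.Agent.H8.SYG
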