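import Pool.Agent.H8.SYG.GJ

/-!
# Row GThA: the factor `Th k` of the radial map

Write `A = k² al v / ‖v‖⁴`, `B = k² be v / ‖v‖⁴` (`v ≠ 0`), so `A, B ≥ 0`, `A + B = 2 k²/‖v‖²` (`al_add_be`,
row GJ).  `chi v = 0` iff `‖v‖ ≤ 1/4` (`Real.smoothTransition.zero_of_nonpos`), `chi v = 1` for `1/2 ≤ ‖v‖`
(`(16/4 - 1)/3 = 1`), `0 ≤ chi ≤ 1`.
* Smoothness of `Th k`: on the open set `‖v‖ < 1/4` it is the constant `k⁻¹` (chi = 0 there); on the open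
  set `1/8 < ‖v‖` all is smooth: `A ≤ 2 k²/‖v‖² ≤ 128 k² < 1`, so the square roots are smooth and `< 1`
  unless the radicand is 1: the denominator `2 - √(1-A) - √(1-B) ≥ (A+B)/2 > 0` because
  `√(1-A) ≤ 1 - A/2`.  (`‖v‖²` is smooth by `contDiff_norm_sq ℝ`, `‖v‖⁴ = (‖v‖²)²`, coordinates are smooth:
  `contDiff_apply`-like facts for `EuclideanSpace`: `EuclideanSpace.proj i`.)
* TT_bounds, for `1/4 ≤ ‖v‖`: `A/2 ≤ 1 - √(1-A) ≤ A`, same for `B`; so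
  `k²/‖v‖² = (A+B)/2 ≤ 2 - √(1-A) - √(1-B) ≤ A+B = 2k²/‖v‖²` and `TT` is between `1/k` and `2/k`.
* Th_bounds: convex combination of `1/k` and `TT` (if `‖v‖ ≤ 1/4`, `chi = 0`).
* Tm_eq: `1/2 ≤ ‖v‖`: `chi v = 1`; with `w = (‖v‖²)⁻¹ • v`: `al w = al v/‖v‖⁴`, same for `be`, so
  `1 - x0 k w = (2 - √(1-A) - √(1-B))/2` and `tau k w = (k/(1 - x0 k w)) (‖v‖²)⁻¹ • v = TT k v • v`.
-/

open Set Topology
open scoped ContDiff ComplexConjugate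

namespace Pool.Agent.H8.SYG

open Pool.Agent.H34.SY

theorem chi_mem (v : R6) : 0 ≤ chi v ∧ chi v ≤ 1 := ⟨Real.smoothTransition.nonneg _, Real.smoothTransition.le_one _⟩

theorem chi_zero {v : R6} (h : ‖v‖ ≤ 1 / 4) : chi v = 0 := by
  unfold chi
  apply Real.smoothTransition.zero_of_nonpos
  have h1 : ‖v‖ ^ 2 ≤ (1 / 4) ^ 2 := pow_le_pow_left₀ (norm_nonneg v) h 2
  linarith

theorem chi_one {v : R6} (h : 1 / 2 ≤ ‖v‖) : chi v = 1 := by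
  unfold chi
  apply Real.smoothTransition.one_of_one_le
  have h1 : (1 / 2 : ℝ) ^ 2 ≤ ‖v‖ ^ 2 := pow_le_pow_left₀ (by norm_num) h 2
  linarith

theorem contDiff_chi : ContDiff ℝ ∞ chi := by
  have h : ContDiff ℝ ∞ (fun v : R6 => (16 * ‖v‖ ^ 2 - 1) / 3) :=
    ((contDiff_const.mul (contDiff_norm_sq ℝ)).sub contDiff_const).div_const 3
  exact Real.smoothTransition.contDiff.comp h

theorem GThA_n4 (v : R6) : ‖v‖ ^ 4 = (‖v‖ ^ 2) ^ 2 := by ring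

theorem GThA_sum (k : ℝ) {v : R6} (hv : 1 / 8 < ‖v‖) :
    k ^ 2 * al v / ‖v‖ ^ 4 + k ^ 2 * be v / ‖v‖ ^ 4 = 2 * (k ^ 2 / ‖v‖ ^ 2) := by
  have h1 := al_add_be v
  have hn : ‖v‖ ≠ 0 := by linarith
  rw [← add_div, ← mul_add, h1]
  field_simp

theorem GThA_AB {k : ℝ} (hk : 0 < k) (hk2 : k ≤ 1 / 200) {v : R6} (hv : 1 / 8 < ‖v‖) :
    0 ≤ k ^ 2 * al v / ‖v‖ ^ 4 ∧ 0 ≤ k ^ 2 * be v / ‖v‖ ^ 4 ∧ k ^ 2 * al v / ‖v‖ ^ 4 < 1 ∧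
      k ^ 2 * be v / ‖v‖ ^ 4 < 1 := by
  have h1 := al_nonneg v
  have h2 := be_nonneg v
  have a1 : 0 ≤ k ^ 2 * al v / ‖v‖ ^ 4 := by positivity
  have a2 : 0 ≤ k ^ 2 * be v / ‖v‖ ^ 4 := by positivity
  have h3 := GThA_sum k hv
  have h4 : k ^ 2 / ‖v‖ ^ 2 ≤ (1 / 200) ^ 2 / (1 / 8) ^ 2 := by
    apply div_le_div₀ (by norm_num) (pow_le_pow_left₀ hk.le hk2 2) (by norm_num)
    exact pow_le_pow_left₀ (by norm_num) hv.le 2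
  have h5 : ((1 : ℝ) / 200) ^ 2 / (1 / 8) ^ 2 < 1 / 2 := by norm_num
  refine ⟨a1, a2, by linarith, by linarith⟩

theorem GThA_sq {A : ℝ} (h0 : 0 ≤ A) (h1 : A < 1) : A / 2 ≤ 1 - √(1 - A) ∧ 1 - √(1 - A) ≤ A := by
  have h2 : √(1 - A) ≤ 1 - A / 2 := by
    rw [Real.sqrt_le_left (by linarith)]
    nlinarith [sq_nonneg A]
  have h3 : 1 - A ≤ √(1 - A) := by
    apply Real.le_sqrt_of_sq_le
    nlinarith
  constructor <;> linarith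

theorem GThA_D {k : ℝ} (hk : 0 < k) (hk2 : k ≤ 1 / 200) {v : R6} (hv : 1 / 8 < ‖v‖) :
    k ^ 2 ≤ ‖v‖ ^ 2 * (2 - √(1 - k ^ 2 * al v / ‖v‖ ^ 4) - √(1 - k ^ 2 * be v / ‖v‖ ^ 4)) ∧
    ‖v‖ ^ 2 * (2 - √(1 - k ^ 2 * al v / ‖v‖ ^ 4) - √(1 - k ^ 2 * be v / ‖v‖ ^ 4)) ≤ 2 * k ^ 2 := by
  obtain ⟨a1, a2, a3, a4⟩ := GThA_AB hk hk2 hv
  have h3 := GThA_sum k hv
  obtain ⟨b1, b2⟩ := GThA_sq a1 a3
  obtain ⟨c1, c2⟩ := GThA_sq a2 a4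
  have hn : 0 < ‖v‖ := by linarith
  have hn2 : 0 < ‖v‖ ^ 2 := by positivity
  have e1 : ‖v‖ ^ 2 * (k ^ 2 / ‖v‖ ^ 2) = k ^ 2 := by field_simp
  constructor
  · have := mul_le_mul_of_nonneg_left (show k ^ 2 / ‖v‖ ^ 2 ≤
      2 - √(1 - k ^ 2 * al v / ‖v‖ ^ 4) - √(1 - k ^ 2 * be v / ‖v‖ ^ 4) by linarith) hn2.le
    linarith
  · have := mul_le_mul_of_nonneg_left (show
      2 - √(1 - k ^ 2 * al v / ‖v‖ ^ 4) - √(1 - k ^ 2 * be v / ‖v‖ ^ 4) ≤ 2 * (k ^ 2 / ‖v‖ ^ 2) by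
        linarith) hn2.le
    linarith

theorem GThA_b {k : ℝ} (hk : 0 < k) (hk2 : k ≤ 1 / 200) {v : R6} (hv : 1 / 8 < ‖v‖) :
    k⁻¹ ≤ TT k v ∧ TT k v ≤ 2 * k⁻¹ := by
  obtain ⟨h1, h2⟩ := GThA_D hk hk2 hv
  have hk3 : 0 < k ^ 2 := by positivity
  unfold TT
  constructor
  · rw [le_div_iff₀ (lt_of_lt_of_le hk3 h1), inv_mul_le_iff₀ hk]
    linarith
  · rw [div_le_iff₀ (lt_of_lt_of_le hk3 h1)]
    have h3 : 2 * k⁻¹ * k ^ 2 ≤ 2 * k⁻¹ * (‖v‖ ^ 2 *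
      (2 - √(1 - k ^ 2 * al v / ‖v‖ ^ 4) - √(1 - k ^ 2 * be v / ‖v‖ ^ 4))) :=
      mul_le_mul_of_nonneg_left h1 (by positivity)
    have e1 : 2 * k⁻¹ * k ^ 2 = 2 * k := by field_simp
    linarith

theorem contDiffOn_TT {k : ℝ} (hk : 0 < k) (hk2 : k ≤ 1 / 200) :
    ContDiffOn ℝ ∞ (TT k) {v | 1 / 8 < ‖v‖} := by
  have hn2 : ContDiff ℝ ∞ (fun v : R6 => ‖v‖ ^ 2) := contDiff_norm_sq ℝ
  have hn4 : ContDiff ℝ ∞ (fun v : R6 => ‖v‖ ^ 4) := by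
    have e : (fun v : R6 => ‖v‖ ^ 4) = fun v : R6 => (‖v‖ ^ 2) ^ 2 := funext GThA_n4
    rw [e]
    exact hn2.pow 2
  have hpos : ∀ v ∈ {v : R6 | 1 / 8 < ‖v‖}, ‖v‖ ^ 4 ≠ 0 := by
    intro v hv
    have h1 : 1 / 8 < ‖v‖ := hv
    have : 0 < ‖v‖ := by linarith
    positivity
  have hA : ContDiffOn ℝ ∞ (fun v : R6 => √(1 - k ^ 2 * al v / ‖v‖ ^ 4)) {v : R6 | 1 / 8 < ‖v‖} := by
    refine (contDiffOn_const.sub ((contDiffOn_const.mul GJ_al.contDiffOn).div hn4.contDiffOn hpos)).sqrt ?_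
    intro v hv
    have := (GThA_AB hk hk2 hv).2.2.1
    show 1 - k ^ 2 * al v / ‖v‖ ^ 4 ≠ 0
    linarith
  have hB : ContDiffOn ℝ ∞ (fun v : R6 => √(1 - k ^ 2 * be v / ‖v‖ ^ 4)) {v : R6 | 1 / 8 < ‖v‖} := by
    refine (contDiffOn_const.sub ((contDiffOn_const.mul GJ_be.contDiffOn).div hn4.contDiffOn hpos)).sqrt ?_
    intro v hv
    have := (GThA_AB hk hk2 hv).2.2.2
    show 1 - k ^ 2 * be v / ‖v‖ ^ 4 ≠ 0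
    linarith
  refine contDiffOn_const.div (hn2.contDiffOn.mul ((contDiffOn_const.sub hA).sub hB)) ?_
  intro v hv
  have h1 := (GThA_D hk hk2 hv).1
  have hk3 : 0 < k ^ 2 := by positivity
  exact (lt_of_lt_of_le hk3 h1).ne'

theorem TT_bounds {k : ℝ} (hk : 0 < k) (hk2 : k ≤ 1 / 200) {v : R6} (hv : 1 / 4 ≤ ‖v‖) :
    k⁻¹ ≤ TT k v ∧ TT k v ≤ 2 * k⁻¹ := GThA_b hk hk2 (by linarith)

theorem contDiff_Th {k : ℝ} (hk : 0 < k) (hk2 : k ≤ 1 / 200) : ContDiff ℝ ∞ (Th k) := by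
  rw [contDiff_iff_contDiffAt]
  intro v
  by_cases hv : ‖v‖ < 1 / 4
  · have h1 : ContDiffAt ℝ ∞ (fun _ : R6 => k⁻¹) v := contDiffAt_const
    refine h1.congr_of_eventuallyEq ?_
    have h2 : {u : R6 | ‖u‖ < 1 / 4} ∈ 𝓝 v := (isOpen_lt continuous_norm continuous_const).mem_nhds hv
    filter_upwards [h2] with u hu
    have h3 := chi_zero (le_of_lt (show ‖u‖ < 1 / 4 from hu))
    unfold Th
    rw [h3]
    ring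
  · have h2 : {u : R6 | 1 / 8 < ‖u‖} ∈ 𝓝 v :=
      (isOpen_lt continuous_const continuous_norm).mem_nhds (show 1 / 8 < ‖v‖ by linarith [not_lt.1 hv])
    have h1 : ContDiffOn ℝ ∞ (Th k) {u : R6 | 1 / 8 < ‖u‖} :=
      ((contDiffOn_const.sub contDiff_chi.contDiffOn).mul contDiffOn_const).add
        (contDiff_chi.contDiffOn.mul (contDiffOn_TT hk hk2))
    exact h1.contDiffAt h2

theorem Th_bounds {k : ℝ} (hk : 0 < k) (hk2 : k ≤ 1 / 200) (v : R6) :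
    k⁻¹ ≤ Th k v ∧ Th k v ≤ 2 * k⁻¹ := by
  by_cases hv : ‖v‖ ≤ 1 / 4
  · have h3 := chi_zero hv
    unfold Th
    rw [h3]
    have : 0 < k⁻¹ := inv_pos.2 hk
    constructor <;> linarith
  · obtain ⟨h1, h2⟩ := TT_bounds hk hk2 (le_of_lt (not_le.1 hv))
    obtain ⟨c1, c2⟩ := chi_mem v
    have : 0 < k⁻¹ := inv_pos.2 hk
    unfold Th
    have a1 := mul_le_mul_of_nonneg_left h1 c1
    have a2 := mul_le_mul_of_nonneg_left h2 c1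
    have a3 : 0 ≤ (1 - chi v) * k⁻¹ := mul_nonneg (by linarith) this.le
    constructor
    · linarith
    · linarith

theorem Th_small {k : ℝ} {v : R6} (h : ‖v‖ ≤ 1 / 4) : Th k v = k⁻¹ := by
  unfold Th
  rw [chi_zero h]
  ring

theorem Tm_eq {k : ℝ} {v : R6} (h : 1 / 2 ≤ ‖v‖) : Tm k v = tau k ((‖v‖ ^ 2)⁻¹ • v) := by
  have hn : ‖v‖ ≠ 0 := by linarith
  have hal : k ^ 2 * al ((‖v‖ ^ 2)⁻¹ • v) = k ^ 2 * al v / ‖v‖ ^ 4 := by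
    have e : al ((‖v‖ ^ 2)⁻¹ • v) = ((‖v‖ ^ 2)⁻¹) ^ 2 * al v := by
      show ((‖v‖ ^ 2)⁻¹ * v 0 + (‖v‖ ^ 2)⁻¹ * v 1) ^ 2 +
        2 * (((‖v‖ ^ 2)⁻¹ * v 4) ^ 2 + ((‖v‖ ^ 2)⁻¹ * v 5) ^ 2) = _
      unfold al
      ring
    rw [e]
    field_simp
  have hbe : k ^ 2 * be ((‖v‖ ^ 2)⁻¹ • v) = k ^ 2 * be v / ‖v‖ ^ 4 := by
    have e : be ((‖v‖ ^ 2)⁻¹ • v) = ((‖v‖ ^ 2)⁻¹) ^ 2 * be v := by
      show ((‖v‖ ^ 2)⁻¹ * v 0 - (‖v‖ ^ 2)⁻¹ * v 1) ^ 2 +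
        2 * (((‖v‖ ^ 2)⁻¹ * v 2) ^ 2 + ((‖v‖ ^ 2)⁻¹ * v 3) ^ 2) = _
      unfold be
      ring
    rw [e]
    field_simp
  unfold Tm Th tau x0
  rw [chi_one h, hal, hbe, smul_smul]
  congr 1
  unfold TT
  have e1 : 1 - (√(1 - k ^ 2 * al v / ‖v‖ ^ 4) + √(1 - k ^ 2 * be v / ‖v‖ ^ 4)) / 2 =
    (2 - √(1 - k ^ 2 * al v / ‖v‖ ^ 4) - √(1 - k ^ 2 * be v / ‖v‖ ^ 4)) / 2 := by ring
  rw [e1, div_div_eq_mul_div, sub_self, zero_mul, zero_add, one_mul, mul_comm k 2, ← div_eq_mul_inv,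
    div_div, mul_comm (‖v‖ ^ 2)]

end Pool.Agent.H8.SYG
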