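import Pool.Agent.H8.SYG.GThA

/-!
# Row GThB: the radial map is radially increasing

Claim: `0 < Th k v + fderiv ℝ (Th k) v v` for all `v`.
* `‖v‖ < 1/4`: `Th k` is locally constant, `fderiv = 0`, `Th = 1/k > 0`.
* `1/8 < ‖v‖` (all functions smooth near `v`, row GThA), product rule:
  `Th + DTh v = (1 - chi) k⁻¹ + chi (TT + DTT v) + (Dchi v) (TT - k⁻¹)`, where `D f v` means
  `fderiv ℝ f v v`.  For `‖v‖ ≥ 1/4`: `TT ≥ k⁻¹` (TT_bounds) and `Dchi v ≥ 0` because `λ ↦ chi (λ • v)` is monotone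
  on `(0, ∞)` (or: `fderiv chi v v = deriv st (..) * (32/3) ‖v‖²`, `deriv st ≥ 0` as st is monotone).
  So it is enough that `TT + DTT v > 0`.
* For `1/8 < ‖v‖` put `A = k² al v/‖v‖⁴`, `B = k² be v/‖v‖⁴`; `al (λ v) = λ² al v`, so
  `TT k (λ • v) = 2k / (λ² ‖v‖² S(λ))`, `S(λ) = 2 - √(1 - A/λ²) - √(1 - B/λ²)`, for `λ > 0`.  Derivative at `λ = 1`
  is `DTT v` (chain rule): with `S = S(1)`, `S' = -(A/√(1-A) + B/√(1-B))`, `c = 2k/‖v‖²`:
  `TT + DTT v = c/S - c (2 S + S')/S² = (c/S²) (A/√(1-A) + B/√(1-B) - S)` and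
  `A/√(1-A) - (1 - √(1-A)) = (1 - √(1-A))/√(1-A) ≥ 0`, with `>` if `A > 0`; `A + B = 2k²/‖v‖² > 0`, so one of them
  is positive.
-/

open Set Topology
open scoped ContDiff ComplexConjugate

namespace Pool.Agent.H8.SYG

open Pool.Agent.H34.SY

private theorem thb_line {f : R6 → ℝ} {v : R6} (hf : DifferentiableAt ℝ f v) :
    HasDerivAt (fun s : ℝ => f (s • v)) (fderiv ℝ f v v) 1 := by
  have h1 : HasDerivAt (fun s : ℝ => s • v) v 1 := by
    simpa using (hasDerivAt_id (1 : ℝ)).smul_const v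
  have h2 : HasFDerivAt f (fderiv ℝ f v) ((1 : ℝ) • v) := by
    rw [one_smul]; exact hf.hasFDerivAt
  exact h2.comp_hasDerivAt 1 h1

private theorem thb_sqrt (A : ℝ) (h1 : A < 1) :
    HasDerivAt (fun s : ℝ => √(1 - A / s ^ 2)) (A / √(1 - A)) 1 := by
  have hA : HasDerivAt (fun s : ℝ => 1 - A / s ^ 2) (2 * A) 1 := by
    have h := ((hasDerivAt_const (1 : ℝ) A).div (hasDerivAt_pow 2 (1 : ℝ)) (by norm_num)).const_sub 1
    exact h.congr_deriv (by push_cast; ring)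
  have h2 := hA.sqrt (by norm_num; linarith)
  have h3 : 0 < √(1 - A) := Real.sqrt_pos.2 (by linarith)
  refine h2.congr_deriv ?_
  rw [one_pow, div_one]
  field_simp

private theorem thb_abs (A B c : ℝ) (hA : 0 ≤ A) (hA1 : A < 1) (hB : 0 ≤ B) (hB1 : B < 1)
    (hAB : 0 < A + B) (hc : 0 < c) :
    ∃ T' : ℝ, HasDerivAt (fun s : ℝ => c / (s ^ 2 * (2 - √(1 - A / s ^ 2) - √(1 - B / s ^ 2)))) T' 1 ∧
      0 < c / (2 - √(1 - A) - √(1 - B)) + T' := by
  set a := √(1 - A) with ha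
  set b := √(1 - B) with hb
  have ha0 : 0 < a := Real.sqrt_pos.2 (by linarith)
  have hb0 : 0 < b := Real.sqrt_pos.2 (by linarith)
  have ha2 : a ^ 2 = 1 - A := Real.sq_sqrt (by linarith)
  have hb2 : b ^ 2 = 1 - B := Real.sq_sqrt (by linarith)
  have ha1 : a ≤ 1 := by nlinarith
  have hb1 : b ≤ 1 := by nlinarith
  have hS : 0 < 2 - a - b := by
    by_contra hcon
    have h1 : a = 1 := by linarith
    have h2 : b = 1 := by linarith
    rw [h1] at ha2
    rw [h2] at hb2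
    linarith
  have h3 := ((thb_sqrt A hA1).const_sub 2).sub (thb_sqrt B hB1)
  have h4 := (hasDerivAt_pow 2 (1 : ℝ)).mul h3
  have h5 := (hasDerivAt_const (1 : ℝ) c).div h4 (by
    simp only [Pi.mul_apply]
    norm_num
    rw [← ha, ← hb]
    exact hS.ne')
  refine ⟨_, h5, ?_⟩
  simp only [Pi.mul_apply, Pi.sub_apply]
  norm_num
  rw [← ha, ← hb]
  have e : c / (2 - a - b) + (-(c * (2 * (2 - a - b) + (-(A / a) - B / b))) / (2 - a - b) ^ 2) =
      c / (2 - a - b) ^ 2 * ((1 - a) / a + (1 - b) / b) := by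
    have hA' : A = 1 - a ^ 2 := by linarith
    have hB' : B = 1 - b ^ 2 := by linarith
    rw [hA', hB']
    field_simp
    ring
  have hpos : 0 < (1 - a) / a + (1 - b) / b := by
    have h6 : 0 ≤ (1 - a) / a := div_nonneg (by linarith) ha0.le
    have h7 : 0 ≤ (1 - b) / b := div_nonneg (by linarith) hb0.le
    rcases lt_or_eq_of_le ha1 with h8 | h8
    · have : 0 < (1 - a) / a := div_pos (by linarith) ha0
      linarith
    · have : 0 < (1 - b) / b := div_pos (by linarith) hb0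
      linarith
  have hfin : 0 < c / (2 - a - b) ^ 2 * ((1 - a) / a + (1 - b) / b) := mul_pos (by positivity) hpos
  rw [← e] at hfin
  convert hfin using 2

private theorem thb_al (s : ℝ) (v : R6) : al (s • v) = s ^ 2 * al v := by
  simp only [al, PiLp.smul_apply, smul_eq_mul]
  ring

private theorem thb_be (s : ℝ) (v : R6) : be (s • v) = s ^ 2 * be v := by
  simp only [be, PiLp.smul_apply, smul_eq_mul]
  ring

private theorem thb_n2 (s : ℝ) (v : R6) : ‖s • v‖ ^ 2 = s ^ 2 * ‖v‖ ^ 2 := by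
  rw [norm_smul, mul_pow, Real.norm_eq_abs, sq_abs]

private theorem thb_TT {k : ℝ} (hk : 0 < k) (hk2 : k ≤ 1 / 200) (v : R6) (hv : 1 / 8 < ‖v‖) :
    ∃ T' : ℝ, HasDerivAt (fun s : ℝ => TT k (s • v)) T' 1 ∧ 0 < TT k v + T' := by
  have hv0 : 0 < ‖v‖ := by linarith
  have hn : 0 < ‖v‖ ^ 2 := by positivity
  have hn4 : 0 < ‖v‖ ^ 4 := by positivity
  have hn2 : 1 / 64 < ‖v‖ ^ 2 := by nlinarith
  have hk1 : k ^ 2 ≤ 1 / 40000 := by nlinarith
  have hsum := al_add_be v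
  have hal := al_nonneg v
  have hbe := be_nonneg v
  have hA0 : 0 ≤ k ^ 2 * al v / ‖v‖ ^ 4 := by positivity
  have hB0 : 0 ≤ k ^ 2 * be v / ‖v‖ ^ 4 := by positivity
  have hsumAB : k ^ 2 * al v / ‖v‖ ^ 4 + k ^ 2 * be v / ‖v‖ ^ 4 = 2 * k ^ 2 / ‖v‖ ^ 2 := by
    rw [← add_div, ← mul_add, hsum]
    field_simp
  have hAB1 : 2 * k ^ 2 / ‖v‖ ^ 2 < 1 := by
    rw [div_lt_one hn]
    linarith
  have hAB0 : 0 < 2 * k ^ 2 / ‖v‖ ^ 2 := by positivity
  obtain ⟨T', h1, h2⟩ := thb_abs (k ^ 2 * al v / ‖v‖ ^ 4) (k ^ 2 * be v / ‖v‖ ^ 4) (2 * k / ‖v‖ ^ 2)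
    hA0 (by linarith) hB0 (by linarith) (by linarith) (by positivity)
  have key : ∀ s : ℝ, s ≠ 0 → TT k (s • v) = 2 * k / ‖v‖ ^ 2 /
      (s ^ 2 * (2 - √(1 - k ^ 2 * al v / ‖v‖ ^ 4 / s ^ 2) - √(1 - k ^ 2 * be v / ‖v‖ ^ 4 / s ^ 2))) := by
    intro s hs
    have hn4' : ‖s • v‖ ^ 4 = s ^ 4 * ‖v‖ ^ 4 := by
      have : ‖s • v‖ ^ 4 = (‖s • v‖ ^ 2) ^ 2 := by ring
      rw [this, thb_n2]; ring
    unfold TT
    rw [thb_al, thb_be, thb_n2, hn4']
    have e1 : k ^ 2 * (s ^ 2 * al v) / (s ^ 4 * ‖v‖ ^ 4) = k ^ 2 * al v / ‖v‖ ^ 4 / s ^ 2 := by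
      field_simp
    have e2 : k ^ 2 * (s ^ 2 * be v) / (s ^ 4 * ‖v‖ ^ 4) = k ^ 2 * be v / ‖v‖ ^ 4 / s ^ 2 := by
      field_simp
    rw [e1, e2]
    generalize (2 - √(1 - k ^ 2 * al v / ‖v‖ ^ 4 / s ^ 2) - √(1 - k ^ 2 * be v / ‖v‖ ^ 4 / s ^ 2)) = Y
    rw [div_div (2 * k) (‖v‖ ^ 2)]
    congr 1
    ring
  refine ⟨T', ?_, ?_⟩
  · refine h1.congr_of_eventuallyEq ?_
    filter_upwards [isOpen_ne.mem_nhds (one_ne_zero : (1 : ℝ) ≠ 0)] with s hs
    exact key s hs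
  · have h3 := key 1 one_ne_zero
    rw [one_smul] at h3
    rw [h3]
    simpa using h2

theorem Th_radial {k : ℝ} (hk : 0 < k) (hk2 : k ≤ 1 / 200) (v : R6) :
    0 < Th k v + fderiv ℝ (Th k) v v := by
  have hkinv : 0 < k⁻¹ := inv_pos.2 hk
  by_cases hv : ‖v‖ < 1 / 4
  · have he : Th k =ᶠ[𝓝 v] fun _ => k⁻¹ := by
      filter_upwards [(isOpen_lt continuous_norm continuous_const).mem_nhds hv] with w hw
      exact Th_small (le_of_lt hw)
    rw [he.fderiv_eq, Th_small hv.le]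
    simp [hkinv]
  · push Not at hv
    have hv8 : 1 / 8 < ‖v‖ := by linarith
    obtain ⟨T', hT, hTpos⟩ := thb_TT hk hk2 v hv8
    have hTh : HasDerivAt (fun s : ℝ => Th k (s • v)) (fderiv ℝ (Th k) v v) 1 :=
      thb_line ((contDiff_Th hk hk2).differentiable (by norm_num) v)
    have hch : HasDerivAt (fun s : ℝ => chi (s • v)) (fderiv ℝ chi v v) 1 :=
      thb_line (contDiff_chi.differentiable (by norm_num) v)
    -- the derivative of `chi` along the ray is nonnegative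
    have hch0 : 0 ≤ fderiv ℝ chi v v := by
      have hmono : MonotoneOn (fun s : ℝ => chi (s • v)) (Set.Ioi 0) := by
        intro s hs t ht hst
        change chi (s • v) ≤ chi (t • v)
        unfold chi
        apply Real.smoothTransition.monotone
        rw [thb_n2, thb_n2]
        have h1 : s ^ 2 ≤ t ^ 2 := pow_le_pow_left₀ (le_of_lt hs) hst 2
        have h2 : s ^ 2 * ‖v‖ ^ 2 ≤ t ^ 2 * ‖v‖ ^ 2 := mul_le_mul_of_nonneg_right h1 (by positivity)
        linarith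
      have h3 : HasDerivWithinAt (fun s : ℝ => chi (s • v)) (fderiv ℝ chi v v) (Set.Ioi 1) 1 :=
        hch.hasDerivWithinAt
      have h4 := (hasDerivWithinAt_iff_tendsto_slope' (by simp)).1 h3
      refine ge_of_tendsto h4 ?_
      filter_upwards [self_mem_nhdsWithin] with s hs
      rw [slope_def_field]
      have hs' : (1 : ℝ) < s := hs
      exact div_nonneg (sub_nonneg.2 (hmono (by simp) (by simp only [Set.mem_Ioi]; linarith) hs'.le))
        (by linarith)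
    have hcomb : HasDerivAt (fun s : ℝ => Th k (s • v))
        (-(fderiv ℝ chi v v) * k⁻¹ + (fderiv ℝ chi v v * TT k v + chi v * T')) 1 := by
      have h5 := ((hch.const_sub 1).mul_const k⁻¹).add (hch.mul hT)
      rw [one_smul] at h5
      exact h5
    have hu := hTh.unique hcomb
    rw [hu]
    have hTT := (TT_bounds hk hk2 hv).1
    obtain ⟨hc0, hc1⟩ := chi_mem v
    unfold Th
    have h6 : 0 ≤ (1 - chi v) * k⁻¹ := mul_nonneg (by linarith) hkinv.le
    have h7 : 0 ≤ chi v * (TT k v + T') := mul_nonneg hc0 hTpos.le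
    have h8 : 0 ≤ fderiv ℝ chi v v * (TT k v - k⁻¹) := mul_nonneg hch0 (by linarith)
    have h9 : 0 < (1 - chi v) * k⁻¹ + chi v * (TT k v + T') := by
      rcases lt_or_eq_of_le hc1 with h10 | h10
      · have : 0 < (1 - chi v) * k⁻¹ := mul_pos (by linarith) hkinv
        linarith
      · rw [h10]
        linarith
    nlinarith

end Pool.Agent.H8.SYG
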